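import Pool.Agent.U197.SF.D4

/-!
Resolution of the quotients of smooth projective varieties by automorphisms of order `p` and
`p`-closed derivations with nondegenerate weighted centres.
-/

set_option autoImplicit false
set_option linter.unusedSectionVars false

open AlgebraicGeometry CategoryTheory
open Pool.Agent.H920R2 Pool.Agent.H519R3.RS Pool.Agent.N98.PJ Pool.Agent.U197.PQ

namespace Pool.Agent.U197.SF

section good

variable {k K : Type} [Field k] [Field K] [Algebra k K]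

/-- The chart of the quotient by an automorphism. -/
lemma good_nwc_sig {p : ℕ} (hp : p.Prime) (hpk : (p : k) = 0) (τ : K ≃ₐ[k] K)
    (hτ : ∀ x, τ^[p] x = x) (B : Subalgebra k K) [Algebra.Smooth k B] (hB : ∀ x ∈ B, τ x ∈ B)
    (hne : ∃ x ∈ B, τ x ≠ x) {l : ℕ} (hl : 0 < l) {F : ℕ → Ideal B}
    (h : NWC B (fun x => τ x - x) l F)
    (C : Subalgebra k B) (hC : ∀ x : B, x ∈ C ↔ τ x = x) :
    Good k (isFilt_restr (RegularWeightedCentre.isFilt h.centre) C) ∧ restr F C 1 ≠ ⊥ := by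
  have hB' : ∀ x ∈ B, τ.symm x ∈ B := by
    intro x hx
    have h1 : τ.symm x = τ^[p - 1] x := by
      rw [AlgEquiv.symm_apply_eq, ← Function.iterate_succ_apply' τ,
        Nat.succ_eq_add_one, Nat.sub_add_cancel hp.one_lt.le, hτ]
    have h2 : ∀ n, τ^[n] x ∈ B := by
      intro n
      induction n with
      | zero => exact hx
      | succ n ih => rw [Function.iterate_succ_apply']; exact hB _ ih
    rw [h1]
    exact h2 _
  let s : B ≃ₐ[k] B := resEquiv τ B hB hB'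
  have hsp : ∀ z : B, s^[p] z = z := by
    intro z
    apply Subtype.ext
    rw [coe_resEquiv_iter, hτ]
  have hF := RegularWeightedCentre.isFilt h.centre
  have hne1 : F 1 ≠ ⊥ := by
    obtain ⟨x, hx, hx'⟩ := hne
    intro hbot
    have h1 := h.raise 0 ⟨x, hx⟩ (by rw [hF.zero]; trivial) (s ⟨x, hx⟩ - ⟨x, hx⟩) rfl
    have h2 := hF.anti 1 (0 + l) (by omega) h1
    rw [hbot, Ideal.mem_bot] at h2
    exact hx' (sub_eq_zero.1 (congrArg Subtype.val h2))
  refine good_inv_sig' hp hpk s hsp hF (good_of_centre hF h.centre) hne1 hl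
    (fun d a ha => h.raise d a ha _ rfl) ?_ ?_ C fun b => ?_
  · intro P hP hPd
    refine h.zeros.trans (hP.radical_le_iff.2 ?_)
    refine Ideal.span_le.2 ?_
    rintro y ⟨b, hb⟩
    have := hPd b
    rwa [show y = s b - b from Subtype.ext hb]
  · intro d hd a ha
    obtain ⟨N, hN⟩ := h.lead d hd a ha
    refine ⟨N, ?_⟩
    refine SetLike.le_def.1 (sup_le le_sup_left (le_trans (Ideal.span_mono ?_) le_sup_right)) hN
    rintro y ⟨e, c', hc', b, hb, z, hz, rfl⟩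
    refine ⟨e, c', hc', b, hb, ?_⟩
    congr 1
    exact Subtype.ext hz
  · rw [hC]
    exact ⟨fun h => Subtype.ext h, fun h => congrArg Subtype.val h⟩

end good

section sig

variable {k S : Type} [Field k] [CommRing S] [IsDomain S] [Algebra k S] (𝒜 : ℕ → Submodule k S)
  [GradedAlgebra 𝒜] {m : ℕ} (b : Fin (m + 1) → S) (hb : ∀ i, b i ∈ 𝒜 1) (hb0 : ∀ i, b i ≠ 0)
  (hgen : Algebra.adjoin k (Set.range b) = ⊤)
  {p : ℕ} [hp : Fact p.Prime] [CharP k p] (σ : S ≃ₐ[k] S)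

/-- An invariant element of degree `D` with a nondegenerate weighted centre on its chart. -/
def NiceSig (l D : ℕ) (z : S) : Prop :=
  ∃ (hz : z ∈ 𝒜 D) (z0 : z ≠ 0), σ z = z ∧
    ∃ F : ℕ → Ideal (ch 𝒜 z D hz z0), NWC (ch 𝒜 z D hz z0) (fun x => tauS σ x - x) l F

lemma NiceSig.mul {l D : ℕ} {z : S} (h : NiceSig 𝒜 σ l D z) {n : ℕ} (hn : 0 < n) :
    NiceSig 𝒜 σ (n * l) D z := by
  obtain ⟨hz, z0, h1, F, hF⟩ := h
  exact ⟨hz, z0, h1, hF.mul hn⟩

lemma NiceSig.pow {l D : ℕ} {z : S} (h : NiceSig 𝒜 σ l D z) {n : ℕ} (hn : 0 < n) :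
    NiceSig 𝒜 σ l (n * D) (z ^ n) := by
  obtain ⟨hz, z0, h1, hF⟩ := h
  refine ⟨SetLike.pow_mem_graded n hz, pow_ne_zero n z0, by rw [map_pow, h1], ?_⟩
  rw [ch_pow' 𝒜 z hz z0 hn rfl]
  exact hF

include hb hb0 hgen in
/-- **Quotients by automorphisms with nondegenerate weighted centres.** -/
theorem rsv_sigW (hX : AlgebraicGeometry.Smooth (str 𝒜)) (hσh : ∀ n, ∀ s ∈ 𝒜 n, σ s ∈ 𝒜 n)
    (hσp : ∀ s, σ^[p] s = s) (hσ1 : ∃ s, σ s ≠ s)
    (hpt : ∀ x : ProjectiveSpectrum 𝒜, ∃ (l D : ℕ) (z : S), 0 < l ∧ 0 < D ∧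
      z ∉ x.asHomogeneousIdeal ∧ NiceSig 𝒜 σ l D z)
    (C : Subalgebra k S) (hC : ∀ s, s ∈ C ↔ σ s = s) :
    ∃ _ : GradedAlgebra (piece 𝒜 C), RsvG 𝒜 C := by
  classical
  have hpk : (p : k) = 0 := CharP.cast_eq_zero k p
  have hp0 := hp.out.pos
  have hCf : C = fixedAlg σ := by
    ext s
    rw [hC, mem_fixedAlg]
  have hftS : Algebra.FiniteType k S := by
    refine ⟨⟨(Set.finite_range b).toFinset, ?_⟩⟩
    rw [Set.Finite.coe_toFinset, hgen]
  have hnoe : IsNoetherianRing S := Algebra.FiniteType.isNoetherianRing k S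
  have hft : Algebra.FiniteType k C := by
    rw [hCf]
    exact finiteType_fixedAlg σ p hp0 hσp
  have hCh : ∀ f ∈ C, ∀ d, GradedAlgebra.proj 𝒜 d f ∈ C := by
    intro f hf d
    rw [hC] at hf ⊢
    have h1 : ∀ f : S, GradedAlgebra.proj 𝒜 d (σ f) = σ (GradedAlgebra.proj 𝒜 d f) := by
      intro f
      conv_lhs => rw [← DirectSum.sum_support_decompose 𝒜 f]
      rw [map_sum, map_sum]
      have h2 : ∀ i, GradedAlgebra.proj 𝒜 d (σ ((DirectSum.decompose 𝒜 f i : 𝒜 i) : S)) =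
          if i = d then σ ((DirectSum.decompose 𝒜 f i : 𝒜 i) : S) else 0 := by
        intro i
        have h3 := hσh i _ (DirectSum.decompose 𝒜 f i).2
        rw [GradedAlgebra.proj_apply]
        split_ifs with h
        · subst h
          rw [DirectSum.decompose_of_mem_same 𝒜 h3]
        · rw [DirectSum.decompose_of_mem_ne 𝒜 h3 h]
      rw [Finset.sum_congr rfl fun i _ => h2 i, Finset.sum_ite_eq']
      rw [GradedAlgebra.proj_apply]
      split_ifs with h4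
      · rfl
      · rw [DFinsupp.notMem_support_iff.1 h4]
        exact (map_zero σ).symm
    rw [← h1, hf]
  refine ⟨grd 𝒜 C hCh, ?_⟩
  let _ := grd 𝒜 C hCh
  -- the charts
  obtain ⟨Y, hY, hYc⟩ := exists_finite_cover 𝒜
    {z | ∃ l D : ℕ, 0 < l ∧ 0 < D ∧ NiceSig 𝒜 σ l D z} (fun x => by
      obtain ⟨l, D, z, hl, hD, hz, h⟩ := hpt x
      exact ⟨z, ⟨l, D, hl, hD, h⟩, hz⟩)
  choose lf Df hlf hDf hnice using fun z : Y => hY z.2
  let L : ℕ := ∏ z : Y, lf z
  let D : ℕ := ∏ z : Y, Df z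
  have hL : 0 < L := Finset.prod_pos fun z _ => hlf z
  have hD : 0 < D := Finset.prod_pos fun z _ => hDf z
  have hLd : ∀ z, lf z ∣ L := fun z => Finset.dvd_prod_of_mem lf (Finset.mem_univ z)
  have hDd : ∀ z, Df z ∣ D := fun z => Finset.dvd_prod_of_mem Df (Finset.mem_univ z)
  let h : Y → S := fun z => (z : S) ^ (D / Df z)
  have hnice' : ∀ z, NiceSig 𝒜 σ L D (h z) := by
    intro z
    have h1 := ((hnice z).mul 𝒜 σ (Nat.div_pos (Nat.le_of_dvd hL (hLd z)) (hlf z))).pow 𝒜 σ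
      (Nat.div_pos (Nat.le_of_dvd hD (hDd z)) (hDf z))
    rwa [Nat.div_mul_cancel (hLd z), Nat.div_mul_cancel (hDd z)] at h1
  choose hh h0 hinv F hF using hnice'
  have hcov := cover_of_points 𝒜 b hb hb0 hgen h hh h0 (fun x => by
    obtain ⟨z, hz, hzx⟩ := hYc x
    refine ⟨⟨z, hz⟩, fun hcon => hzx ?_⟩
    exact x.isPrime.mem_of_pow_mem _ hcon)
  obtain ⟨a0, -⟩ := hcov ⊤ fun _ => trivial
  have hsmB : ∀ a, Algebra.Smooth k (ch 𝒜 (h a) D (hh a) (h0 a)) := fun a =>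
    smooth_ch 𝒜 hX hD (h a) (hh a) (h0 a)
  have hτp := tauS_iter σ hσp
  have hst : ∀ a, ∀ x ∈ ch 𝒜 (h a) D (hh a) (h0 a), tauS σ x ∈ ch 𝒜 (h a) D (hh a) (h0 a) := by
    rintro a _ ⟨i, s, hs, rfl⟩
    refine ⟨i, σ s, hσh _ _ hs, ?_⟩
    rw [map_div₀, map_pow, tauS_ev, tauS_ev, hinv]
  refine rsvG_of 𝒜 b hb hgen C hD.ne' ⟨h a0, (hC _).2 (hinv a0)⟩ (hh a0)
    (fun h' => h0 a0 (congrArg Subtype.val h')) ?_
  refine resolution_gen 𝒜 hp.out hpk C (fixF (tauS σ)) ?_ hD h hh h0 (fun a => (hC _).2 (hinv a)) ?_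
    F (fun a => RegularWeightedCentre.isFilt (hF a).centre) ?_ hcov ?_
  · intro s
    rw [mem_fixF, tauS_ev, hC]
    exact ⟨fun h => ev_inj h, fun h => by rw [h]⟩
  · intro d t ht ht0
    obtain ⟨q, hq⟩ : ∃ q, p = q + 1 := ⟨p - 1, by omega⟩
    refine ⟨_, ∏ i ∈ Finset.range q, σ^[i + 1] t, SetLike.prod_mem_graded 𝒜 (fun _ => d)
      (fun i => σ^[i + 1] t) (fun i _ => iter_mem 𝒜 σ hσh (i + 1) d _ ht), ?_, ?_⟩
    · rw [hC, mul_comm, ← nrm_succ', ← hq]
      exact map_nrm σ p hσp _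
    · rw [Finset.prod_ne_zero_iff]
      intro i _
      exact iter_ne σ _ _ ht0
  · intro a a' d f hf
    have hfix : tauS σ (ev k S (h a') / ev k S (h a)) = ev k S (h a') / ev k S (h a) := by
      rw [map_div₀, tauS_ev, tauS_ev, hinv, hinv]
    have _ := hsmB a
    have _ := hsmB a'
    refine glue_nwc (c := ev k S (h a') / ev k S (h a)) (δA := fun x => tauS σ x - x)
      (δB := fun x => tauS σ x - x) (u := 1) (n0 := 0)
      (ratio_mem 𝒜 (h a) (h a') (hh a) (h0 a) (hh a'))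
      (ratio_pow 𝒜 (h a) (h a') (hh a) (h0 a) (hh a') (h0 a'))
      (fun x hx => Subalgebra.sub_mem _ (hst a x hx) hx)
      (fun x hx => Subalgebra.sub_mem _ (hst a' x hx) hx) (fun x => ?_) ?_
      (fun x => (one_mul _).symm) hL (hF a) (hF a') d f hf
    · rw [map_mul, hfix, mul_sub]
    · rw [pow_zero, one_mul]
      exact Subalgebra.one_mem _
  · intro a
    have _ := hsmB a
    exact good_nwc_sig hp.out hpk (tauS σ) hτp _ (hst a)
      (exists_moved 𝒜 b hb hb0 hgen σ hσh hσp hσ1 hD (h a) (hh a) (h0 a)) hL (hF a) _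
      fun x => Iff.rfl

end sig

end Pool.Agent.U197.SF
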