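import Pool.Agent.U197.SF.D13

/-!
Local rings of smooth varieties; isolated fixed points.
-/

set_option autoImplicit false
set_option linter.unusedSectionVars false

open Pool.Agent.H920R2 Pool.Agent.H519R3.RS Pool.Agent.N98.PJ

namespace Pool.Agent.U197.SF

section smooth

variable {k K : Type} [Field k] [Field K] [Algebra k K] {O : Subalgebra k K} {τ : K ≃ₐ[k] K}
  {𝒞 : Subalgebra k K → Prop} (h𝒞 : ChartFam O τ 𝒞)

include h𝒞 in
/-- The local ring is smooth. -/
lemma ChartFam.smooth [IsLocalRing O] : Algebra.FormallySmooth k O ∧ Algebra.EssFiniteType k O ∧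
    IsNoetherianRing O := by
  obtain ⟨R0, hR0⟩ := h𝒞.nonempty
  let _ : Algebra R0 O := (Subalgebra.inclusion (h𝒞.le R0 hR0)).toRingHom.toAlgebra
  have _ : IsScalarTower k R0 O := IsScalarTower.of_algebraMap_eq fun r => rfl
  have _ := h𝒞.sm R0 hR0
  let P : Ideal R0 := (IsLocalRing.maximalIdeal O).comap (algebraMap R0 O)
  have hP : ∀ (g : K) (hg : g ∈ R0), (⟨g, hg⟩ : R0) ∉ P ↔ g ≠ 0 ∧ g⁻¹ ∈ O := by
    intro g hg
    rw [Ideal.mem_comap, IsLocalRing.mem_maximalIdeal, mem_nonunits_iff, not_not]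
    constructor
    · intro hu
      obtain ⟨y, hy⟩ := hu.exists_right_inv
      have h1 : g * (y : K) = 1 := congrArg Subtype.val hy
      have h2 : g ≠ 0 := left_ne_zero_of_mul_eq_one h1
      refine ⟨h2, ?_⟩
      rw [inv_eq_of_mul_eq_one_right h1]
      exact y.2
    · rintro ⟨h1, h2⟩
      exact IsUnit.of_mul_eq_one ⟨g⁻¹, h2⟩ (Subtype.ext (mul_inv_cancel₀ h1))
  have hloc : IsLocalization P.primeCompl O := by
    refine ⟨?_, ?_, ?_⟩
    · rintro ⟨⟨g, hg⟩, hgP⟩
      obtain ⟨h1, h2⟩ := (hP g hg).1 hgP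
      exact IsUnit.of_mul_eq_one ⟨g⁻¹, h2⟩ (Subtype.ext (mul_inv_cancel₀ h1))
    · intro y
      obtain ⟨g, hg, hg0, hgO, hyg⟩ := h𝒞.frac R0 hR0 y y.2
      exact ⟨⟨⟨y * g, hyg⟩, ⟨g, hg⟩, (hP g hg).2 ⟨hg0, hgO⟩⟩, Subtype.ext rfl⟩
    · intro a b hab
      refine ⟨1, ?_⟩
      have h3 : (a : K) = b := congrArg (fun z : O => (z : K)) hab
      rw [Subtype.ext h3]
  refine ⟨?_, ?_, ?_⟩
  · have _ : Algebra.FormallySmooth R0 O := Algebra.FormallySmooth.of_isLocalization P.primeCompl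
    exact Algebra.FormallySmooth.comp k R0 O
  · have _ : Algebra.EssFiniteType R0 O := Algebra.EssFiniteType.of_isLocalization _ P.primeCompl
    exact Algebra.EssFiniteType.comp k R0 O
  · have _ : IsNoetherianRing R0 := Algebra.FiniteType.isNoetherianRing k R0
    exact IsLocalization.isNoetherianRing P.primeCompl O inferInstance

end smooth

section iso

variable {k K : Type} [Field k] [Field K] [Algebra k K] {O : Subalgebra k K} [IsLocalRing O]
  {τ : K ≃ₐ[k] K} (hτO : ∀ x ∈ O, τ x ∈ O)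

/-- The map `σ - 1`. -/
def dO (hτO : ∀ x ∈ O, τ x ∈ O) (a : O) : O := ⟨τ a - a, O.sub_mem (hτO a a.2) a.2⟩

/-- Isolated fixed points with nondegenerate leading forms. -/
theorem ndk_iso [IsNoetherianRing O] {n : ℕ} (y : Fin n → O) (w : Fin n → ℕ) {l : ℕ} (hl : 0 < l)
    (hw : ∀ i, 0 < w i)
    (hrat : ∀ a : O, ∃ c : k, a - algebraMap k O c ∈ IsLocalRing.maximalIdeal O)
    (hgen : Ideal.span (Set.range y) = IsLocalRing.maximalIdeal O)
    (hord : ∀ i, dO hτO (y i) ∈ monoF y w (w i + l))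
    (hlead : ∀ i, ∃ N : ℕ, y i ^ N ∈ monoF y w (N * w i + 1) ⊔
      Ideal.span {c | ∃ j, ∃ b ∈ monoF y w (N * w i - (w j + l)), c = b * dO hτO (y j)}) :
    NDk (fun i => (y i : K)) w (fun z => τ z - z) l O := by
  have hadd : ∀ a b, dO hτO (a + b) = dO hτO a + dO hτO b := by
    intro a b
    apply Subtype.ext
    change τ ((a : K) + b) - (a + b) = (τ a - a) + (τ b - b)
    rw [map_add]
    ring
  have hmul : ∀ a b, ∃ c, dO hτO (a * b) = a * dO hτO b + b * dO hτO a +
      c * (dO hτO a * dO hτO b) := by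
    intro a b
    refine ⟨1, Subtype.ext ?_⟩
    change τ ((a : K) * b) - a * b = a * (τ b - b) + b * (τ a - a) + 1 * ((τ a - a) * (τ b - b))
    rw [map_mul]
    ring
  have hconst : ∀ c : k, dO hτO (algebraMap k O c) = 0 := by
    intro c
    apply Subtype.ext
    change τ (algebraMap k K c) - algebraMap k K c = 0
    rw [τ.commutes, sub_self]
  have h1 := order_all y w hrat hgen hw hadd hmul hconst hord hl
  refine ndk_of_ring (δ := fun z => τ z - z) (fun a ha => O.sub_mem (hτO a ha) ha) y w h1 hord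
    (fun i _ => ?_) (fun i _ => ?_)
  · refine zeros_all y w hgen hw (zI O fun z => τ z - z) (fun i => ?_) i
    obtain ⟨N, hN⟩ := hlead i
    refine ⟨N, SetLike.le_def.1 (sup_le le_sup_left (le_trans ?_ le_sup_right)) hN⟩
    rw [Ideal.span_le]
    rintro _ ⟨j, b, -, rfl⟩
    exact Ideal.mul_mem_left _ _ (Ideal.subset_span ⟨y j, rfl⟩)
  · obtain ⟨N, hN⟩ := hlead i
    refine ⟨N, SetLike.le_def.1 (sup_le le_sup_left (le_trans (Ideal.span_mono ?_) le_sup_right)) hN⟩
    rintro _ ⟨j, b, hb, rfl⟩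
    exact ⟨w j, y j, coord_mem y w j, b, hb, rfl⟩

end iso

end Pool.Agent.U197.SF
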