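import Mathlib

/-!
Etale coordinates from bases of the module of differentials.
-/

set_option autoImplicit false

open KaehlerDifferential TensorProduct

namespace Pool.Agent.U197.SF

/-- Elements whose differentials are a basis are étale coordinates. -/
theorem etale_of_basis {k T ι : Type} [Field k] [CommRing T] [Algebra k T] [Algebra.Smooth k T]
    [Finite ι] (x : ι → T) (b : Module.Basis ι T (Ω[T⁄k])) (hb : ∀ i, b i = D k T (x i)) :
    ((MvPolynomial.aeval x : MvPolynomial ι k →ₐ[k] T) : MvPolynomial ι k →+* T).Etale := by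
  let φ : MvPolynomial ι k →ₐ[k] T := MvPolynomial.aeval x
  let _ : Algebra (MvPolynomial ι k) T := φ.toRingHom.toAlgebra
  have _ : IsScalarTower k (MvPolynomial ι k) T := IsScalarTower.of_algebraMap_eq' φ.comp_algebraMap.symm
  let b' : Module.Basis ι T (T ⊗[MvPolynomial ι k] Ω[MvPolynomial ι k⁄k]) :=
    (KaehlerDifferential.mvPolynomialBasis k ι).baseChange T
  have heq : (mapBaseChange k (MvPolynomial ι k) T) = (b'.equiv b (Equiv.refl ι)).toLinearMap := by
    apply b'.ext
    intro i
    change _ = (b'.equiv b (Equiv.refl ι)) (b' i)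
    rw [Module.Basis.equiv_apply, Equiv.refl_apply, hb]
    simp only [b']
    rw [Module.Basis.baseChange_apply, KaehlerDifferential.mvPolynomialBasis_apply,
      mapBaseChange_tmul, one_smul, map_D]
    congr 1
    exact MvPolynomial.aeval_X x i
  have hbij : Function.Bijective (mapBaseChange k (MvPolynomial ι k) T) := by
    rw [heq]
    exact (b'.equiv b (Equiv.refl ι)).bijective
  have h1 : Subsingleton (Algebra.H1Cotangent (MvPolynomial ι k) T) := by
    constructor
    intro u v
    have key : ∀ u : Algebra.H1Cotangent (MvPolynomial ι k) T, u = 0 := by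
      intro u
      have h2 : Algebra.H1Cotangent.δ k (MvPolynomial ι k) T u = 0 := by
        apply hbij.1
        rw [map_zero]
        exact (Algebra.H1Cotangent.exact_δ_mapBaseChange k (MvPolynomial ι k) T _).2 ⟨u, rfl⟩
      obtain ⟨w, hw⟩ := (Algebra.H1Cotangent.exact_map_δ k (MvPolynomial ι k) T u).1 h2
      rw [← hw, Subsingleton.elim w 0, map_zero]
    rw [key u, key v]
  have h2 : Subsingleton (Ω[T⁄MvPolynomial ι k]) := by
    constructor
    have key : ∀ u : Ω[T⁄MvPolynomial ι k], u = 0 := by
      intro u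
      obtain ⟨v, rfl⟩ := KaehlerDifferential.map_surjective k (MvPolynomial ι k) T u
      exact (KaehlerDifferential.exact_mapBaseChange_map k (MvPolynomial ι k) T v).2 (hbij.2 v)
    intro u v
    rw [key u, key v]
  have h3 : Algebra.FormallyEtale (MvPolynomial ι k) T := ⟨h2, h1⟩
  have h4 : Algebra.FinitePresentation (MvPolynomial ι k) T :=
    Algebra.FinitePresentation.of_restrict_scalars_finitePresentation k (MvPolynomial ι k) T
  have h5 : Algebra.Etale (MvPolynomial ι k) T := ⟨h3, h4⟩
  exact h5

/-- Elements whose differentials are a basis at a prime are étale coordinates near the prime. -/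
theorem exists_etale {k B ι : Type} [Field k] [CommRing B] [Algebra k B] [Algebra.Smooth k B]
    [Finite ι] (a : ι → B) (P : Ideal B) [P.IsPrime]
    (b : Module.Basis ι (Localization.AtPrime P) (Ω[Localization.AtPrime P⁄k]))
    (hb : ∀ i, b i = D k _ (algebraMap B (Localization.AtPrime P) (a i))) :
    ∃ g : B, g ∉ P ∧ ((MvPolynomial.aeval (fun i => algebraMap B (Localization.Away g) (a i)) :
      MvPolynomial ι k →ₐ[k] Localization.Away g) :
      MvPolynomial ι k →+* Localization.Away g).Etale := by
  let e : (ι →₀ B) →ₗ[B] Ω[B⁄k] := Finsupp.linearCombination B fun i : ι ↦ D k B (a i)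
  let l₁ : (ι →₀ B) →ₗ[B] (ι →₀ Localization.AtPrime P) :=
    Finsupp.mapRange.linearMap (Algebra.linearMap B (Localization.AtPrime P))
  let l₂ : Ω[B⁄k] →ₗ[B] Ω[Localization.AtPrime P⁄k] := map k k B (Localization.AtPrime P)
  let eₚ : (ι →₀ Localization.AtPrime P) →ₗ[Localization.AtPrime P] Ω[Localization.AtPrime P⁄k] :=
    IsLocalizedModule.mapExtendScalars P.primeCompl l₁ l₂ (Localization.AtPrime P) e
  have : eₚ = b.repr.symm := by
    ext i
    trans IsLocalizedModule.map P.primeCompl l₁ l₂ e <| l₁ <| Finsupp.single i 1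
    · simp [eₚ, -IsLocalizedModule.map_apply, l₁]
    · simp [l₂, e, hb]
  have heₚ : Function.Bijective eₚ := this ▸ b.repr.symm.bijective
  obtain ⟨g, hg, h⟩ := Module.FinitePresentation.exists_notMem_bijective e P l₁ l₂ heₚ
  let l₁ₜ : (ι →₀ B) →ₗ[B] (ι →₀ Localization.Away g) :=
    Finsupp.mapRange.linearMap (Algebra.linearMap B _)
  let l₂ₜ : Ω[B⁄k] →ₗ[B] Ω[Localization.Away g⁄k] :=
    map k k B (Localization.Away g)
  rw [← IsLocalizedModule.map_bijective_iff_localizedModuleMap_bijective l₁ₜ l₂ₜ] at h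
  let eₜ' : (ι →₀ Localization.Away g) →ₗ[Localization.Away g] Ω[Localization.Away g⁄k] :=
    IsLocalizedModule.mapExtendScalars (Submonoid.powers g) l₁ₜ l₂ₜ (Localization.Away g) e
  have hsm : Algebra.Smooth k (Localization.Away g) :=
    Algebra.Smooth.comp k B (Localization.Away g)
  refine ⟨g, hg, etale_of_basis _ (.ofRepr (LinearEquiv.ofBijective eₜ' h).symm) ?_⟩
  intro i
  have h5 : eₜ' (Finsupp.single i 1) = D k _ (algebraMap B (Localization.Away g) (a i)) := by
    trans IsLocalizedModule.map (Submonoid.powers g) l₁ₜ l₂ₜ e (l₁ₜ (Finsupp.single i 1))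
    · simp [eₜ', -IsLocalizedModule.map_apply, l₁ₜ]
    · simp [l₂ₜ, e]
  rw [← h5]
  rfl

end Pool.Agent.U197.SF
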