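import Pool.Agent.U197.SF.A1

/-!
Etale coordinates adapted to a smooth closed subscheme.
-/

set_option autoImplicit false

open KaehlerDifferential TensorProduct

namespace Pool.Agent.U197.SF

/-- Étale coordinates restrict to smaller open subsets. -/
lemma etale_mul {k B ι : Type} [Field k] [CommRing B] [Algebra k B] (a : ι → B) (g g' : B)
    (h : ((MvPolynomial.aeval (fun i => algebraMap B (Localization.Away g) (a i)) :
      MvPolynomial ι k →ₐ[k] Localization.Away g) :
      MvPolynomial ι k →+* Localization.Away g).Etale) :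
    ((MvPolynomial.aeval (fun i => algebraMap B (Localization.Away (g * g')) (a i)) :
      MvPolynomial ι k →ₐ[k] Localization.Away (g * g')) :
      MvPolynomial ι k →+* Localization.Away (g * g')).Etale := by
  let T := Localization.Away (algebraMap B (Localization.Away g) g')
  have h1 : (algebraMap (Localization.Away g) T).Etale :=
    RingHom.etale_algebraMap.2 (Algebra.Etale.of_isLocalizationAway
      (algebraMap B (Localization.Away g) g'))
  let e : T ≃ₐ[B] Localization.Away (g * g') :=
    IsLocalization.algEquiv (Submonoid.powers (g * g')) _ _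
  have h2 : (e : T →+* Localization.Away (g * g')).Etale :=
    RingHom.Etale.of_bijective e.bijective
  have h3 := RingHom.Etale.stableUnderComposition _ _
    (RingHom.Etale.stableUnderComposition _ _ h h1) h2
  have h4 : ((e : T →+* Localization.Away (g * g')).comp ((algebraMap (Localization.Away g) T).comp
      ((MvPolynomial.aeval (fun i => algebraMap B (Localization.Away g) (a i)) :
      MvPolynomial ι k →ₐ[k] Localization.Away g) :
      MvPolynomial ι k →+* Localization.Away g))) =
      ((MvPolynomial.aeval (fun i => algebraMap B (Localization.Away (g * g')) (a i)) :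
      MvPolynomial ι k →ₐ[k] Localization.Away (g * g')) :
      MvPolynomial ι k →+* Localization.Away (g * g')) := by
    apply MvPolynomial.ringHom_ext
    · intro r
      change e (algebraMap (Localization.Away g) T (MvPolynomial.aeval _ (MvPolynomial.C r))) =
        MvPolynomial.aeval _ (MvPolynomial.C r)
      rw [MvPolynomial.aeval_C, MvPolynomial.aeval_C,
        IsScalarTower.algebraMap_apply k B (Localization.Away g),
        ← IsScalarTower.algebraMap_apply B (Localization.Away g) T, e.commutes,
        ← IsScalarTower.algebraMap_apply]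
    · intro i
      change e (algebraMap (Localization.Away g) T (MvPolynomial.aeval _ (MvPolynomial.X i))) =
        MvPolynomial.aeval _ (MvPolynomial.X i)
      rw [MvPolynomial.aeval_X, MvPolynomial.aeval_X,
        ← IsScalarTower.algebraMap_apply B (Localization.Away g) T, e.commutes]
  rw [← h4]
  exact h3

/-- Elements which generate the conormal module at a prime generate the ideal near the prime. -/
lemma exists_smul_mem {B : Type} [CommRing B] (P : Ideal B) [P.IsPrime] (J : Ideal B)
    [Module.Finite B J] (hJP : J ≤ P) {ι : Type} (x : ι → J)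
    (hsp : Submodule.span P.ResidueField (Set.range fun i =>
      ((1 : P.ResidueField) ⊗ₜ[B] J.toCotangent (x i) : P.ResidueField ⊗[B] J.Cotangent)) = ⊤) :
    ∃ g : B, g ∉ P ∧ ∀ j ∈ J, g * j ∈ Ideal.span (Set.range fun i => (x i : B)) := by
  classical
  let S : Submodule B J := Submodule.span B (Set.range x)
  let κ := P.ResidueField
  let f : J →ₗ[B] κ ⊗[B] (J ⧸ S) := (TensorProduct.mk B κ (J ⧸ S) 1) ∘ₗ S.mkQ
  have hf : ∀ u v : J, f (u * v) = 0 := by
    intro u v
    have h1 : (u * v : J) = (u : B) • v := Subtype.ext rfl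
    change (1 : κ) ⊗ₜ[B] S.mkQ (u * v) = 0
    rw [h1, map_smul, ← TensorProduct.smul_tmul, Algebra.smul_def, mul_one]
    have h2 : algebraMap B κ (u : B) = 0 := by
      rw [Ideal.algebraMap_residueField_eq_zero]
      exact hJP u.2
    rw [h2, TensorProduct.zero_tmul]
  let F : κ ⊗[B] J.Cotangent →ₗ[κ] κ ⊗[B] (J ⧸ S) :=
    LinearMap.liftBaseChange κ (Ideal.Cotangent.lift f hf)
  have hF : F = 0 := by
    apply LinearMap.ext_on_range hsp
    intro i
    change F (1 ⊗ₜ[B] J.toCotangent (x i)) = 0
    rw [LinearMap.liftBaseChange_tmul, one_smul, Ideal.Cotangent.lift_toCotangent]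
    change (1 : κ) ⊗ₜ[B] S.mkQ (x i) = 0
    have h3 : S.mkQ (x i) = 0 := by
      rw [Submodule.mkQ_apply, Submodule.Quotient.mk_eq_zero]
      exact Submodule.subset_span ⟨i, rfl⟩
    rw [h3, TensorProduct.tmul_zero]
  have hz : ∀ z : κ ⊗[B] (J ⧸ S), z = 0 := by
    intro z
    induction z using TensorProduct.induction_on with
    | zero => rfl
    | tmul c n =>
      obtain ⟨j, rfl⟩ := S.mkQ_surjective n
      have h4 : F (1 ⊗ₜ[B] J.toCotangent j) = 0 := by rw [hF]; rfl
      rw [LinearMap.liftBaseChange_tmul, one_smul, Ideal.Cotangent.lift_toCotangent] at h4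
      change (1 : κ) ⊗ₜ[B] S.mkQ j = 0 at h4
      have h5 : c ⊗ₜ[B] S.mkQ j = c • ((1 : κ) ⊗ₜ[B] S.mkQ j) := by
        rw [TensorProduct.smul_tmul', smul_eq_mul, mul_one]
      rw [h5, h4, smul_zero]
    | add u v hu hv => rw [hu, hv, add_zero]
  have hns : (⟨P, inferInstance⟩ : PrimeSpectrum B) ∉ Module.support B (J ⧸ S) := by
    rw [Module.mem_support_iff_nontrivial_residueField_tensorProduct]
    rintro ⟨u, v, huv⟩
    exact huv ((hz u).trans (hz v).symm)
  rw [Module.mem_support_iff_of_finite, SetLike.not_le_iff_exists] at hns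
  obtain ⟨g, hg, hgP⟩ := hns
  refine ⟨g, hgP, fun j hj => ?_⟩
  have h6 : g • S.mkQ ⟨j, hj⟩ = 0 := Module.mem_annihilator.1 hg _
  rw [← map_smul, Submodule.mkQ_apply, Submodule.Quotient.mk_eq_zero] at h6
  have h7 : S.map J.subtype = Ideal.span (Set.range fun i => (x i : B)) := by
    change (Submodule.span B (Set.range x)).map J.subtype = _
    rw [Submodule.map_span, ← Set.range_comp]
    rfl
  rw [← h7]
  exact ⟨_, h6, rfl⟩

/-- Base change of the module of differentials to the residue field. -/
lemma exists_equiv {k B : Type} [Field k] [CommRing B] [Algebra k B] (P : Ideal B) [P.IsPrime] :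
    ∃ E : P.ResidueField ⊗[B] Ω[B⁄k] ≃ₗ[P.ResidueField]
      P.ResidueField ⊗[Localization.AtPrime P] Ω[Localization.AtPrime P⁄k],
      ∀ b : B, E (1 ⊗ₜ[B] D k B b) =
        1 ⊗ₜ[Localization.AtPrime P] D k _ (algebraMap B (Localization.AtPrime P) b) := by
  let κ := P.ResidueField
  have hfe : Algebra.FormallyEtale B (Localization.AtPrime P) :=
    Algebra.FormallyEtale.of_isLocalization P.primeCompl
  let e1 := (AlgebraTensorModule.cancelBaseChange B (Localization.AtPrime P) κ κ Ω[B⁄k]).symm
  let e2 := tensorKaehlerEquivOfFormallyEtale k B (Localization.AtPrime P)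
  let e3 : κ ⊗[Localization.AtPrime P] (Localization.AtPrime P ⊗[B] Ω[B⁄k]) ≃ₗ[κ]
      κ ⊗[Localization.AtPrime P] Ω[Localization.AtPrime P⁄k] :=
    AlgebraTensorModule.congr (LinearEquiv.refl κ κ) e2
  refine ⟨e1.trans e3, fun b => ?_⟩
  change e3 (e1 (1 ⊗ₜ[B] D k B b)) = _
  rw [AlgebraTensorModule.cancelBaseChange_symm_tmul]
  change (1 : κ) ⊗ₜ[Localization.AtPrime P] e2 (1 ⊗ₜ[B] D k B b) = _
  congr 1
  exact (LinearEquiv.symm_apply_eq _).1
    (tensorKaehlerEquivOfFormallyEtale_symm_D_algebraMap k B (Localization.AtPrime P) b) |>.symm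

/-- **Adapted coordinates.** Let `B` be smooth and `A` a smooth quotient of `B`. Near every point
of the closed subscheme there are étale coordinates, some of which generate its ideal. -/
theorem exists_adapted {k B A : Type} [Field k] [CommRing B] [Algebra k B] [Algebra.Smooth k B]
    [CommRing A] [Algebra k A] [Algebra B A] [IsScalarTower k B A] [Algebra.FormallySmooth k A]
    (hs : Function.Surjective (algebraMap B A)) (P : Ideal B) [P.IsPrime]
    (hP : RingHom.ker (algebraMap B A) ≤ P) :
    ∃ (ι : Type) (_ : Finite ι) (a : ι → B) (s : Set ι) (g : B), g ∉ P ∧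
      (∀ i ∈ s, a i ∈ RingHom.ker (algebraMap B A)) ∧
      ((MvPolynomial.aeval (fun i => algebraMap B (Localization.Away g) (a i)) :
        MvPolynomial ι k →ₐ[k] Localization.Away g) :
        MvPolynomial ι k →+* Localization.Away g).Etale ∧
      ∀ j ∈ RingHom.ker (algebraMap B A), g * j ∈ Ideal.span (a '' s) := by
  classical
  set J := RingHom.ker (algebraMap B A) with hJ
  let κ := P.ResidueField
  have hN : IsNoetherianRing B := Algebra.FiniteType.isNoetherianRing k B
  obtain ⟨l, hl⟩ := (Algebra.FormallySmooth.iff_split_injection (R := k) hs).1 inferInstance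
  let Λ : Ω[B⁄k] →ₗ[B] J.Cotangent := l ∘ₗ (TensorProduct.mk B A Ω[B⁄k] 1)
  have hΛ : ∀ (x : B) (hx : x ∈ J), Λ (D k B x) = J.toCotangent ⟨x, hx⟩ := by
    intro x hx
    have h1 := congrArg (fun f => f (J.toCotangent ⟨x, hx⟩)) hl
    exact h1
  let ΛK : κ ⊗[B] Ω[B⁄k] →ₗ[κ] κ ⊗[B] J.Cotangent := AlgebraTensorModule.lTensor κ κ Λ
  have hΛK : ∀ (x : B) (hx : x ∈ J), ΛK (1 ⊗ₜ D k B x) = 1 ⊗ₜ J.toCotangent ⟨x, hx⟩ := by
    intro x hx
    change (1 : κ) ⊗ₜ[B] Λ (D k B x) = _
    rw [hΛ x hx]
  let v : J → κ ⊗[B] J.Cotangent := fun j => 1 ⊗ₜ J.toCotangent j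
  have hv : Submodule.span κ (Set.range v) = ⊤ := by
    rw [eq_top_iff]
    rintro z -
    induction z using TensorProduct.induction_on with
    | zero => exact Submodule.zero_mem _
    | tmul c n =>
      obtain ⟨j, rfl⟩ := J.toCotangent_surjective n
      have h5 : c ⊗ₜ[B] J.toCotangent j = c • v j := by
        change _ = c • ((1 : κ) ⊗ₜ[B] J.toCotangent j)
        rw [TensorProduct.smul_tmul', smul_eq_mul, mul_one]
      rw [h5]
      exact Submodule.smul_mem _ _ (Submodule.subset_span ⟨j, rfl⟩)
    | add u v hu hv => exact Submodule.add_mem _ hu hv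
  obtain ⟨ι0, a0, ha0, hsp0, hli0⟩ := exists_linearIndependent' κ v
  let u : B → κ ⊗[B] Ω[B⁄k] := fun b => 1 ⊗ₜ D k B b
  have hu : Submodule.span κ (Set.range u) = ⊤ := by
    rw [eq_top_iff]
    rintro z -
    induction z using TensorProduct.induction_on with
    | zero => exact Submodule.zero_mem _
    | tmul c n =>
      have hn : n ∈ Submodule.span B (Set.range (D k B)) := by
        rw [KaehlerDifferential.span_range_derivation]; trivial
      induction hn using Submodule.span_induction with
      | mem n hn =>
        obtain ⟨b, rfl⟩ := hn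
        have h5 : c ⊗ₜ[B] D k B b = c • u b := by
          change _ = c • ((1 : κ) ⊗ₜ[B] D k B b)
          rw [TensorProduct.smul_tmul', smul_eq_mul, mul_one]
        rw [h5]
        exact Submodule.smul_mem _ _ (Submodule.subset_span ⟨b, rfl⟩)
      | zero => rw [TensorProduct.tmul_zero]; exact Submodule.zero_mem _
      | add x y _ _ hx hy => rw [TensorProduct.tmul_add]; exact Submodule.add_mem _ hx hy
      | smul r x _ hx =>
        have h5 : c ⊗ₜ[B] (r • x) = (algebraMap B κ r) • (c ⊗ₜ[B] x) := by
          rw [TensorProduct.tmul_smul, algebraMap_smul]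
        rw [h5]
        exact Submodule.smul_mem _ _ hx
    | add x y hx hy => exact Submodule.add_mem _ hx hy
  let s0 : Set B := Set.range fun i => (a0 i : B)
  have hs0 : LinearIndepOn κ u s0 := by
    have h1 : LinearIndependent κ (fun i : ι0 => u (a0 i)) := by
      refine LinearIndependent.of_comp ΛK ?_
      have h2 : (ΛK ∘ fun i : ι0 => u (a0 i)) = v ∘ a0 := by
        funext i
        exact hΛK _ (a0 i).2
      rw [h2]
      exact hli0
    have hinj : Function.Injective fun i : ι0 => (a0 i : B) := Subtype.val_injective.comp ha0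
    exact (linearIndepOn_range_iff hinj u).2 h1
  obtain ⟨t, -, hst, hspt, hlit⟩ := exists_linearIndepOn_extension hs0 (Set.subset_univ s0)
  have hspt' : Submodule.span κ (Set.range fun i : t => u i) = ⊤ := by
    rw [eq_top_iff, ← hu, Submodule.span_le]
    rw [Set.image_univ] at hspt
    have h1 : (Set.range fun i : t => u i) = u '' t := by
      ext z
      constructor
      · rintro ⟨i, rfl⟩; exact ⟨i, i.2, rfl⟩
      · rintro ⟨b, hb, rfl⟩; exact ⟨⟨b, hb⟩, rfl⟩
    rw [h1]
    exact hspt
  obtain ⟨E, hE⟩ := exists_equiv (k := k) P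
  have hfs : Algebra.FormallySmooth k (Localization.AtPrime P) := by
    have _ : Algebra.FormallySmooth B (Localization.AtPrime P) :=
      Algebra.FormallySmooth.of_isLocalization P.primeCompl
    exact Algebra.FormallySmooth.comp k B (Localization.AtPrime P)
  have hfin : Module.Finite (Localization.AtPrime P) Ω[Localization.AtPrime P⁄k] := by
    have _ : Algebra.EssFiniteType k (Localization.AtPrime P) := by
      have _ : Algebra.EssFiniteType B (Localization.AtPrime P) :=
        Algebra.EssFiniteType.of_isLocalization _ P.primeCompl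
      exact Algebra.EssFiniteType.comp k B (Localization.AtPrime P)
    infer_instance
  have hfp : Module.FinitePresentation (Localization.AtPrime P) Ω[Localization.AtPrime P⁄k] :=
    Module.finitePresentation_of_projective _ _
  let w : t → Ω[Localization.AtPrime P⁄k] := fun i =>
    D k _ (algebraMap B (Localization.AtPrime P) i)
  have hcomp : (TensorProduct.mk (Localization.AtPrime P) κ Ω[Localization.AtPrime P⁄k] 1 ∘ w) =
      E ∘ fun i : t => u i := by
    funext i
    exact (hE i).symm
  obtain ⟨b, hb⟩ := Module.exists_basis_of_basis_baseChange w (by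
      have h1 : LinearIndependent κ (E ∘ fun i : t => u i) :=
        LinearIndependent.map' hlit E.toLinearMap E.ker
      rw [← hcomp] at h1
      exact h1) (by
      have h1 : Submodule.span κ (Set.range (E ∘ fun i : t => u i)) = ⊤ := by
        rw [Set.range_comp]
        have h2 := Submodule.map_span E.toLinearMap (Set.range fun i : t => u i)
        rw [hspt'] at h2
        rw [Submodule.map_top, LinearEquiv.range] at h2
        exact h2.symm
      rw [← hcomp] at h1
      exact h1)
    (Module.Flat.rTensor_preserves_injective_linearMap _ Subtype.val_injective)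
  have hft : Finite t := Module.Finite.finite_basis b
  obtain ⟨g, hg, het⟩ := exists_etale (fun i : t => (i : B)) P b hb
  obtain ⟨g', hg', hgen⟩ := exists_smul_mem P J hP a0 (by rw [← hv, ← hsp0]; rfl)
  refine ⟨t, hft, fun i => (i : B), {i | (i : B) ∈ s0}, g * g', fun h => ?_, ?_,
    etale_mul _ _ _ het, ?_⟩
  · exact ((inferInstance : P.IsPrime).mem_or_mem h).elim hg hg'
  · rintro i ⟨j, hj⟩
    change (i : B) ∈ J
    rw [← hj]
    exact (a0 j).2
  · intro j hj
    have h1 : (fun i : t => (i : B)) '' {i | (i : B) ∈ s0} = Set.range fun i => (a0 i : B) := by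
      ext z
      constructor
      · rintro ⟨i, hi, rfl⟩
        exact hi
      · intro hz
        exact ⟨⟨z, hst hz⟩, hz, rfl⟩
    rw [h1, mul_assoc]
    exact Ideal.mul_mem_left _ _ (hgen j hj)

end Pool.Agent.U197.SF
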