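import Pool.Agent.U197.SF.A2
import Pool.Agent.H920R2.We2

/-!
The powers of the ideal of a smooth closed subscheme of a smooth affine scheme are a regular
weighted centre.
-/

set_option autoImplicit false

open Pool.Agent.H920R2

namespace Pool.Agent.U197.SF

lemma etale_reindex {k T ι κ : Type} [Field k] [CommRing T] [Algebra k T] (e : κ ≃ ι) (x : ι → T)
    (h : ((MvPolynomial.aeval x : MvPolynomial ι k →ₐ[k] T) : MvPolynomial ι k →+* T).Etale) :
    ((MvPolynomial.aeval (fun i => x (e i)) : MvPolynomial κ k →ₐ[k] T) :
      MvPolynomial κ k →+* T).Etale := by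
  have h1 : ((MvPolynomial.renameEquiv k e : MvPolynomial κ k ≃ₐ[k] MvPolynomial ι k) :
      MvPolynomial κ k →+* MvPolynomial ι k).Etale :=
    RingHom.Etale.of_bijective (MvPolynomial.renameEquiv k e).bijective
  have h2 := RingHom.Etale.stableUnderComposition _ _ h1 h
  have h3 : ((MvPolynomial.aeval x : MvPolynomial ι k →ₐ[k] T) : MvPolynomial ι k →+* T).comp
      ((MvPolynomial.renameEquiv k e : MvPolynomial κ k ≃ₐ[k] MvPolynomial ι k) :
      MvPolynomial κ k →+* MvPolynomial ι k) =
      ((MvPolynomial.aeval (fun i => x (e i)) : MvPolynomial κ k →ₐ[k] T) :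
      MvPolynomial κ k →+* T) := by
    apply MvPolynomial.ringHom_ext
    · intro r
      change MvPolynomial.aeval x (MvPolynomial.rename e (MvPolynomial.C r)) =
        MvPolynomial.aeval _ (MvPolynomial.C r)
      rw [MvPolynomial.rename_C, MvPolynomial.aeval_C, MvPolynomial.aeval_C]
    · intro i
      change MvPolynomial.aeval x (MvPolynomial.rename e (MvPolynomial.X i)) =
        MvPolynomial.aeval _ (MvPolynomial.X i)
      rw [MvPolynomial.rename_X, MvPolynomial.aeval_X, MvPolynomial.aeval_X]
  rw [← h3]
  exact h2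

/-- The powers of an ideal which is generated by some of the coordinates. -/
lemma span_pow_eq {T : Type} [CommRing T] {n : ℕ} (x : Fin n → T) (w : Fin n → ℕ)
    (hw : ∀ i, w i ≤ 1) (K : Ideal T) (hK : K = Ideal.span {y | ∃ i, w i = 1 ∧ y = x i}) (d : ℕ) :
    K ^ d = Ideal.span {y | ∃ α : Fin n → ℕ, d ≤ ∑ i, α i * w i ∧ y = ∏ i, x i ^ α i} := by
  classical
  apply le_antisymm
  · induction d with
    | zero =>
      have h1 : (1 : T) ∈ Ideal.span {y | ∃ α : Fin n → ℕ, 0 ≤ ∑ i, α i * w i ∧
          y = ∏ i, x i ^ α i} := Ideal.subset_span ⟨0, Nat.zero_le _, by simp⟩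
      rw [(Ideal.eq_top_iff_one _).2 h1]
      exact le_top
    | succ d ih =>
      rw [pow_succ]
      refine (Ideal.mul_mono ih hK.le).trans ?_
      rw [Ideal.span_mul_span', Ideal.span_le]
      rintro _ ⟨_, ⟨α, hα, rfl⟩, _, ⟨j, hj, rfl⟩, rfl⟩
      refine Ideal.subset_span ⟨α + Pi.single j 1, ?_, ?_⟩
      · have h1 : ∑ i, (α + Pi.single j 1 : Fin n → ℕ) i * w i = ∑ i, α i * w i + w j := by
          simp only [Pi.add_apply, add_mul, Finset.sum_add_distrib]
          congr 1
          rw [Finset.sum_eq_single j]
          · rw [Pi.single_eq_same, one_mul]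
          · intro i _ hij
            rw [Pi.single_eq_of_ne hij, zero_mul]
          · intro h
            exact absurd (Finset.mem_univ j) h
        rw [h1, hj]
        omega
      · simp only [Pi.add_apply, pow_add, Finset.prod_mul_distrib]
        congr 1
        rw [Finset.prod_eq_single j]
        · rw [Pi.single_eq_same, pow_one]
        · intro i _ hij
          rw [Pi.single_eq_of_ne hij, pow_zero]
        · intro h
          exact absurd (Finset.mem_univ j) h
  · rw [Ideal.span_le]
    rintro _ ⟨α, hα, rfl⟩
    refine Ideal.pow_le_pow_right hα ?_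
    rw [← Finset.prod_pow_eq_pow_sum]
    refine Ideal.prod_mem_prod fun i _ => ?_
    rcases Nat.le_one_iff_eq_zero_or_eq_one.1 (hw i) with h | h
    · rw [h, mul_zero, pow_zero, Ideal.one_eq_top]
      trivial
    · rw [h, mul_one]
      refine Ideal.pow_mem_pow ?_ _
      rw [hK]
      exact Ideal.subset_span ⟨i, h, rfl⟩

/-- The powers of the ideal of a smooth closed subscheme of a smooth affine scheme are a regular
weighted centre. -/
theorem centre_pow {k B : Type} [Field k] [CommRing B] [Algebra k B] [Algebra.Smooth k B]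
    (J : Ideal B) (hJ : Algebra.FormallySmooth k (B ⧸ J)) :
    RegularWeightedCentre k (fun d => J ^ d) where
  zero := by rw [pow_zero, Ideal.one_eq_top]
  anti a b h := Ideal.pow_le_pow_right h
  mul a b := (pow_add J a b).ge
  coord := by
    classical
    intro P hP hPJ
    rw [pow_one] at hPJ
    have hs : Function.Surjective (algebraMap B (B ⧸ J)) := Ideal.Quotient.mk_surjective
    have hker : RingHom.ker (algebraMap B (B ⧸ J)) = J := Ideal.mk_ker
    obtain ⟨ι, hι, a, s, g, hg, hs1, het, hgen⟩ := exists_adapted (k := k) hs P (by rw [hker]; exact hPJ)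
    rw [hker] at hs1 hgen
    let e : Fin (Nat.card ι) ≃ ι := (Finite.equivFin ι).symm
    let w : Fin (Nat.card ι) → ℕ := fun i => if e i ∈ s then 1 else 0
    refine ⟨g, Nat.card ι, fun i => a (e i), w, hg,
      etale_reindex e (fun i => algebraMap B (Localization.Away g) (a i)) het, fun d => ?_⟩
    rw [Ideal.map_pow]
    refine span_pow_eq _ w (fun i => ?_) _ ?_ d
    · change (if e i ∈ s then 1 else 0) ≤ 1
      split_ifs <;> omega
    · apply le_antisymm
      · rw [Ideal.map_le_iff_le_comap]
        intro j hj
        rw [Ideal.mem_comap]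
        have hu : IsUnit (algebraMap B (Localization.Away g) g) :=
          IsLocalization.Away.algebraMap_isUnit g
        have h1 : algebraMap B (Localization.Away g) (g * j) ∈
            Ideal.map (algebraMap B (Localization.Away g)) (Ideal.span (a '' s)) :=
          Ideal.mem_map_of_mem _ (hgen j hj)
        rw [map_mul, Ideal.unit_mul_mem_iff_mem _ hu, Ideal.map_span] at h1
        refine Ideal.span_mono ?_ h1
        rintro _ ⟨_, ⟨i, hi, rfl⟩, rfl⟩
        refine ⟨e.symm i, ?_, ?_⟩
        · change (if e (e.symm i) ∈ s then 1 else 0) = 1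
          rw [Equiv.apply_symm_apply, if_pos hi]
        · change _ = algebraMap B (Localization.Away g) (a (e (e.symm i)))
          rw [Equiv.apply_symm_apply]
      · rw [Ideal.span_le]
        rintro _ ⟨i, hi, rfl⟩
        refine Ideal.mem_map_of_mem _ (hs1 _ ?_)
        by_contra h
        change (if e i ∈ s then 1 else 0) = 1 at hi
        rw [if_neg h] at hi
        omega

end Pool.Agent.U197.SF
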