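import Pool.Agent.U197.SF.A3
import Pool.Agent.U197.PQ.D8

/-!
Automorphisms and derivations with a nondegenerate leading form along a smooth closed subscheme.
-/

set_option autoImplicit false
set_option linter.unusedSectionVars false

open Pool.Agent.H920R2 Pool.Agent.H519R3.RS Pool.Agent.U197.PQ

namespace Pool.Agent.U197.SF

section pow

variable {B : Type} [CommRing B]

lemma isFilt_pow (J : Ideal B) : IsFilt (fun d => J ^ d) where
  zero := by rw [pow_zero, Ideal.one_eq_top]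
  anti _ _ h := Ideal.pow_le_pow_right h
  mul a b := (pow_add J a b).ge

variable (δ : B → B) (J : Ideal B)

/-- The map `δ` raises the order along the subscheme by `l`. -/
lemma raise_pow (hadd : ∀ a b, δ (a + b) = δ a + δ b)
    (hmul : ∀ a b, ∃ c, δ (a * b) = a * δ b + b * δ a + c * (δ a * δ b)) {l : ℕ}
    (h1 : ∀ b, δ b ∈ J ^ l) (h2 : ∀ b ∈ J, δ b ∈ J ^ (l + 1)) (d : ℕ) (a : B) (ha : a ∈ J ^ d) :
    δ a ∈ J ^ (d + l) := by
  induction d generalizing a with
  | zero =>
    rw [zero_add]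
    exact h1 a
  | succ d ih =>
    rw [pow_succ] at ha
    refine Submodule.mul_induction_on ha ?_ ?_
    · intro x hx y hy
      obtain ⟨c, hc⟩ := hmul x y
      rw [hc]
      refine Ideal.add_mem _ (Ideal.add_mem _ ?_ ?_) (Ideal.mul_mem_left _ _ ?_)
      · have h3 := Ideal.mul_mem_mul hx (h2 y hy)
        rw [← pow_add] at h3
        rwa [show d + 1 + l = d + (l + 1) by ring]
      · have h3 := Ideal.mul_mem_mul hy (ih x hx)
        rw [← pow_succ'] at h3
        rwa [show d + 1 + l = d + l + 1 by ring]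
      · have h3 := Ideal.mul_mem_mul (ih x hx) (h2 y hy)
        rw [← pow_add] at h3
        exact Ideal.pow_le_pow_right (by omega) h3
    · intro x y hx hy
      rw [hadd]
      exact Ideal.add_mem _ hx hy

/-- The leading form of `δ` has no zeros outside the zero section of the normal cone. -/
lemma lead_pow {l N : ℕ}
    (h3 : J ^ N ≤ J ^ (N + 1) ⊔ (J ^ (N - l) * Ideal.span (Set.range δ) ⊔
      J ^ (N - (l + 1)) * Ideal.span (δ '' J))) (d : ℕ) (hd : 1 ≤ d) (a : B) (ha : a ∈ J ^ d) :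
    ∃ M : ℕ, a ^ M ∈ leadI δ (fun d => J ^ d) l (M * d) := by
  have key : J ^ N ≤ leadI δ (fun d => J ^ d) l N := by
    refine h3.trans (sup_le le_sup_left (sup_le ?_ ?_))
    · rw [Ideal.mul_le]
      intro b hb y hy
      induction hy using Submodule.span_induction with
      | mem y hy =>
        obtain ⟨c, rfl⟩ := hy
        refine Ideal.mem_sup_right (Ideal.subset_span ⟨0, c, ?_, b, ?_, rfl⟩)
        · change c ∈ J ^ 0
          rw [pow_zero, Ideal.one_eq_top]; trivial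
        · rw [zero_add]; exact hb
      | zero => rw [mul_zero]; exact Ideal.zero_mem _
      | add x y _ _ hx hy => rw [mul_add]; exact Ideal.add_mem _ hx hy
      | smul r x _ hx => rw [smul_eq_mul, mul_left_comm]; exact Ideal.mul_mem_left _ _ hx
    · rw [Ideal.mul_le]
      intro b hb y hy
      induction hy using Submodule.span_induction with
      | mem y hy =>
        obtain ⟨c, hc, rfl⟩ := hy
        refine Ideal.mem_sup_right (Ideal.subset_span ⟨1, c, ?_, b, ?_, rfl⟩)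
        · change c ∈ J ^ 1
          rw [pow_one]; exact hc
        · rw [add_comm 1 l]; exact hb
      | zero => rw [mul_zero]; exact Ideal.zero_mem _
      | add x y _ _ hx hy => rw [mul_add]; exact Ideal.add_mem _ hx hy
      | smul r x _ hx => rw [smul_eq_mul, mul_left_comm]; exact Ideal.mul_mem_left _ _ hx
  have key2 : ∀ m, leadI δ (fun d => J ^ d) l N * J ^ m ≤ leadI δ (fun d => J ^ d) l (N + m) := by
    intro m
    rw [Ideal.mul_le]
    intro x hx z hz
    obtain ⟨x1, hx1, x2, hx2, rfl⟩ := Submodule.mem_sup.1 hx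
    rw [add_mul]
    refine Ideal.add_mem _ (Ideal.mem_sup_left ?_) ?_
    · have h4 := Ideal.mul_mem_mul hx1 hz
      rw [← pow_add] at h4
      change x1 * z ∈ J ^ (N + m + 1)
      rwa [show N + m + 1 = N + 1 + m by ring]
    · clear hx
      induction hx2 using Submodule.span_induction with
      | mem y hy =>
        obtain ⟨e, c, hc, b, hb, rfl⟩ := hy
        refine Ideal.mem_sup_right (Ideal.subset_span ⟨e, c, hc, b * z, ?_, by ring⟩)
        have h4 := Ideal.mul_mem_mul hb hz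
        rw [← pow_add] at h4
        exact Ideal.pow_le_pow_right (by omega) h4
      | zero => rw [zero_mul]; exact Ideal.zero_mem _
      | add x y _ _ hx hy => rw [add_mul]; exact Ideal.add_mem _ hx hy
      | smul r x _ hx => rw [smul_eq_mul, mul_assoc]; exact Ideal.mul_mem_left _ _ hx
  refine ⟨N, ?_⟩
  have h4 : a ^ N ∈ J ^ (N + N * (d - 1)) := by
    have h5 := Ideal.pow_mem_pow ha N
    rw [← pow_mul] at h5
    rwa [show N + N * (d - 1) = d * N by
      obtain ⟨e, rfl⟩ : ∃ e, d = e + 1 := ⟨d - 1, by omega⟩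
      rw [Nat.add_sub_cancel]
      ring]
  rw [pow_add] at h4
  have h6 := key2 _ (Ideal.mul_mono_left key h4)
  rwa [show N + N * (d - 1) = N * d by
      obtain ⟨e, rfl⟩ : ∃ e, d = e + 1 := ⟨d - 1, by omega⟩
      rw [Nat.add_sub_cancel]
      ring] at h6

end pow

section good

variable {k B : Type} [Field k] [CommRing B] [IsDomain B] [Algebra k B]

/-- The filtration of the ring of invariants. -/
lemma good_inv_sig' {p : ℕ} (hp : p.Prime) (hpk : (p : k) = 0) (σ : B ≃ₐ[k] B)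
    (hσ : ∀ b, σ^[p] b = b) {F : ℕ → Ideal B} (hF : IsFilt F) (hG : Good k hF) (hne : F 1 ≠ ⊥)
    {l : ℕ} (hl : 0 < l) (hdiv : ∀ d, ∀ a ∈ F d, σ a - a ∈ F (d + l))
    (hfix : ∀ P : Ideal B, P.IsPrime → (∀ a, σ a - a ∈ P) → F 1 ≤ P)
    (hlead : ∀ d, 1 ≤ d → ∀ a ∈ F d, ∃ N : ℕ, a ^ N ∈ leadI (fun c => σ c - c) F l (N * d))
    (C : Subalgebra k B) (hC : ∀ b, b ∈ C ↔ σ b = b) :
    Good k (isFilt_restr hF C) ∧ restr F C 1 ≠ ⊥ := by
  refine ⟨good_fix hp hpk σ hσ hF hG hl hdiv hfix hlead C.val Subtype.val_injective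
    (fun c => ⟨fun h => ⟨⟨c, (hC c).2 h⟩, rfl⟩, ?_⟩) _ fun d c' => Iff.rfl, ?_⟩
  · rintro ⟨c', rfl⟩
    exact (hC _).1 c'.2
  · obtain ⟨a, ha, ha0⟩ := Submodule.exists_mem_ne_zero_of_ne_bot hne
    have hnF : H920R2.nrm σ p a ∈ F 1 := by
      obtain ⟨m, rfl⟩ : ∃ m, p = m + 1 := ⟨p - 1, by have := hp.pos; omega⟩
      rw [nrm_succ']
      exact Ideal.mul_mem_left _ _ ha
    have hn0 : H920R2.nrm σ p a ≠ 0 := by
      unfold H920R2.nrm
      rw [Finset.prod_ne_zero_iff]
      intro i _ h6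
      have h7 : ∀ (i : ℕ) (x : B), σ^[i] x = 0 → x = 0 := by
        intro i
        induction i with
        | zero => intro x hx; exact hx
        | succ i ih =>
          intro x hx
          rw [Function.iterate_succ_apply] at hx
          exact (map_eq_zero_iff σ σ.injective).1 (ih _ hx)
      exact ha0 (h7 i a h6)
    have hmem : H920R2.nrm σ p a ∈ C := (hC _).2 (map_nrm σ p hσ a)
    intro hbot
    have h6 : (⟨H920R2.nrm σ p a, hmem⟩ : C) ∈ restr F C 1 := hnF
    rw [hbot, Ideal.mem_bot] at h6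
    exact hn0 (congrArg Subtype.val h6)

/-- The filtration of the ring of constants of a `p`-closed derivation. -/
lemma good_inv_der' {p : ℕ} (hp : p.Prime) (hpk : (p : k) = 0) (D : Derivation k B B)
    (φ : FractionRing B) (hφ : ∀ b, algebraMap B (FractionRing B) (D^[p] b) =
      φ * algebraMap B (FractionRing B) (D b))
    {F : ℕ → Ideal B} (hF : IsFilt F) (hG : Good k hF) (hne : F 1 ≠ ⊥) {l : ℕ}
    (hdiv : ∀ d, ∀ a ∈ F d, D a ∈ F (d + l))
    (hfix : ∀ P : Ideal B, P.IsPrime → (∀ a, D a ∈ P) → F 1 ≤ P)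
    (hlead : ∀ d, 1 ≤ d → ∀ a ∈ F d, ∃ N : ℕ, a ^ N ∈ leadI (fun c => D c) F l (N * d))
    (C : Subalgebra k B) (hC : ∀ b, b ∈ C ↔ D b = 0) :
    Good k (isFilt_restr hF C) ∧ restr F C 1 ≠ ⊥ := by
  refine ⟨good_ker hp hpk D φ hφ hF hG hdiv hfix hlead
    C.val Subtype.val_injective (fun c => ⟨fun h => ⟨⟨c, (hC c).2 h⟩, rfl⟩, ?_⟩) _
      fun d c' => Iff.rfl, ?_⟩
  · rintro ⟨c', rfl⟩
    exact (hC _).1 c'.2
  · obtain ⟨a, ha, ha0⟩ := Submodule.exists_mem_ne_zero_of_ne_bot hne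
    have hpB : ((p : ℕ) : B) = 0 := by rw [← map_natCast (algebraMap k B), hpk, map_zero]
    have hmem : a ^ p ∈ C := by
      rw [hC, Derivation.leibniz_pow, nsmul_eq_mul, hpB, zero_mul]
    intro hbot
    have h6 : (⟨a ^ p, hmem⟩ : C) ∈ restr F C 1 := by
      change a ^ p ∈ F 1
      exact Ideal.pow_mem_of_mem _ ha p hp.pos
    rw [hbot, Ideal.mem_bot] at h6
    exact pow_ne_zero p ha0 (congrArg Subtype.val h6)

/-- The leading form of the map `δ` along the subscheme of the ideal `J` has order `l` and no zeros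
outside the zero section. -/
def LeadCond {B : Type} [CommRing B] (δ : B → B) (J : Ideal B) (l : ℕ) : Prop :=
  (∀ b, δ b ∈ J ^ l) ∧ (∀ b ∈ J, δ b ∈ J ^ (l + 1)) ∧
    ∃ N, J ^ N ≤ J ^ (N + 1) ⊔ (J ^ (N - l) * Ideal.span (Set.range δ) ⊔
      J ^ (N - (l + 1)) * Ideal.span (δ '' J))

lemma good_pow_sig {p : ℕ} (hp : p.Prime) (hpk : (p : k) = 0) [Algebra.Smooth k B]
    (σ : B ≃ₐ[k] B) (hσ : ∀ b, σ^[p] b = b) (hne : ∃ b, σ b ≠ b) (J : Ideal B)
    (hJ : J = (Ideal.span (Set.range fun b => σ b - b)).radical)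
    (hsm : Algebra.FormallySmooth k (B ⧸ J)) {l : ℕ} (hl : 0 < l)
    (h : LeadCond (fun b => σ b - b) J l) (C : Subalgebra k B) (hC : ∀ b, b ∈ C ↔ σ b = b) :
    Good k (isFilt_restr (isFilt_pow J) C) ∧ restr (fun d => J ^ d) C 1 ≠ ⊥ := by
  obtain ⟨h1, h2, N, h3⟩ := h
  have hmemJ : ∀ b, σ b - b ∈ J := by
    intro b
    rw [hJ]
    exact Ideal.le_radical (Ideal.subset_span ⟨b, rfl⟩)
  refine good_inv_sig' hp hpk σ hσ (isFilt_pow J)
    (good_of_centre (isFilt_pow J) (centre_pow J hsm)) ?_ hl ?_ ?_ ?_ C hC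
  · rw [pow_one]
    rintro hbot
    obtain ⟨b, hb⟩ := hne
    have h4 := hmemJ b
    rw [hbot, Ideal.mem_bot] at h4
    exact hb (sub_eq_zero.1 h4)
  · intro d a ha
    refine raise_pow (fun b => σ b - b) J (fun a b => ?_) (fun a b => ⟨1, ?_⟩) h1 h2 d a ha
    · rw [map_add]; ring
    · rw [map_mul]; ring
  · intro P hP h4
    rw [pow_one, hJ, hP.isRadical.radical_le_iff, Ideal.span_le]
    rintro _ ⟨b, rfl⟩
    exact h4 b
  · intro d hd a ha
    exact lead_pow (fun b => σ b - b) J h3 d hd a ha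

lemma good_pow_der {p : ℕ} (hp : p.Prime) (hpk : (p : k) = 0) [Algebra.Smooth k B]
    (D : Derivation k B B)
    (φ : FractionRing B) (hφ : ∀ b, algebraMap B (FractionRing B) (D^[p] b) =
      φ * algebraMap B (FractionRing B) (D b)) (hne : ∃ b, D b ≠ 0) (J : Ideal B)
    (hJ : J = (Ideal.span (Set.range fun b => D b)).radical)
    (hsm : Algebra.FormallySmooth k (B ⧸ J)) {l : ℕ}
    (h : LeadCond (fun b => D b) J l) (C : Subalgebra k B) (hC : ∀ b, b ∈ C ↔ D b = 0) :
    Good k (isFilt_restr (isFilt_pow J) C) ∧ restr (fun d => J ^ d) C 1 ≠ ⊥ := by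
  obtain ⟨h1, h2, N, h3⟩ := h
  have hmemJ : ∀ b, D b ∈ J := by
    intro b
    rw [hJ]
    exact Ideal.le_radical (Ideal.subset_span ⟨b, rfl⟩)
  refine good_inv_der' hp hpk D φ hφ (isFilt_pow J)
    (good_of_centre (isFilt_pow J) (centre_pow J hsm)) (l := l) ?_ ?_ ?_ ?_ C hC
  · rw [pow_one]
    rintro hbot
    obtain ⟨b, hb⟩ := hne
    have h4 := hmemJ b
    rw [hbot, Ideal.mem_bot] at h4
    exact hb h4
  · intro d a ha
    refine raise_pow (fun b => D b) J (fun a b => map_add D a b) (fun a b => ⟨0, ?_⟩) h1 h2 d a ha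
    rw [Derivation.leibniz, smul_eq_mul, smul_eq_mul]; ring
  · intro P hP h4
    rw [pow_one, hJ, hP.isRadical.radical_le_iff, Ideal.span_le]
    rintro _ ⟨b, rfl⟩
    exact h4 b
  · intro d hd a ha
    exact lead_pow (fun b => D b) J h3 d hd a ha

end good

end Pool.Agent.U197.SF
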