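import Pool.Agent.U197.PQ.A
import Pool.Agent.U197.PQ.B
import Pool.Agent.U197.PQ.C

/-!
The resolution of `Proj` of a ring of invariants of a graded domain.
-/

set_option autoImplicit false
set_option linter.unusedSectionVars false

open AlgebraicGeometry CategoryTheory
open Pool.Agent.H920R2 Pool.Agent.H519R3.RS Pool.Agent.N98.PJ Pool.Agent.U197.PQ

namespace Pool.Agent.U197.SF

section graded

variable {k S : Type} [Field k] [CommRing S] [Algebra k S] (𝒜 : ℕ → Submodule k S)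
  [GradedAlgebra 𝒜] (C : Subalgebra k S)

/-- The homogeneous elements of degree `d` of a subalgebra. -/
def piece (d : ℕ) : Submodule k C := (𝒜 d).comap C.val.toLinearMap

lemma mem_piece {d : ℕ} {f : C} : f ∈ piece 𝒜 C d ↔ (f : S) ∈ 𝒜 d := Iff.rfl

lemma proj_mem (d : ℕ) (f : S) : GradedAlgebra.proj 𝒜 d f ∈ 𝒜 d := by
  rw [GradedAlgebra.proj_apply]
  exact SetLike.coe_mem _

lemma hc_coe (d : ℕ) (x : DirectSum ℕ fun i => piece 𝒜 C i) :
    GradedAlgebra.proj 𝒜 d ((DirectSum.coeLinearMap (piece 𝒜 C) x : C) : S) = ((x d : C) : S) := by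
  classical
  have h1 : (GradedAlgebra.proj 𝒜 d).comp (C.val.toLinearMap.comp
      (DirectSum.coeLinearMap (piece 𝒜 C))) = (C.val.toLinearMap.comp ((piece 𝒜 C d).subtype.comp
        (DirectSum.component k ℕ (fun i => piece 𝒜 C i) d))) := by
    apply DirectSum.linearMap_ext
    intro i
    ext1 y
    change GradedAlgebra.proj 𝒜 d ((DirectSum.coeLinearMap (piece 𝒜 C)
      (DirectSum.lof k ℕ (fun i => piece 𝒜 C i) i y) : C) : S) =
      (((DirectSum.lof k ℕ (fun i => piece 𝒜 C i) i y) d : C) : S)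
    rw [DirectSum.coeLinearMap_lof, GradedAlgebra.proj_apply]
    have hy : ((y : C) : S) ∈ 𝒜 i := y.2
    by_cases h : i = d
    · subst h
      rw [DirectSum.lof_eq_of, DirectSum.of_eq_same, DirectSum.decompose_of_mem_same 𝒜 hy]
    · rw [DirectSum.lof_eq_of, DirectSum.of_eq_of_ne _ _ _ (Ne.symm h),
        DirectSum.decompose_of_mem_ne 𝒜 hy h]
      rfl
  exact congrArg (fun f => f x) h1

lemma coe_inj : Function.Injective (DirectSum.coeLinearMap (piece 𝒜 C)) := by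
  classical
  intro x y hxy
  refine DFinsupp.ext fun d => ?_
  apply Subtype.ext
  apply Subtype.ext
  rw [← hc_coe, ← hc_coe, hxy]

/-- The decomposition into homogeneous components. -/
noncomputable def dec (hC : ∀ f ∈ C, ∀ d, GradedAlgebra.proj 𝒜 d f ∈ C) (f : C) :
    DirectSum ℕ fun i => piece 𝒜 C i :=
  open Classical in
  ∑ d ∈ (DirectSum.decompose 𝒜 (f : S)).support,
    DirectSum.lof k ℕ (fun i => piece 𝒜 C i) d
      ⟨⟨GradedAlgebra.proj 𝒜 d (f : S), hC _ f.2 d⟩, proj_mem 𝒜 d f⟩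

lemma coe_dec (hC : ∀ f ∈ C, ∀ d, GradedAlgebra.proj 𝒜 d f ∈ C) (f : C) :
    DirectSum.coeLinearMap (piece 𝒜 C) (dec 𝒜 C hC f) = f := by
  classical
  unfold dec
  rw [map_sum]
  apply Subtype.ext
  have h1 : ∀ s : Finset ℕ, ((∑ d ∈ s, DirectSum.coeLinearMap (piece 𝒜 C)
      (DirectSum.lof k ℕ (fun i => piece 𝒜 C i) d
        ⟨⟨GradedAlgebra.proj 𝒜 d (f : S), hC _ f.2 d⟩, proj_mem 𝒜 d f⟩) : C) : S) =
      ∑ d ∈ s, GradedAlgebra.proj 𝒜 d (f : S) := by
    intro s
    change C.val (∑ d ∈ s, _) = _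
    rw [map_sum]
    refine Finset.sum_congr rfl fun d _ => ?_
    rw [DirectSum.coeLinearMap_lof]
    rfl
  rw [h1]
  exact DirectSum.sum_support_decompose 𝒜 (f : S)

/-- The grading of a subalgebra which contains the homogeneous components of its elements. -/
@[instance_reducible]
noncomputable def grd (hC : ∀ f ∈ C, ∀ d, GradedAlgebra.proj 𝒜 d f ∈ C) :
    GradedAlgebra (piece 𝒜 C) where
  one_mem := SetLike.one_mem_graded 𝒜
  mul_mem := fun _ _ _ _ ha hb => SetLike.mul_mem_graded (A := 𝒜) ha hb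
  decompose' := dec 𝒜 C hC
  left_inv := fun f => coe_dec 𝒜 C hC f
  right_inv := fun _ => coe_inj 𝒜 C (coe_dec 𝒜 C hC _)

end graded

section asm

variable {k S : Type} [Field k] [CommRing S] [IsDomain S] [Algebra k S] (𝒜 : ℕ → Submodule k S)
  [GradedAlgebra 𝒜]

/-- The embedding into the field of fractions. -/
noncomputable abbrev ev (k S : Type) [Field k] [CommRing S] [IsDomain S] [Algebra k S] :
    S →ₐ[k] FractionRing S := IsScalarTower.toAlgHom k S (FractionRing S)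

lemma ev_inj : Function.Injective (ev k S) := IsFractionRing.injective S (FractionRing S)

lemma ev_ne {s : S} (h : s ≠ 0) : ev k S s ≠ 0 := fun h0 => h (ev_inj (h0.trans (map_zero _).symm))

/-- The field of rational functions of degree zero. -/
noncomputable def L0 : IntermediateField k (FractionRing S) where
  carrier := {z | ∃ (d : ℕ) (s t : S), s ∈ 𝒜 d ∧ t ∈ 𝒜 d ∧ t ≠ 0 ∧ z = ev k S s / ev k S t}
  mul_mem' := by
    rintro x y ⟨d, s, t, hs, ht, ht0, rfl⟩ ⟨d', s', t', hs', ht', ht0', rfl⟩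
    exact ⟨d + d', s * s', t * t', SetLike.mul_mem_graded hs hs', SetLike.mul_mem_graded ht ht',
      mul_ne_zero ht0 ht0', by rw [map_mul, map_mul, div_mul_div_comm]⟩
  add_mem' := by
    rintro x y ⟨d, s, t, hs, ht, ht0, rfl⟩ ⟨d', s', t', hs', ht', ht0', rfl⟩
    refine ⟨d + d', s * t' + t * s', t * t', Submodule.add_mem _ (SetLike.mul_mem_graded hs ht')
      (SetLike.mul_mem_graded ht hs'), SetLike.mul_mem_graded ht ht', mul_ne_zero ht0 ht0', ?_⟩
    rw [map_mul, map_add, map_mul, map_mul, div_add_div _ _ (ev_ne ht0) (ev_ne ht0')]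
  algebraMap_mem' r := ⟨0, algebraMap k S r, 1, SetLike.algebraMap_mem_graded 𝒜 r,
    SetLike.one_mem_graded 𝒜, one_ne_zero, by
      rw [map_one, _root_.div_one]
      exact ((ev k S).commutes r).symm⟩
  inv_mem' := by
    rintro x ⟨d, s, t, hs, ht, ht0, rfl⟩
    by_cases hs0 : s = 0
    · subst hs0
      rw [map_zero, zero_div, inv_zero]
      exact ⟨0, 0, 1, Submodule.zero_mem _, SetLike.one_mem_graded 𝒜, one_ne_zero, by
        rw [map_zero, zero_div]⟩
    · exact ⟨d, t, s, ht, hs, hs0, by rw [inv_div]⟩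

/-- The chart of a homogeneous element of degree `D`. -/
noncomputable abbrev ch (h : S) (D : ℕ) (hh : h ∈ 𝒜 D) (h0 : h ≠ 0) :
    Subalgebra k (FractionRing S) := chG 𝒜 (ev k S) h D hh (ev_ne h0)

/-- **Resolution of quotients**, general form. -/
theorem resolution_gen {p : ℕ} (hp : p.Prime) (hpk : (p : k) = 0)
    (C : Subalgebra k S) [GradedAlgebra (piece 𝒜 C)]
    (Kf : IntermediateField k (FractionRing S)) (hKf : ∀ s, ev k S s ∈ Kf ↔ s ∈ C)
    {𝒯 : Type} [Finite 𝒯] {D : ℕ} (hD : 0 < D) (h : 𝒯 → S) (hh : ∀ a, h a ∈ 𝒜 D)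
    (h0 : ∀ a, h a ≠ 0) (hC : ∀ a, h a ∈ C)
    (hden : ∀ (d : ℕ) (t : S), t ∈ 𝒜 d → t ≠ 0 →
      ∃ (d' : ℕ) (w : S), w ∈ 𝒜 d' ∧ t * w ∈ C ∧ w ≠ 0)
    (F : ∀ a, ℕ → Ideal (ch 𝒜 (h a) D (hh a) (h0 a))) (hF : ∀ a, IsFilt (F a))
    (hglue : ∀ a b d, ∀ f ∈ F b d, ∃ (n : ℕ), ∃ g ∈ F a d,
      (g : FractionRing S) = (ev k S (h b) / ev k S (h a)) ^ n * f)
    (hproper : ∀ V : ValuationSubring (FractionRing S),
      (∀ c : k, algebraMap k (FractionRing S) c ∈ V) →
        ∃ a, ∀ x ∈ ch 𝒜 (h a) D (hh a) (h0 a), x ∈ V)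
    (hgood : ∀ a,
      Good k (isFilt_restr (hF a) (Kf.toSubalgebra.comap (ch 𝒜 (h a) D (hh a) (h0 a)).val)) ∧
      restr (F a) (Kf.toSubalgebra.comap (ch 𝒜 (h a) D (hh a) (h0 a)).val) 1 ≠ ⊥) :
    ∃ (Y : Scheme.{0}) (π : Y ⟶ Proj (piece 𝒜 C)), AlgebraicGeometry.IsIntegral Y ∧ IsProper π ∧
      AlgebraicGeometry.Smooth (π ≫ str (piece 𝒜 C)) ∧
      ∃ U : (Proj (piece 𝒜 C)).Opens, (U : Set (Proj (piece 𝒜 C))).Nonempty ∧ IsIso (π ∣_ U) := by
  classical
  obtain ⟨a0, -⟩ := hproper ⊤ fun _ => trivial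
  let M : IntermediateField k (FractionRing S) := L0 𝒜 ⊓ Kf
  let B : 𝒯 → Subalgebra k (FractionRing S) := fun a => ch 𝒜 (h a) D (hh a) (h0 a)
  let η : 𝒯 → FractionRing S := fun a => ev k S (h a) / ev k S (h a0)
  have hHne : ∀ a, ev k S (h a) ≠ 0 := fun a => ev_ne (h0 a)
  have hη0 : ∀ a, η a ≠ 0 := fun a => div_ne_zero (hHne a) (hHne a0)
  have hratio : ∀ a b, η b / η a = ev k S (h b) / ev k S (h a) := by
    intro a b
    change ev k S (h b) / ev k S (h a0) / (ev k S (h a) / ev k S (h a0)) = _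
    have h1 := hHne a
    have h2 := hHne a0
    field_simp
  have hBL : ∀ a, ∀ x ∈ B a, x ∈ L0 𝒜 := by
    rintro a x ⟨i, s, hs, rfl⟩
    refine ⟨i * D, s, h a ^ i, hs, ?_, pow_ne_zero _ (h0 a), by rw [map_pow]⟩
    have := SetLike.pow_mem_graded i (hh a)
    rwa [smul_eq_mul] at this
  have hC' : ∀ a (x : B a), x ∈ Kf.toSubalgebra.comap (B a).val ↔ (x : FractionRing S) ∈ M :=
    fun a x => ⟨fun hx => ⟨hBL a _ x.2, hx⟩, fun hx => hx.2⟩
  have hMh : ∀ a, η a ∈ M := fun a =>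
    ⟨⟨D, _, _, hh a, hh a0, h0 a0, rfl⟩, Kf.div_mem ((hKf _).2 (hC a)) ((hKf _).2 (hC a0))⟩
  have hX : Chs B (fun a b => η b / η a) F :=
    { mem := fun a b => by
        change η b / η a ∈ B a
        rw [hratio]
        exact ⟨1, h b, by rw [one_mul]; exact hh b, by rw [pow_one]⟩
      glue := by
        intro a b d f hf
        obtain ⟨n, g, hg, hg'⟩ := hglue a b d f hf
        exact ⟨n, g, hg, by rw [hratio]; exact hg'⟩
      proper := hproper }
  obtain ⟨W, hW, I, hI, z, J, hmod⟩ := model_of_chs' hp hpk hX hη0 hF M hMh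
    (fun a => Kf.toSubalgebra.comap (B a).val) hgood hC'
  obtain ⟨P, hP1, hP2⟩ := exists_spmG M hmod
  have hev : ∀ n, ∀ s ∈ piece 𝒜 C n, (ev k S).comp C.val s = 0 → s = 0 := by
    intro n s _ h0
    apply Subtype.ext
    exact ev_inj (k := k) (h0.trans (map_zero _).symm)
  have hint := P.int
  obtain ⟨π, hπ1, hπ2, hπ3⟩ := exists_resG (piece 𝒜 C) ((ev k S).comp C.val) M hev P hP2 (by
    intro j
    obtain ⟨a, ha⟩ := hP1 j
    have hf : (⟨h a, hC a⟩ : C) ∈ piece 𝒜 C D := hh a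
    refine ⟨D, ⟨h a, hC a⟩, hf, hHne a, hD, ?_, ?_⟩
    · rintro _ ⟨i, s, hs, rfl⟩
      refine ha _ (hW a _ ?_ ⟨?_, ?_⟩)
      · exact ⟨i, s, hs, rfl⟩
      · refine ⟨i * D, s, h a ^ i, hs, ?_, pow_ne_zero _ (h0 a), ?_⟩
        · have := SetLike.pow_mem_graded i (hh a)
          rwa [smul_eq_mul] at this
        · rw [map_pow]
          rfl
      · exact Kf.div_mem ((hKf _).2 s.2) (pow_mem ((hKf _).2 (hC a)) i)
    · rintro x ⟨⟨d, s, t, hs, ht, ht0, rfl⟩, hxK⟩
      obtain ⟨d', w, hw, htw, hw0⟩ := hden d t ht ht0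
      let T : S := (t * w) ^ D
      have htw0 : t * w ≠ 0 := mul_ne_zero ht0 hw0
      have hT0 : T ≠ 0 := pow_ne_zero _ htw0
      have hTC : T ∈ C := pow_mem htw D
      have htwh : t * w ∈ 𝒜 (d + d') := SetLike.mul_mem_graded ht hw
      have hTh : T ∈ 𝒜 ((d + d') * D) := by
        have := SetLike.pow_mem_graded D htwh
        rwa [smul_eq_mul, mul_comm] at this
      obtain ⟨e', he'⟩ : ∃ e', D = e' + 1 := ⟨D - 1, by omega⟩
      let R : S := s * w * (t * w) ^ e'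
      have hRh : R ∈ 𝒜 ((d + d') * D) := by
        have h1 := SetLike.mul_mem_graded (SetLike.mul_mem_graded hs hw)
          (SetLike.pow_mem_graded e' htwh)
        have h2 : d + d' + e' • (d + d') = (d + d') * D := by rw [he', smul_eq_mul]; ring
        rwa [h2] at h1
      have hRT : ev k S R = (ev k S s / ev k S t) * ev k S T := by
        have h1 : t * R = s * T := by
          change t * (s * w * (t * w) ^ e') = s * (t * w) ^ D
          rw [he', pow_succ]
          ring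
        have h2 := ev_ne (k := k) ht0
        have h3 : ev k S t * ev k S R = ev k S s * ev k S T := by
          rw [← map_mul, ← map_mul, h1]
        rw [div_mul_eq_mul_div, ← h3]
        field_simp
      have hRC : R ∈ C := by
        rw [← hKf, hRT]
        exact Kf.mul_mem hxK ((hKf _).2 hTC)
      have hHi : ev k S (h a) ^ (d + d') ≠ 0 := pow_ne_zero _ (hHne a)
      refine ⟨_, ⟨d + d', ⟨R, hRC⟩, hRh, rfl⟩, _, ⟨d + d', ⟨T, hTC⟩, hTh, rfl⟩, ?_, ?_⟩
      · exact div_ne_zero (ev_ne (k := k) hT0) hHi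
      · change ev k S s / ev k S t = (ev k S R / ev k S (h a) ^ (d + d')) /
          (ev k S T / ev k S (h a) ^ (d + d'))
        rw [hRT]
        have h4 := ev_ne (k := k) hT0
        field_simp)
  exact ⟨P.Y, π, hint, hπ1, hπ2, hπ3⟩

end asm

end Pool.Agent.U197.SF
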