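import Pool.Agent.U197.SF.C1
import Pool.Agent.H920R2.Cy10

/-!
Graded domains which are generated in degree one.
-/

set_option autoImplicit false
set_option linter.unusedSectionVars false

open Pool.Agent.H920R2

namespace Pool.Agent.U197.SF

variable {k S : Type} [Field k] [CommRing S] [IsDomain S] [Algebra k S] (𝒜 : ℕ → Submodule k S)
  [GradedAlgebra 𝒜] {m : ℕ} (b : Fin (m + 1) → S)

/-- The values of forms. -/
lemma aeval_mem (hb : ∀ i, b i ∈ 𝒜 1) (d : ℕ) (P : MvPolynomial (Fin (m + 1)) k)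
    (hP : P.IsHomogeneous d) : MvPolynomial.aeval b P ∈ 𝒜 d := by
  rw [MvPolynomial.aeval_def, MvPolynomial.eval₂_eq]
  refine Submodule.sum_mem _ fun u hu => ?_
  rw [← Algebra.smul_def]
  refine Submodule.smul_mem _ _ ?_
  have h1 : ∑ i ∈ u.support, u i = d := by
    have h2 := hP (MvPolynomial.mem_support_iff.1 hu)
    rw [← h2]
    simp [Finsupp.weight_apply, Finsupp.sum]
  rw [← h1]
  refine SetLike.prod_mem_graded _ _ _ fun i _ => ?_
  have h3 := SetLike.pow_mem_graded (u i) (hb i)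
  rwa [smul_eq_mul, mul_one] at h3

/-- Homogeneous components of the values of polynomials. -/
lemma proj_aeval (hb : ∀ i, b i ∈ 𝒜 1) (d : ℕ) (P : MvPolynomial (Fin (m + 1)) k) :
    GradedAlgebra.proj 𝒜 d (MvPolynomial.aeval b P) =
      MvPolynomial.aeval b (MvPolynomial.homogeneousComponent d P) := by
  classical
  conv_lhs => rw [← MvPolynomial.sum_homogeneousComponent P]
  rw [map_sum, map_sum]
  have h1 : ∀ i, GradedAlgebra.proj 𝒜 d (MvPolynomial.aeval b
      (MvPolynomial.homogeneousComponent i P)) =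
      if d = i then MvPolynomial.aeval b (MvPolynomial.homogeneousComponent i P) else 0 := by
    intro i
    have h2 := aeval_mem 𝒜 b hb i _ (MvPolynomial.homogeneousComponent_isHomogeneous i P)
    rw [GradedAlgebra.proj_apply]
    split_ifs with h
    · subst h
      rw [DirectSum.decompose_of_mem_same 𝒜 h2]
    · rw [DirectSum.decompose_of_mem_ne 𝒜 h2 (Ne.symm h)]
  rw [Finset.sum_congr rfl fun i _ => h1 i, Finset.sum_ite_eq]
  split_ifs with h2
  · rfl
  · rw [MvPolynomial.homogeneousComponent_eq_zero, map_zero]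
    rw [Finset.mem_range, not_lt] at h2
    omega

/-- The homogeneous elements are values of forms. -/
lemma exists_form (hb : ∀ i, b i ∈ 𝒜 1) (hgen : Algebra.adjoin k (Set.range b) = ⊤) (d : ℕ) (s : S)
    (hs : s ∈ 𝒜 d) : ∃ P : MvPolynomial (Fin (m + 1)) k, P.IsHomogeneous d ∧
      MvPolynomial.aeval b P = s := by
  have h1 : s ∈ Algebra.adjoin k (Set.range b) := by rw [hgen]; trivial
  rw [Algebra.adjoin_range_eq_range_aeval] at h1
  obtain ⟨P, hP⟩ := h1
  have hP' : MvPolynomial.aeval b P = s := hP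
  refine ⟨_, MvPolynomial.homogeneousComponent_isHomogeneous d P, ?_⟩
  rw [← proj_aeval 𝒜 b hb, hP', GradedAlgebra.proj_apply, DirectSum.decompose_of_mem_same 𝒜 hs]

/-- The coordinates as elements of the field of fractions. -/
noncomputable def zz (k : Type) {S : Type} [Field k] [CommRing S] [IsDomain S] [Algebra k S]
    {m : ℕ} (b : Fin (m + 1) → S) (i : Fin (m + 1)) : FractionRing S := ev k S (b i)

lemma ev_mem_FS (hb : ∀ i, b i ∈ 𝒜 1) (hgen : Algebra.adjoin k (Set.range b) = ⊤) (d : ℕ) (s : S)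
    (hs : s ∈ 𝒜 d) : ev k S s ∈ FS k (zz k b) d := by
  obtain ⟨P, hP, rfl⟩ := exists_form 𝒜 b hb hgen d s hs
  rw [MvPolynomial.aeval_def, MvPolynomial.eval₂_eq', map_sum]
  refine Submodule.sum_mem _ fun u hu => ?_
  rw [← Algebra.smul_def, map_smul]
  refine Submodule.smul_mem _ _ (Submodule.subset_span ⟨u, ?_, ?_⟩)
  · have h2 := hP (MvPolynomial.mem_support_iff.1 hu)
    rw [← h2]
    simp [Finsupp.weight_apply, Finsupp.sum_fintype]
  · rw [map_prod]
    exact Finset.prod_congr rfl fun i _ => map_pow _ _ _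

lemma exists_of_FS (hb : ∀ i, b i ∈ 𝒜 1) (d : ℕ) (x : FractionRing S)
    (hx : x ∈ FS k (zz k b) d) : ∃ s ∈ 𝒜 d, ev k S s = x := by
  unfold FS at hx
  induction hx using Submodule.span_induction with
  | mem x hx =>
    obtain ⟨a, ha, rfl⟩ := hx
    refine ⟨∏ i, b i ^ a i, ?_, ?_⟩
    · rw [← ha]
      refine SetLike.prod_mem_graded _ _ _ fun i _ => ?_
      have h3 := SetLike.pow_mem_graded (a i) (hb i)
      rwa [smul_eq_mul, mul_one] at h3
    · rw [map_prod]
      exact Finset.prod_congr rfl fun i _ => map_pow _ _ _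
  | zero => exact ⟨0, Submodule.zero_mem _, map_zero _⟩
  | add x y _ _ hx hy =>
    obtain ⟨s, hs, rfl⟩ := hx
    obtain ⟨t, ht, rfl⟩ := hy
    exact ⟨s + t, Submodule.add_mem _ hs ht, map_add _ _ _⟩
  | smul c x _ hx =>
    obtain ⟨s, hs, rfl⟩ := hx
    exact ⟨c • s, Submodule.smul_mem _ _ hs, map_smul _ _ _⟩

/-- Forms divided by a power of a maximal coordinate lie in the valuation ring. -/
lemma div_mem (hb : ∀ i, b i ∈ 𝒜 1) (hgen : Algebra.adjoin k (Set.range b) = ⊤)
    (V : ValuationSubring (FractionRing S))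
    (hV : ∀ c : k, algebraMap k (FractionRing S) c ∈ V) (y : FractionRing S)
    (hy : ∀ i, zz k b i / y ∈ V) (d : ℕ) (s : S) (hs : s ∈ 𝒜 d) : ev k S s / y ^ d ∈ V := by
  have h1 := ev_mem_FS 𝒜 b hb hgen d s hs
  unfold FS at h1
  generalize ev k S s = x at h1 ⊢
  induction h1 using Submodule.span_induction with
  | mem x hx =>
    obtain ⟨a, ha, rfl⟩ := hx
    have h2 : (∏ i, zz k b i ^ a i) / y ^ d = ∏ i, (zz k b i / y) ^ a i := by
      rw [← ha, ← Finset.prod_pow_eq_pow_sum, ← Finset.prod_div_distrib]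
      exact Finset.prod_congr rfl fun i _ => (div_pow _ _ _).symm
    rw [h2]
    exact prod_mem fun i _ => pow_mem (hy i) _
  | zero => rw [zero_div]; exact V.zero_mem
  | add x y _ _ hx hy => rw [add_div]; exact V.add_mem _ _ hx hy
  | smul c x _ hx =>
    rw [Algebra.smul_def, mul_div_assoc]
    exact V.mul_mem _ _ (hV c) hx

end Pool.Agent.U197.SF
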