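import Pool.Agent.U197.SF.C2
import Pool.Agent.U197.SF.B1

/-!
The charts of `Proj`, the zeros of a map of the field of functions in the charts.
-/

set_option autoImplicit false
set_option linter.unusedSectionVars false

open AlgebraicGeometry CategoryTheory HomogeneousLocalization
open Pool.Agent.H920R2 Pool.Agent.H519R3.RS Pool.Agent.N98.PJ Pool.Agent.U197.PQ

namespace Pool.Agent.U197.SF

section zero

variable {k K : Type} [Field k] [Field K] [Algebra k K]

/-- The ideal of `B` which is generated by the values in `B` of the map `δ` on `B`. -/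
def zI (B : Subalgebra k K) (δ : K → K) : Ideal B := Ideal.span {y | ∃ b : B, (y : K) = δ b}

/-- The zeros of `δ` in the spectrum of `B` are smooth, and the leading form of `δ` along them has
the order `l` and no zeros outside the zero section of the normal cone. -/
structure Mild (B : Subalgebra k K) (δ : K → K) (l : ℕ) : Prop where
  sm : Algebra.Smooth k (B ⧸ (zI B δ).radical)
  ord0 : ∀ b y : B, (y : K) = δ b → y ∈ (zI B δ).radical ^ l
  ord1 : ∀ b ∈ (zI B δ).radical, ∀ y : B, (y : K) = δ b → y ∈ (zI B δ).radical ^ (l + 1)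
  lead : ∃ N, (zI B δ).radical ^ N ≤ (zI B δ).radical ^ (N + 1) ⊔
    ((zI B δ).radical ^ (N - l) * zI B δ ⊔ (zI B δ).radical ^ (N - (l + 1)) *
      Ideal.span {y : B | ∃ b ∈ (zI B δ).radical, (y : K) = δ b})

variable {A B : Subalgebra k K} {c : K} (hc : c ∈ A) (hcB : ∀ x ∈ B, ∃ n : ℕ, c ^ n * x ∈ A)
  {δA δB : K → K} (hδ : ∀ x, δA (c * x) = c * δA x) {u : K} {n0 : ℕ} (hu : c ^ n0 * u ∈ A)
  (hub : ∀ x, δB x = u * δA x) (hst : ∀ x ∈ A, δA x ∈ A)

include hc in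
lemma pow_mul_mem {n n' : ℕ} (h : n ≤ n') {x : K} (hx : c ^ n * x ∈ A) : c ^ n' * x ∈ A := by
  rw [← Nat.sub_add_cancel h, pow_add, mul_assoc]
  exact A.mul_mem (A.pow_mem hc _) hx

include hδ in
lemma delta_pow (n : ℕ) (x : K) : δA (c ^ n * x) = c ^ n * δA x := by
  induction n with
  | zero => rw [pow_zero, one_mul, one_mul]
  | succ n ih => rw [pow_succ', mul_assoc, hδ, ih, mul_assoc]

include hc in
/-- Elements of ideals after multiplication by a power. -/
lemma lift_pow_mul (I : Ideal A) {n n' : ℕ} (h : n ≤ n') {x : K} (hx : ∃ g ∈ I, (g : K) = c ^ n * x) :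
    ∃ g ∈ I, (g : K) = c ^ n' * x := by
  obtain ⟨g, hg, hg'⟩ := hx
  refine ⟨(⟨c, hc⟩ : A) ^ (n' - n) * g, Ideal.mul_mem_left _ _ hg, ?_⟩
  change c ^ (n' - n) * (g : K) = _
  rw [hg', ← mul_assoc, ← pow_add, Nat.sub_add_cancel h]

include hc hcB hδ hu hub hst in
lemma glue_zI (f : B) (hf : f ∈ zI B δB) : ∃ n, ∃ g ∈ zI A δA, (g : K) = c ^ n * f := by
  unfold zI at hf
  induction hf using Submodule.span_induction with
  | mem f hf =>
    obtain ⟨b, hb⟩ := hf
    obtain ⟨n, hn⟩ := hcB _ b.2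
    refine ⟨n0 + n, ⟨c ^ n0 * u, hu⟩ * ⟨δA (c ^ n * b), hst _ hn⟩,
      Ideal.mul_mem_left _ _ (Ideal.subset_span ⟨⟨_, hn⟩, rfl⟩), ?_⟩
    change c ^ n0 * u * δA (c ^ n * b) = _
    rw [delta_pow hδ, hb, hub, pow_add]
    ring
  | zero => exact ⟨0, 0, Ideal.zero_mem _, by simp⟩
  | add x y _ _ hx hy =>
    obtain ⟨n, g, hg, hgx⟩ := hx
    obtain ⟨n', g', hg', hgy⟩ := hy
    obtain ⟨s, hs, hs'⟩ := lift_pow_mul hc _ (le_max_left n n') ⟨g, hg, hgx⟩
    obtain ⟨t, ht, ht'⟩ := lift_pow_mul hc _ (le_max_right n n') ⟨g', hg', hgy⟩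
    refine ⟨max n n', s + t, Ideal.add_mem _ hs ht, ?_⟩
    change (s : K) + t = c ^ max n n' * ((x : K) + y)
    rw [hs', ht', mul_add]
  | smul r x _ hx =>
    obtain ⟨n, g, hg, hgx⟩ := hx
    obtain ⟨n', hn'⟩ := hcB _ r.2
    refine ⟨n' + n, ⟨_, hn'⟩ * g, Ideal.mul_mem_left _ _ hg, ?_⟩
    change c ^ n' * (r : K) * g = c ^ (n' + n) * ((r : K) * x)
    rw [hgx, pow_add]
    ring

include hc hcB hδ hu hub hst in
lemma glue_rad (f : B) (hf : f ∈ (zI B δB).radical) :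
    ∃ n, ∃ g ∈ (zI A δA).radical, (g : K) = c ^ n * f := by
  obtain ⟨M, hM⟩ := hf
  have hM' : f ^ (M + 1) ∈ zI B δB := by
    rw [pow_succ]
    exact Ideal.mul_mem_right _ _ hM
  obtain ⟨n, g, hg, hg'⟩ := glue_zI hc hcB hδ hu hub hst _ hM'
  obtain ⟨n', hn'⟩ := hcB _ f.2
  have h1 : c ^ max n n' * (f : K) ∈ A := pow_mul_mem hc (le_max_right n n') hn'
  refine ⟨max n n', ⟨_, h1⟩, ⟨M + 1, ?_⟩, rfl⟩
  have h2 : n ≤ max n n' * (M + 1) := (le_max_left n n').trans (Nat.le_mul_of_pos_right _ (by omega))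
  obtain ⟨s, hs, hs'⟩ := lift_pow_mul hc _ h2 ⟨g, hg, hg'⟩
  have h3 : (⟨_, h1⟩ : A) ^ (M + 1) = s := by
    apply Subtype.ext
    rw [hs']
    change (c ^ max n n' * (f : K)) ^ (M + 1) = c ^ (max n n' * (M + 1)) * (f : K) ^ (M + 1)
    rw [mul_pow, ← pow_mul]
  rw [h3]
  exact hs

include hc hcB hδ hu hub hst in
lemma glue_pow (d : ℕ) (f : B) (hf : f ∈ (zI B δB).radical ^ d) :
    ∃ n, ∃ g ∈ (zI A δA).radical ^ d, (g : K) = c ^ n * f := by
  induction d generalizing f with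
  | zero =>
    obtain ⟨n, hn⟩ := hcB _ f.2
    refine ⟨n, ⟨_, hn⟩, ?_, rfl⟩
    rw [pow_zero, Ideal.one_eq_top]
    trivial
  | succ d ih =>
    rw [pow_succ] at hf
    refine Submodule.mul_induction_on hf ?_ ?_
    · intro x hx y hy
      obtain ⟨n, g, hg, hgx⟩ := ih x hx
      obtain ⟨n', g', hg', hgy⟩ := glue_rad hc hcB hδ hu hub hst y hy
      refine ⟨n + n', g * g', ?_, ?_⟩
      · rw [pow_succ]
        exact Ideal.mul_mem_mul hg hg'
      · change (g : K) * g' = c ^ (n + n') * ((x : K) * y)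
        rw [hgx, hgy, pow_add]
        ring
    · rintro x y ⟨n, g, hg, hgx⟩ ⟨n', g', hg', hgy⟩
      obtain ⟨s, hs, hs'⟩ := lift_pow_mul hc _ (le_max_left n n') ⟨g, hg, hgx⟩
      obtain ⟨t, ht, ht'⟩ := lift_pow_mul hc _ (le_max_right n n') ⟨g', hg', hgy⟩
      refine ⟨max n n', s + t, Ideal.add_mem _ hs ht, ?_⟩
      change (s : K) + t = c ^ max n n' * ((x : K) + y)
      rw [hs', ht', mul_add]

end zero

section chart

variable {k S : Type} [Field k] [CommRing S] [IsDomain S] [Algebra k S] (𝒜 : ℕ → Submodule k S)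
  [GradedAlgebra 𝒜]

/-- The charts of a smooth scheme are smooth. -/
theorem smooth_ch (hX : AlgebraicGeometry.Smooth (str 𝒜)) {D : ℕ} (hD : 0 < D) (h : S)
    (hh : h ∈ 𝒜 D) (h0 : h ≠ 0) : Algebra.Smooth k (ch 𝒜 h D hh h0) := by
  have h1 : AlgebraicGeometry.Smooth (Proj.awayι 𝒜 h hh hD ≫ str 𝒜) := inferInstance
  have h2 : Proj.awayι 𝒜 h hh hD ≫ str 𝒜 = Spec.map (CommRingCat.ofHom
      ((fromZeroRingHom 𝒜 (Submonoid.powers h)).comp (algebraMap k (𝒜 0)))) := by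
    change Proj.awayι 𝒜 h hh hD ≫ Proj.toSpecZero 𝒜 ≫ Spec.map _ = _
    rw [Proj.awayι_toSpecZero_assoc, ← Spec.map_comp]
    rfl
  rw [h2, HasRingHomProperty.Spec_iff (P := @AlgebraicGeometry.Smooth.{0})] at h1
  let avh := av 𝒜 (ev k S : S →+* FractionRing S) h (ev_ne (k := k) h0)
  have h3 : Function.Injective avh := avG_injective 𝒜 (ev k S) (fun n s _ hs => ev_inj (k := k)
    (hs.trans (map_zero _).symm)) h D hh (ev_ne (k := k) h0)
  let φ : Away 𝒜 h →+* ch 𝒜 h D hh h0 := avh.codRestrict (ch 𝒜 h D hh h0).toSubring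
    (fun z => avG_mem 𝒜 (ev k S) h D hh (ev_ne (k := k) h0) z)
  have h4 : Function.Bijective φ := by
    constructor
    · intro x y hxy
      exact h3 (congrArg Subtype.val hxy)
    · rintro ⟨y, hy⟩
      obtain ⟨z, hz⟩ := mem_range_avG 𝒜 (ev k S) h D hh (ev_ne (k := k) h0) y hy
      exact ⟨z, Subtype.ext hz⟩
  have h5 : φ.Smooth := RingHom.Smooth.of_bijective h4
  have h6 := RingHom.Smooth.stableUnderComposition _ _ h1 h5
  have h7 : φ.comp (((fromZeroRingHom 𝒜 (Submonoid.powers h)).comp (algebraMap k (𝒜 0)))) =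
      algebraMap k (ch 𝒜 h D hh h0) := by
    ext r
    have h8 := av_fromZero 𝒜 (ev k S : S →+* FractionRing S) (ev_ne (k := k) h0)
      (algebraMap k (𝒜 0) r)
    refine h8.trans ?_
    exact (ev k S).commutes r
  have h9 : (φ.comp (((fromZeroRingHom 𝒜 (Submonoid.powers h)).comp
      (algebraMap k (𝒜 0))))).Smooth := h6
  rw [h7] at h9
  exact RingHom.smooth_algebraMap.1 h9

end chart

end Pool.Agent.U197.SF
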