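import Pool.Agent.U197.SF.C3

/-!
Charts of `Proj` which are stable under an automorphism of order `p` or a derivation.
-/

set_option autoImplicit false
set_option linter.unusedSectionVars false

open AlgebraicGeometry CategoryTheory
open Pool.Agent.H920R2 Pool.Agent.H519R3.RS Pool.Agent.N98.PJ Pool.Agent.U197.PQ

namespace Pool.Agent.U197.SF

section good

variable {k K : Type} [Field k] [Field K] [Algebra k K]

/-- The chart of the quotient by an automorphism. -/
lemma good_mild_sig {p : ℕ} (hp : p.Prime) (hpk : (p : k) = 0) (τ : K ≃ₐ[k] K)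
    (hτ : ∀ x, τ^[p] x = x) (B : Subalgebra k K) [Algebra.Smooth k B] (hB : ∀ x ∈ B, τ x ∈ B)
    (hne : ∃ x ∈ B, τ x ≠ x) {l : ℕ} (hl : 0 < l) (h : Mild B (fun x => τ x - x) l)
    (C : Subalgebra k B) (hC : ∀ x : B, x ∈ C ↔ τ x = x) :
    Good k (isFilt_restr (isFilt_pow (zI B (fun x => τ x - x)).radical) C) ∧
      restr (fun d => (zI B (fun x => τ x - x)).radical ^ d) C 1 ≠ ⊥ := by
  have hB' : ∀ x ∈ B, τ.symm x ∈ B := by
    intro x hx
    have h1 : τ.symm x = τ^[p - 1] x := by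
      rw [AlgEquiv.symm_apply_eq, ← Function.iterate_succ_apply' τ,
        Nat.succ_eq_add_one, Nat.sub_add_cancel hp.one_lt.le, hτ]
    have h2 : ∀ n, τ^[n] x ∈ B := by
      intro n
      induction n with
      | zero => exact hx
      | succ n ih => rw [Function.iterate_succ_apply']; exact hB _ ih
    rw [h1]
    exact h2 _
  let s : B ≃ₐ[k] B := resEquiv τ B hB hB'
  have hsp : ∀ z : B, s^[p] z = z := by
    intro z
    apply Subtype.ext
    rw [coe_resEquiv_iter, hτ]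
  have hset : zI B (fun x => τ x - x) = Ideal.span (Set.range fun b : B => s b - b) := by
    unfold zI
    congr 1
    ext y
    constructor
    · rintro ⟨b, hb⟩
      exact ⟨b, Subtype.ext hb.symm⟩
    · rintro ⟨b, rfl⟩
      exact ⟨b, rfl⟩
  obtain ⟨h0, h1, h2, N, h3⟩ := h
  refine good_pow_sig hp hpk s hsp ?_ _ (by rw [hset]) inferInstance hl
    ⟨fun b => h1 b _ rfl, fun b hb => h2 b hb _ rfl, N, h3.trans ?_⟩ C fun b => ?_
  · obtain ⟨x, hx, hx'⟩ := hne
    exact ⟨⟨x, hx⟩, fun h => hx' (congrArg Subtype.val h)⟩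
  · refine sup_le le_sup_left (le_trans (sup_le ?_ ?_) le_sup_right)
    · refine le_trans (Ideal.mul_mono_right ?_) le_sup_left
      rw [hset]
    · refine le_trans (Ideal.mul_mono_right (Ideal.span_mono ?_)) le_sup_right
      rintro y ⟨b, hb, hy⟩
      exact ⟨b, hb, Subtype.ext hy.symm⟩
  · rw [hC]
    exact ⟨fun h => Subtype.ext h, fun h => congrArg Subtype.val h⟩

/-- The chart of the quotient by a derivation. -/
lemma good_mild_der {p : ℕ} (hp : p.Prime) (hpk : (p : k) = 0) (E : Derivation k K K)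
    (B : Subalgebra k K) [Algebra.Smooth k B] (hB : ∀ x ∈ B, E x ∈ B)
    (hcl : ∃ φ : K, ∀ x ∈ B, E^[p] x = φ * E x)
    (hne : ∃ x ∈ B, E x ≠ 0) {l : ℕ} (h : Mild B (fun x => E x) l)
    (C : Subalgebra k B) (hC : ∀ x : B, x ∈ C ↔ E x = 0) :
    Good k (isFilt_restr (isFilt_pow (zI B (fun x => E x)).radical) C) ∧
      restr (fun d => (zI B (fun x => E x)).radical ^ d) C 1 ≠ ⊥ := by
  let s : Derivation k B B := rder E B hB
  have hs : ∀ (n : ℕ) (z : B), ((s^[n] z : B) : K) = E^[n] z := coe_rder_iter E B hB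
  obtain ⟨x, hx, hx0⟩ := hne
  obtain ⟨φ, hφ⟩ := hcl
  let b0 : B := ⟨x, hx⟩
  have hb0 : s b0 ≠ 0 := fun h => hx0 (congrArg Subtype.val h)
  have hset : zI B (fun x => E x) = Ideal.span (Set.range fun b : B => s b) := by
    unfold zI
    congr 1
    ext y
    constructor
    · rintro ⟨b, hb⟩
      exact ⟨b, Subtype.ext hb.symm⟩
    · rintro ⟨b, rfl⟩
      exact ⟨b, rfl⟩
  obtain ⟨h0, h1, h2, N, h3⟩ := h
  refine good_pow_der hp hpk s (algebraMap B (FractionRing B) (s^[p] b0) /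
    algebraMap B (FractionRing B) (s b0)) (fun b => ?_) ⟨b0, hb0⟩ _ (by rw [hset]) inferInstance
    (l := l) ⟨fun b => h1 b _ rfl, fun b hb => h2 b hb _ rfl, N, h3.trans ?_⟩ C fun b => ?_
  · have hne' : algebraMap B (FractionRing B) (s b0) ≠ 0 := fun h =>
      hb0 ((map_eq_zero_iff _ (IsFractionRing.injective B (FractionRing B))).1 h)
    have h4 : s^[p] b * s b0 = s^[p] b0 * s b := by
      apply Subtype.ext
      change ((s^[p] b : B) : K) * E b0 = ((s^[p] b0 : B) : K) * E b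
      rw [hs, hs, hφ _ b.2, hφ _ b0.2]
      ring
    rw [div_mul_eq_mul_div, eq_div_iff hne', ← map_mul, ← map_mul, h4]
  · refine sup_le le_sup_left (le_trans (sup_le ?_ ?_) le_sup_right)
    · refine le_trans (Ideal.mul_mono_right ?_) le_sup_left
      rw [hset]
    · refine le_trans (Ideal.mul_mono_right (Ideal.span_mono ?_)) le_sup_right
      rintro y ⟨b, hb, hy⟩
      exact ⟨b, hb, Subtype.ext hy.symm⟩
  · rw [hC]
    exact ⟨fun h => Subtype.ext h, fun h => congrArg Subtype.val h⟩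

end good

section cover

variable {k S : Type} [Field k] [CommRing S] [IsDomain S] [Algebra k S] (𝒜 : ℕ → Submodule k S)
  [GradedAlgebra 𝒜] {m : ℕ} (b : Fin (m + 1) → S) (hb : ∀ i, b i ∈ 𝒜 1) (hb0 : ∀ i, b i ≠ 0)
  (hgen : Algebra.adjoin k (Set.range b) = ⊤)

include hb hb0 hgen in
/-- The charts of the powers of the coordinates. -/
lemma cover_pow {p : ℕ} (V : ValuationSubring (FractionRing S))
    (hV : ∀ c : k, algebraMap k (FractionRing S) c ∈ V) (hh : ∀ i, b i ^ p ∈ 𝒜 p) :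
    ∃ i, ∀ x ∈ ch 𝒜 (b i ^ p) p (hh i) (pow_ne_zero p (hb0 i)), x ∈ V := by
  obtain ⟨i₀, hi₀⟩ := exists_max_z (zz k b) V
  have h0 : ∀ i, zz k b i ≠ 0 := fun i => ev_ne (hb0 i)
  refine ⟨i₀, ?_⟩
  rintro _ ⟨i, s, hs, rfl⟩
  have h1 : ∀ j, zz k b j / zz k b i₀ ∈ V := by
    intro j
    rw [← V.valuation_le_one_iff, map_div₀]
    exact div_le_one_of_le₀ (hi₀ j) zero_le
  have h2 := div_mem 𝒜 b hb hgen V hV (zz k b i₀) h1 _ s hs
  rw [map_pow, ← pow_mul, mul_comm p i]
  exact h2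

variable {p : ℕ} [hp : Fact p.Prime] (σ : S ≃ₐ[k] S)

/-- The automorphism of the field of fractions. -/
noncomputable def tauS : FractionRing S ≃ₐ[k] FractionRing S :=
  IsFractionRing.fieldEquivOfAlgEquiv k (FractionRing S) (FractionRing S) σ

lemma tauS_ev (s : S) : tauS σ (ev k S s) = ev k S (σ s) :=
  IsFractionRing.fieldEquivOfAlgEquiv_algebraMap k (FractionRing S) (FractionRing S) σ s

lemma tauS_ev_iter (n : ℕ) (s : S) : (tauS σ)^[n] (ev k S s) = ev k S (σ^[n] s) := by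
  induction n generalizing s with
  | zero => rfl
  | succ n ih => rw [Function.iterate_succ_apply, tauS_ev, ih, Function.iterate_succ_apply]

lemma tauS_div_iter (n : ℕ) (x y : FractionRing S) :
    (tauS σ)^[n] (x / y) = (tauS σ)^[n] x / (tauS σ)^[n] y := by
  induction n generalizing x y with
  | zero => rfl
  | succ n ih =>
    rw [Function.iterate_succ_apply, map_div₀, ih, Function.iterate_succ_apply,
      Function.iterate_succ_apply]

lemma tauS_pow_apply (n : ℕ) (x : FractionRing S) : (tauS σ ^ n) x = (tauS σ)^[n] x := by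
  induction n generalizing x with
  | zero => rfl
  | succ n ih => rw [pow_succ, Function.iterate_succ_apply, ← ih]; rfl

lemma tauS_iter (hσp : ∀ s, σ^[p] s = s) (x : FractionRing S) : (tauS σ)^[p] x = x := by
  obtain ⟨s, t, -, rfl⟩ := IsFractionRing.div_surjective S x
  change (tauS σ)^[p] (ev k S s / ev k S t) = ev k S s / ev k S t
  rw [tauS_div_iter, tauS_ev_iter, tauS_ev_iter, hσp, hσp]

variable (hσh : ∀ n, ∀ s ∈ 𝒜 n, σ s ∈ 𝒜 n) (hσp : ∀ s, σ^[p] s = s)

include hσh in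
lemma iter_mem (i n : ℕ) (s : S) (hs : s ∈ 𝒜 n) : σ^[i] s ∈ 𝒜 n := by
  induction i generalizing s with
  | zero => exact hs
  | succ i ih => rw [Function.iterate_succ_apply]; exact ih _ (hσh n s hs)

lemma iter_ne (i : ℕ) (s : S) (hs : s ≠ 0) : σ^[i] s ≠ 0 := by
  induction i generalizing s with
  | zero => exact hs
  | succ i ih =>
    rw [Function.iterate_succ_apply]
    exact ih _ fun h => hs ((map_eq_zero_iff σ σ.injective).1 h)

lemma ev_nrm (n : ℕ) (s : S) : ev k S (nrm σ n s) =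
    ∏ i ∈ Finset.range n, (tauS σ)^[i] (ev k S s) := by
  unfold H920R2.nrm
  rw [map_prod]
  exact Finset.prod_congr rfl fun i _ => (tauS_ev_iter σ i s).symm

include hb hb0 hgen hσh hσp in
/-- Finitely many stable charts cover the scheme. -/
theorem exists_charts : ∃ (𝒯 : Type) (_ : Finite 𝒯) (D : ℕ) (_ : 0 < D) (h : 𝒯 → S)
    (hh : ∀ a, h a ∈ 𝒜 D) (h0 : ∀ a, h a ≠ 0), (∀ a, σ (h a) = h a) ∧
    ∀ V : ValuationSubring (FractionRing S), (∀ c : k, algebraMap k (FractionRing S) c ∈ V) →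
      ∃ a, ∀ x ∈ ch 𝒜 (h a) D (hh a) (h0 a), x ∈ V := by
  classical
  have hp0 := hp.out.pos
  have h0 : ∀ i, zz k b i ≠ 0 := fun i => ev_ne (hb0 i)
  obtain ⟨d, Φ, hd, hΦ, hΦF, hgood⟩ := exists_forms (zz k b) h0 k (p - 1)
  choose f hf hfe using fun F : {F // F ∈ Φ ∧ F ≠ 0} => exists_of_FS 𝒜 b hb d F.1 (hΦF F.1 F.2.1)
  have hfin : Finite {F // F ∈ Φ ∧ F ≠ 0} := (hΦ.subset fun F hF => hF.1).to_subtype
  have hf0 : ∀ F, f F ≠ 0 := by
    intro F h
    apply F.2.2
    rw [← hfe F, h, map_zero]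
  refine ⟨{F // F ∈ Φ ∧ F ≠ 0}, hfin, p * d, Nat.mul_pos hp0 hd, fun F => nrm σ p (f F), ?_, ?_,
    fun F => map_nrm σ p hσp _, ?_⟩
  · intro F
    unfold H920R2.nrm
    have h1 := SetLike.prod_mem_graded 𝒜 (fun _ => d)
      (fun i => σ^[i] (f F)) (F := Finset.range p) (fun i _ => iter_mem 𝒜 σ hσh i d _ (hf F))
    rwa [Finset.sum_const, Finset.card_range, smul_eq_mul] at h1
  · intro F
    unfold H920R2.nrm
    exact Finset.prod_ne_zero_iff.2 fun i _ => iter_ne σ i _ (hf0 F)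
  · intro V hV
    let W : ℕ → ValuationSubring (FractionRing S) := fun i =>
      V.comap ((tauS σ ^ i : FractionRing S ≃ₐ[k] FractionRing S) : FractionRing S →+* FractionRing S)
    have hW : ∀ i x, x ∈ W i ↔ (tauS σ)^[i] x ∈ V := by
      intro i x
      rw [ValuationSubring.mem_comap, ← tauS_pow_apply]
      rfl
    have hWk : ∀ i (c : k), algebraMap k (FractionRing S) c ∈ W i := by
      intro i c
      rw [hW, ← tauS_pow_apply, AlgEquiv.commutes]
      exact hV c
    obtain ⟨F, hF, hG⟩ := hgood (fun i => W i) fun i c => hWk i c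
    have hF0 : F ≠ 0 := GoodF.ne_zero (zz k b) h0 (hG 0)
    have hdat : ∀ i, i < p → ∃ j, (∀ l, zz k b l / zz k b j ∈ W i) ∧ zz k b j ^ d / F ∈ W i := by
      intro i hi
      obtain ⟨j, hj, hj'⟩ := hG ⟨i, by omega⟩
      refine ⟨j, fun l => ?_, ?_⟩
      · rw [← (W i).valuation_le_one_iff, map_div₀]
        exact div_le_one_of_le₀ (hj l) zero_le
      · rw [← (W i).valuation_le_one_iff, map_div₀, map_pow]
        refine div_le_one_of_le₀ ?_ zero_le
        exact hj'.symm.le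
    choose! j hj hj' using hdat
    let y : ℕ → FractionRing S := fun i => (tauS σ)^[i] (zz k b (j i))
    have hy : ∀ i, y i = ev k S (σ^[i] (b (j i))) := fun i => tauS_ev_iter σ i _
    have hyd : ∀ i, i < p → ∀ s ∈ 𝒜 1, ev k S s / y i ∈ V := by
      intro i hi s hs
      have h1 : σ^[i] (σ^[p - i] s) = s := by
        rw [← Function.iterate_add_apply, Nat.add_sub_cancel' hi.le, hσp]
      have h2 := div_mem 𝒜 b hb hgen (W i) (hWk i) (zz k b (j i)) (hj i hi) 1 (σ^[p - i] s)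
        (iter_mem 𝒜 σ hσh _ 1 s hs)
      rw [pow_one, hW, tauS_div_iter, tauS_ev_iter, h1] at h2
      exact h2
    have hyn : ∀ (n : ℕ) (s : S), s ∈ 𝒜 n → ev k S s / y 0 ^ n ∈ V := fun n s hs =>
      div_mem 𝒜 b hb hgen V hV (y 0) (fun i => hyd 0 hp0 _ (hb i)) n s hs
    have hyF : ∀ i, i < p → y 0 ^ d / (tauS σ)^[i] F ∈ V := by
      intro i hi
      have h1 : y 0 / y i ∈ V := by
        rw [hy 0]
        exact hyd i hi _ (iter_mem 𝒜 σ hσh _ 1 _ (hb _))
      have h2 : y i ^ d / (tauS σ)^[i] F ∈ V := by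
        have h3 := hj' i hi
        rw [hW, tauS_div_iter] at h3
        have h4 : (tauS σ)^[i] (zz k b (j i) ^ d) = y i ^ d := by
          rw [← tauS_pow_apply, map_pow, tauS_pow_apply]
        rwa [h4] at h3
      have hyi : y i ≠ 0 := by
        rw [hy]
        exact ev_ne (iter_ne σ i _ (hb0 _))
      have h5 : y 0 ^ d / (tauS σ)^[i] F = (y 0 / y i) ^ d * (y i ^ d / (tauS σ)^[i] F) := by
        rw [div_pow]
        field_simp
      rw [h5]
      exact V.mul_mem _ _ (pow_mem h1 d) h2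
    refine ⟨⟨F, hF, hF0⟩, ?_⟩
    rintro _ ⟨n, s, hs, rfl⟩
    have hy0 : y 0 ≠ 0 := by
      rw [hy]
      exact ev_ne (iter_ne σ 0 _ (hb0 _))
    have h1 : y 0 ^ (p * d) / ev k S (nrm σ p (f ⟨F, hF, hF0⟩)) ∈ V := by
      have h2 : y 0 ^ (p * d) / ev k S (nrm σ p (f ⟨F, hF, hF0⟩)) =
          ∏ i ∈ Finset.range p, (y 0 ^ d / (tauS σ)^[i] F) := by
        rw [ev_nrm, hfe, Finset.prod_div_distrib, Finset.prod_const, Finset.card_range, ← pow_mul,
          mul_comm d p]
      rw [h2]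
      exact prod_mem fun i hi => hyF i (Finset.mem_range.1 hi)
    have h2 : ev k S s / ev k S (nrm σ p (f ⟨F, hF, hF0⟩)) ^ n =
        (ev k S s / y 0 ^ (n * (p * d))) *
          (y 0 ^ (p * d) / ev k S (nrm σ p (f ⟨F, hF, hF0⟩))) ^ n := by
      rw [div_pow, ← pow_mul, mul_comm (p * d) n]
      field_simp
    rw [h2]
    exact V.mul_mem _ _ (hyn _ s hs) (pow_mem h1 n)

end cover

end Pool.Agent.U197.SF
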