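import Pool.Agent.U197.SF.C4

/-!
Resolution of the quotients of smooth projective varieties by automorphisms of order `p` and by
`p`-closed derivations with mild zeros.
-/

set_option autoImplicit false
set_option linter.unusedSectionVars false

open AlgebraicGeometry CategoryTheory
open Pool.Agent.H920R2 Pool.Agent.H519R3.RS Pool.Agent.N98.PJ Pool.Agent.U197.PQ

namespace Pool.Agent.U197.SF

section proper

variable {k S : Type} [Field k] [CommRing S] [IsDomain S] [Algebra k S] (𝒜 : ℕ → Submodule k S)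
  [GradedAlgebra 𝒜] {m : ℕ} (b : Fin (m + 1) → S) (hb : ∀ i, b i ∈ 𝒜 1)
  (hgen : Algebra.adjoin k (Set.range b) = ⊤) (C : Subalgebra k S) [GradedAlgebra (piece 𝒜 C)]

include hb hgen in
lemma zero_bij : Function.Bijective (algebraMap k (piece 𝒜 C 0)) := by
  constructor
  · intro x y hxy
    have h1 : algebraMap k S x = algebraMap k S y :=
      congrArg (fun z : piece 𝒜 C 0 => ((z : C) : S)) hxy
    exact (algebraMap k S).injective h1
  · rintro ⟨f, hf⟩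
    obtain ⟨P, hP, hPf⟩ := exists_form 𝒜 b hb hgen 0 (f : S) hf
    rw [← MvPolynomial.totalDegree_zero_iff_isHomogeneous,
      MvPolynomial.totalDegree_eq_zero_iff_eq_C] at hP
    rw [hP, MvPolynomial.aeval_C] at hPf
    exact ⟨_, Subtype.ext (Subtype.ext hPf)⟩

/-- The quotient is a projective variety with a resolution of singularities. -/
def RsvG : Prop :=
  AlgebraicGeometry.IsIntegral (Proj (piece 𝒜 C)) ∧ IsProper (str (piece 𝒜 C)) ∧
  ∃ (Y : Scheme.{0}) (π : Y ⟶ Proj (piece 𝒜 C)), AlgebraicGeometry.IsIntegral Y ∧ IsProper π ∧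
    AlgebraicGeometry.Smooth (π ≫ str (piece 𝒜 C)) ∧
    ∃ U : (Proj (piece 𝒜 C)).Opens, Dense (U : Set (Proj (piece 𝒜 C))) ∧ IsIso (π ∣_ U)

include hb hgen in
lemma rsvG_of [Algebra.FiniteType k C] {e : ℕ} (he : e ≠ 0) (a : C) (ha : a ∈ piece 𝒜 C e)
    (ha0 : a ≠ 0)
    (h : ∃ (Y : Scheme.{0}) (π : Y ⟶ Proj (piece 𝒜 C)), AlgebraicGeometry.IsIntegral Y ∧
      IsProper π ∧ AlgebraicGeometry.Smooth (π ≫ str (piece 𝒜 C)) ∧
      ∃ U : (Proj (piece 𝒜 C)).Opens, (U : Set (Proj (piece 𝒜 C))).Nonempty ∧ IsIso (π ∣_ U)) :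
    RsvG 𝒜 C := by
  have hint : AlgebraicGeometry.IsIntegral (Proj (piece 𝒜 C)) :=
    proj_integral (piece 𝒜 C) he a ha ha0
  refine ⟨hint, isProper_gen (piece 𝒜 C) (zero_bij 𝒜 b hb hgen C), ?_⟩
  obtain ⟨Y, π, h1, h2, h3, U, hU, h4⟩ := h
  exact ⟨Y, π, h1, h2, h3, U, U.isOpen.dense hU, h4⟩

end proper

section sig

variable {k S : Type} [Field k] [CommRing S] [IsDomain S] [Algebra k S] (𝒜 : ℕ → Submodule k S)
  [GradedAlgebra 𝒜] {m : ℕ} (b : Fin (m + 1) → S) (hb : ∀ i, b i ∈ 𝒜 1) (hb0 : ∀ i, b i ≠ 0)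
  (hgen : Algebra.adjoin k (Set.range b) = ⊤)
  {p : ℕ} [hp : Fact p.Prime] [CharP k p] (σ : S ≃ₐ[k] S)

/-- The functions of one chart divided by those of another chart. -/
lemma ratio_mem {D : ℕ} (h h' : S) (hh : h ∈ 𝒜 D) (h0 : h ≠ 0) (hh' : h' ∈ 𝒜 D) :
    ev k S h' / ev k S h ∈ ch 𝒜 h D hh h0 :=
  ⟨1, h', by rw [one_mul]; exact hh', by rw [pow_one]⟩

lemma ratio_pow {D : ℕ} (h h' : S) (hh : h ∈ 𝒜 D) (h0 : h ≠ 0) (hh' : h' ∈ 𝒜 D) (h0' : h' ≠ 0)
    (x : FractionRing S) (hx : x ∈ ch 𝒜 h' D hh' h0') :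
    ∃ n : ℕ, (ev k S h' / ev k S h) ^ n * x ∈ ch 𝒜 h D hh h0 := by
  obtain ⟨i, s, hs, rfl⟩ := hx
  refine ⟨i, i, s, hs, ?_⟩
  have h1 := ev_ne (k := k) h0
  have h2 := ev_ne (k := k) h0'
  rw [div_pow]
  field_simp

include hb hb0 hgen in
/-- An automorphism of order `p` which fixes the functions of a chart is trivial. -/
lemma exists_moved (hσh : ∀ n, ∀ s ∈ 𝒜 n, σ s ∈ 𝒜 n) (hσp : ∀ s, σ^[p] s = s)
    (hσ1 : ∃ s, σ s ≠ s) {D : ℕ} (hD : 0 < D) (h : S) (hh : h ∈ 𝒜 D) (h0 : h ≠ 0) :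
    ∃ x ∈ ch 𝒜 h D hh h0, tauS σ x ≠ x := by
  by_contra hcon
  push Not at hcon
  obtain ⟨e, rfl⟩ : ∃ e, D = e + 1 := ⟨D - 1, by omega⟩
  have hh0 := ev_ne (k := k) h0
  have h1 : ∀ n (s t : S), s ∈ 𝒜 n → t ∈ 𝒜 n → t ≠ 0 →
      tauS σ (ev k S s / ev k S t) = ev k S s / ev k S t := by
    intro n s t hs ht ht0
    have ht0' := ev_ne (k := k) ht0
    have h2 : ev k S (s * t ^ e) / ev k S h ^ n ∈ ch 𝒜 h (e + 1) hh h0 := by
      refine ⟨n, s * t ^ e, ?_, rfl⟩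
      have := SetLike.mul_mem_graded hs (SetLike.pow_mem_graded e ht)
      rwa [smul_eq_mul, show n + e * n = n * (e + 1) by ring] at this
    have h3 : ev k S (t ^ (e + 1)) / ev k S h ^ n ∈ ch 𝒜 h (e + 1) hh h0 := by
      refine ⟨n, t ^ (e + 1), ?_, rfl⟩
      have := SetLike.pow_mem_graded (e + 1) ht
      rwa [smul_eq_mul, mul_comm] at this
    have h4 : ev k S s / ev k S t = (ev k S (s * t ^ e) / ev k S h ^ n) /
        (ev k S (t ^ (e + 1)) / ev k S h ^ n) := by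
      rw [map_mul, map_pow, map_pow, pow_succ]
      field_simp
    rw [h4, map_div₀, hcon _ h2, hcon _ h3]
  have hb0' := ev_ne (k := k) (hb0 0)
  have hσb : σ (b 0) ∈ 𝒜 1 := hσh _ _ (hb 0)
  have hc := h1 1 _ _ hσb (hb 0) (hb0 0)
  have h2 : ∀ n : ℕ, ev k S (σ^[n] (b 0)) = (ev k S (σ (b 0)) / ev k S (b 0)) ^ n * ev k S (b 0) := by
    intro n
    induction n with
    | zero => simp
    | succ n ih =>
      rw [Function.iterate_succ_apply', ← tauS_ev, ih, map_mul, map_pow, hc, tauS_ev, pow_succ]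
      field_simp
  have h3 := h2 p
  rw [hσp] at h3
  have h4 : (ev k S (σ (b 0)) / ev k S (b 0)) ^ p = 1 := by
    have h5 : (1 : FractionRing S) * ev k S (b 0) = (ev k S (σ (b 0)) / ev k S (b 0)) ^ p *
      ev k S (b 0) := by rw [one_mul]; exact h3
    exact (mul_right_cancel₀ hb0' h5).symm
  have _ : CharP (FractionRing S) p :=
    charP_of_injective_algebraMap (algebraMap k (FractionRing S)).injective p
  have h5 : ev k S (σ (b 0)) / ev k S (b 0) = 1 := by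
    have h6 : (ev k S (σ (b 0)) / ev k S (b 0) - 1) ^ p = 0 := by
      rw [sub_pow_char, h4, one_pow, sub_self]
    exact sub_eq_zero.1 (pow_eq_zero_iff hp.out.ne_zero |>.1 h6)
  rw [div_eq_one_iff_eq hb0'] at h5
  have h6 : ∀ i, σ (b i) = b i := by
    intro i
    have h7 := h1 1 _ _ (hb i) (hb 0) (hb0 0)
    rw [map_div₀, tauS_ev, tauS_ev, h5] at h7
    have h8 := (div_left_inj' hb0').1 h7
    exact ev_inj (k := k) h8
  obtain ⟨s, hs⟩ := hσ1
  apply hs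
  have h7 : (σ : S →ₐ[k] S) = AlgHom.id k S := by
    apply AlgHom.ext_of_adjoin_eq_top hgen
    rintro _ ⟨i, rfl⟩
    exact h6 i
  exact congrArg (fun f => f s) h7

include hb hb0 hgen in
/-- **Quotients by automorphisms.** -/
theorem rsv_sig' (hX : AlgebraicGeometry.Smooth (str 𝒜)) (hσh : ∀ n, ∀ s ∈ 𝒜 n, σ s ∈ 𝒜 n)
    (hσp : ∀ s, σ^[p] s = s) (hσ1 : ∃ s, σ s ≠ s) {l : ℕ} (hl : 0 < l)
    (hm : ∀ (D : ℕ) (h : S) (hh : h ∈ 𝒜 D) (h0 : h ≠ 0), 0 < D → σ h = h →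
      Mild (ch 𝒜 h D hh h0) (fun x => tauS σ x - x) l)
    (C : Subalgebra k S) (hC : ∀ s, s ∈ C ↔ σ s = s) :
    ∃ _ : GradedAlgebra (piece 𝒜 C), RsvG 𝒜 C := by
  classical
  have hpk : (p : k) = 0 := CharP.cast_eq_zero k p
  have hp0 := hp.out.pos
  have hCf : C = fixedAlg σ := by
    ext s
    rw [hC, mem_fixedAlg]
  have hftS : Algebra.FiniteType k S := by
    refine ⟨⟨(Set.finite_range b).toFinset, ?_⟩⟩
    rw [Set.Finite.coe_toFinset, hgen]
  have hft : Algebra.FiniteType k C := by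
    rw [hCf]
    exact finiteType_fixedAlg σ p hp0 hσp
  have hCh : ∀ f ∈ C, ∀ d, GradedAlgebra.proj 𝒜 d f ∈ C := by
    intro f hf d
    rw [hC] at hf ⊢
    have h1 : ∀ f : S, GradedAlgebra.proj 𝒜 d (σ f) = σ (GradedAlgebra.proj 𝒜 d f) := by
      intro f
      conv_lhs => rw [← DirectSum.sum_support_decompose 𝒜 f]
      rw [map_sum, map_sum]
      have h2 : ∀ i, GradedAlgebra.proj 𝒜 d (σ ((DirectSum.decompose 𝒜 f i : 𝒜 i) : S)) =
          if i = d then σ ((DirectSum.decompose 𝒜 f i : 𝒜 i) : S) else 0 := by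
        intro i
        have h3 := hσh i _ (DirectSum.decompose 𝒜 f i).2
        rw [GradedAlgebra.proj_apply]
        split_ifs with h
        · subst h
          rw [DirectSum.decompose_of_mem_same 𝒜 h3]
        · rw [DirectSum.decompose_of_mem_ne 𝒜 h3 h]
      rw [Finset.sum_congr rfl fun i _ => h2 i, Finset.sum_ite_eq']
      rw [GradedAlgebra.proj_apply]
      split_ifs with h4
      · rfl
      · rw [DFinsupp.notMem_support_iff.1 h4]
        exact (map_zero σ).symm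
    rw [← h1, hf]
  refine ⟨grd 𝒜 C hCh, ?_⟩
  let _ := grd 𝒜 C hCh
  obtain ⟨𝒯, h𝒯, D, hD, h, hh, h0, hinv, hcov⟩ := exists_charts 𝒜 b hb hb0 hgen σ hσh hσp
  obtain ⟨a0, -⟩ := hcov ⊤ fun _ => trivial
  have hsmB : ∀ a, Algebra.Smooth k (ch 𝒜 (h a) D (hh a) (h0 a)) := fun a =>
    smooth_ch 𝒜 hX hD (h a) (hh a) (h0 a)
  have hτp := tauS_iter σ hσp
  have hst : ∀ a, ∀ x ∈ ch 𝒜 (h a) D (hh a) (h0 a), tauS σ x ∈ ch 𝒜 (h a) D (hh a) (h0 a) := by
    rintro a _ ⟨i, s, hs, rfl⟩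
    refine ⟨i, σ s, hσh _ _ hs, ?_⟩
    rw [map_div₀, map_pow, tauS_ev, tauS_ev, hinv]
  refine rsvG_of 𝒜 b hb hgen C hD.ne' ⟨h a0, (hC _).2 (hinv a0)⟩ (hh a0)
    (fun h' => h0 a0 (congrArg Subtype.val h')) ?_
  refine resolution_gen 𝒜 hp.out hpk C (fixF (tauS σ)) ?_ hD h hh h0 (fun a => (hC _).2 (hinv a)) ?_
    (fun a d => (zI (ch 𝒜 (h a) D (hh a) (h0 a)) (fun x => tauS σ x - x)).radical ^ d)
    (fun a => isFilt_pow _) ?_ hcov ?_
  · intro s
    rw [mem_fixF, tauS_ev, hC]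
    exact ⟨fun h => ev_inj h, fun h => by rw [h]⟩
  · intro d t ht ht0
    obtain ⟨q, hq⟩ : ∃ q, p = q + 1 := ⟨p - 1, by omega⟩
    refine ⟨_, ∏ i ∈ Finset.range q, σ^[i + 1] t, SetLike.prod_mem_graded 𝒜 (fun _ => d)
      (fun i => σ^[i + 1] t) (fun i _ => iter_mem 𝒜 σ hσh (i + 1) d _ ht), ?_, ?_⟩
    · rw [hC, mul_comm, ← nrm_succ', ← hq]
      exact map_nrm σ p hσp _
    · rw [Finset.prod_ne_zero_iff]
      intro i _
      exact iter_ne σ _ _ ht0
  · intro a a' d f hf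
    have hfix : tauS σ (ev k S (h a') / ev k S (h a)) = ev k S (h a') / ev k S (h a) := by
      rw [map_div₀, tauS_ev, tauS_ev, hinv, hinv]
    refine glue_pow (c := ev k S (h a') / ev k S (h a)) (δA := fun x => tauS σ x - x)
      (δB := fun x => tauS σ x - x) (u := 1) (n0 := 0)
      (ratio_mem 𝒜 (h a) (h a') (hh a) (h0 a) (hh a'))
      (ratio_pow 𝒜 (h a) (h a') (hh a) (h0 a) (hh a') (h0 a')) (fun x => ?_) ?_
      (fun x => (one_mul _).symm) (fun x hx => Subalgebra.sub_mem _ (hst a x hx) hx) d f hf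
    · rw [map_mul, hfix, mul_sub]
    · rw [pow_zero, one_mul]
      exact Subalgebra.one_mem _
  · intro a
    have _ := hsmB a
    exact good_mild_sig hp.out hpk (tauS σ) hτp _ (hst a)
      (exists_moved 𝒜 b hb hb0 hgen σ hσh hσp hσ1 hD (h a) (hh a) (h0 a)) hl
      (hm D (h a) (hh a) (h0 a) hD (hinv a)) _ fun x => Iff.rfl

end sig

end Pool.Agent.U197.SF
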