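import Pool.Agent.U197.SF.C5

/-!
Resolution of the quotients of smooth projective varieties by `p`-closed foliations of rank one
with mild zeros.
-/

set_option autoImplicit false
set_option linter.unusedSectionVars false

open AlgebraicGeometry CategoryTheory
open Pool.Agent.H920R2 Pool.Agent.H519R3.RS Pool.Agent.N98.PJ Pool.Agent.U197.PQ

namespace Pool.Agent.U197.SF

lemma finiteType_of_pow {k S : Type} [Field k] [CommRing S] [Algebra k S]
    [Algebra.FiniteType k S] {p : ℕ} (hp : p ≠ 0) (C : Subalgebra k S) (hC : ∀ s, s ^ p ∈ C) :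
    Algebra.FiniteType k C := by
  have h1 : Algebra.IsIntegral C S := by
    constructor
    intro b
    refine ⟨Polynomial.X ^ p - Polynomial.C ⟨b ^ p, hC b⟩, Polynomial.monic_X_pow_sub_C _ hp, ?_⟩
    rw [Polynomial.eval₂_sub, Polynomial.eval₂_pow, Polynomial.eval₂_X, Polynomial.eval₂_C]
    exact sub_self _
  have h2 : Algebra.FiniteType C S := by
    apply Algebra.FiniteType.of_restrictScalars_finiteType k
  have h3 : Module.Finite C S := Algebra.IsIntegral.finite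
  refine ⟨?_⟩
  refine fg_of_fg_of_fg k C S ?_ h3.1 ?_
  · exact (inferInstance : Algebra.FiniteType k S).1
  · exact Subtype.val_injective

section der

variable {k S : Type} [Field k] [CommRing S] [IsDomain S] [Algebra k S] (𝒜 : ℕ → Submodule k S)
  [GradedAlgebra 𝒜] {m : ℕ} (b : Fin (m + 1) → S) (hb : ∀ i, b i ∈ 𝒜 1) (hb0 : ∀ i, b i ≠ 0)
  (hgen : Algebra.adjoin k (Set.range b) = ⊤)
  {p : ℕ} [hp : Fact p.Prime] [CharP k p]
  (E : Derivation k (FractionRing S) (FractionRing S)) {r : ℕ}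

/-- The chart of a power of a coordinate. -/
lemma ch_pow (z : S) (hz : z ∈ 𝒜 1) (z0 : z ≠ 0) (hz' : z ^ p ∈ 𝒜 p) :
    ch 𝒜 (z ^ p) p hz' (pow_ne_zero p z0) = ch 𝒜 z 1 hz z0 := by
  have hz1 := ev_ne (k := k) z0
  obtain ⟨q, hq⟩ : ∃ q, p = q + 1 := ⟨p - 1, by have := hp.out.pos; omega⟩
  ext x
  constructor
  · rintro ⟨i, s, hs, rfl⟩
    refine ⟨i * p, s, by rwa [mul_one], ?_⟩
    rw [map_pow, ← pow_mul, mul_comm p i]
  · rintro ⟨i, s, hs, rfl⟩
    rw [mul_one] at hs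
    refine ⟨i, s * z ^ (i * q), ?_, ?_⟩
    · have h1 := SetLike.mul_mem_graded hs (SetLike.pow_mem_graded (i * q) hz)
      rwa [smul_eq_mul, mul_one, show i + i * q = i * p by rw [hq]; ring] at h1
    · rw [map_mul, map_pow, map_pow, ← pow_mul, hq, show (q + 1) * i = i + i * q by ring, pow_add]
      field_simp

/-- The derivation on a chart, where the coordinate `z` has no zeros. -/
noncomputable def chD (r : ℕ) (z : S) : Derivation k (FractionRing S) (FractionRing S) :=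
  (ev k S z ^ r)⁻¹ • E

lemma chD_apply (z : S) (x : FractionRing S) : chD E r z x = (ev k S z ^ r)⁻¹ * E x := rfl

variable (hE : ∀ n, ∀ s ∈ 𝒜 n, ∃ t ∈ 𝒜 (n + r), E (ev k S s) = ev k S t)

include hE in
lemma chD_mem (z : S) (hz : z ∈ 𝒜 1) (z0 : z ≠ 0) (x : FractionRing S)
    (hx : x ∈ ch 𝒜 z 1 hz z0) : chD E r z x ∈ ch 𝒜 z 1 hz z0 := by
  have hz1 := ev_ne (k := k) z0
  obtain ⟨n, s, hs, rfl⟩ := hx
  rw [mul_one] at hs
  obtain ⟨t, ht, hst⟩ := hE n s hs
  obtain ⟨w, hw, hzw⟩ := hE 1 z hz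
  rw [chD_apply]
  have h1 : E (ev k S s / ev k S z ^ n) = ev k S (t * z - n • (s * w)) / ev k S z ^ (n + 1) := by
    rw [div_eq_mul_inv, Derivation.leibniz, Derivation.leibniz_inv, Derivation.leibniz_pow, hst,
      hzw, smul_eq_mul, smul_eq_mul, smul_eq_mul, map_sub, map_mul, map_nsmul, map_mul]
    rcases Nat.eq_zero_or_pos n with hn | hn
    · subst hn
      simp only [pow_zero, zero_smul, mul_zero, inv_one, zero_add, pow_one, sub_zero, one_smul]
      field_simp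
    · obtain ⟨n, rfl⟩ : ∃ n', n = n' + 1 := ⟨n - 1, by omega⟩
      rw [Nat.add_sub_cancel, nsmul_eq_mul, nsmul_eq_mul, smul_eq_mul]
      field_simp
      ring
  rw [h1]
  refine ⟨n + 1 + r, t * z - n • (s * w), ?_, ?_⟩
  · rw [mul_one]
    refine Submodule.sub_mem _ ?_ (Submodule.smul_of_tower_mem _ _ ?_)
    · have := SetLike.mul_mem_graded ht hz
      rwa [show n + r + 1 = n + 1 + r by ring] at this
    · have := SetLike.mul_mem_graded hs hw
      rwa [show n + (1 + r) = n + 1 + r by ring] at this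
  · rw [pow_add _ (n + 1) r]
    field_simp

include hb hb0 hgen hE in
/-- **Quotients by foliations.** -/
theorem rsv_der' (hX : AlgebraicGeometry.Smooth (str 𝒜))
    (hE0 : ∃ n, ∃ s ∈ 𝒜 n, ∃ t ∈ 𝒜 n, E (ev k S s / ev k S t) ≠ 0) {l : ℕ}
    (hcl : ∀ (z : S) (hz : z ∈ 𝒜 1) (z0 : z ≠ 0), ∃ φ : FractionRing S,
      ∀ x ∈ ch 𝒜 z 1 hz z0, (chD E r z)^[p] x = φ * chD E r z x)
    (hm : ∀ (z : S) (hz : z ∈ 𝒜 1) (z0 : z ≠ 0), Mild (ch 𝒜 z 1 hz z0) (chD E r z) l)
    (C : Subalgebra k S) (hC : ∀ s, s ∈ C ↔ E (ev k S s) = 0) :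
    ∃ _ : GradedAlgebra (piece 𝒜 C), RsvG 𝒜 C := by
  classical
  have hpk : (p : k) = 0 := CharP.cast_eq_zero k p
  have hp0 := hp.out.pos
  have hpK : ((p : ℕ) : FractionRing S) = 0 := by
    rw [← map_natCast (algebraMap k (FractionRing S)), hpk, map_zero]
  have hpow : ∀ x : FractionRing S, E (x ^ p) = 0 := by
    intro x
    rw [Derivation.leibniz_pow, nsmul_eq_mul, hpK, zero_mul]
  have hpC : ∀ s, s ^ p ∈ C := by
    intro s
    rw [hC, map_pow, hpow]
  have hftS : Algebra.FiniteType k S := by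
    refine ⟨⟨(Set.finite_range b).toFinset, ?_⟩⟩
    rw [Set.Finite.coe_toFinset, hgen]
  have hft : Algebra.FiniteType k C := finiteType_of_pow hp.out.ne_zero C hpC
  have hCh : ∀ f ∈ C, ∀ d, GradedAlgebra.proj 𝒜 d f ∈ C := by
    intro f hf d
    rw [hC] at hf ⊢
    choose! t ht hst using hE
    have h1 : ev k S (∑ i ∈ (DirectSum.decompose 𝒜 f).support,
        t i ((DirectSum.decompose 𝒜 f i : 𝒜 i) : S)) = 0 := by
      rw [← hf]
      conv_rhs => rw [← DirectSum.sum_support_decompose 𝒜 f]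
      rw [map_sum, map_sum, map_sum]
      exact Finset.sum_congr rfl fun i _ => (hst i _ (DirectSum.decompose 𝒜 f i).2).symm
    have h2 : ∑ i ∈ (DirectSum.decompose 𝒜 f).support,
        t i ((DirectSum.decompose 𝒜 f i : 𝒜 i) : S) = 0 :=
      ev_inj (k := k) (h1.trans (map_zero _).symm)
    have h3 := congrArg (GradedAlgebra.proj 𝒜 (d + r)) h2
    rw [map_sum, map_zero] at h3
    have h4 : ∀ i, GradedAlgebra.proj 𝒜 (d + r) (t i ((DirectSum.decompose 𝒜 f i : 𝒜 i) : S)) =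
        if i = d then t i ((DirectSum.decompose 𝒜 f i : 𝒜 i) : S) else 0 := by
      intro i
      have h5 := ht i _ (DirectSum.decompose 𝒜 f i).2
      rw [GradedAlgebra.proj_apply]
      split_ifs with h
      · subst h
        rw [DirectSum.decompose_of_mem_same 𝒜 h5]
      · rw [DirectSum.decompose_of_mem_ne 𝒜 h5 (by omega)]
    rw [Finset.sum_congr rfl fun i _ => h4 i, Finset.sum_ite_eq'] at h3
    rw [GradedAlgebra.proj_apply]
    split_ifs at h3 with h6
    · rw [hst d _ (DirectSum.decompose 𝒜 f d).2, h3, map_zero]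
    · rw [DFinsupp.notMem_support_iff.1 h6]
      exact (congrArg E (map_zero _)).trans (map_zero E)
  refine ⟨grd 𝒜 C hCh, ?_⟩
  let _ := grd 𝒜 C hCh
  have hh : ∀ i, b i ^ p ∈ 𝒜 p := by
    intro i
    have := SetLike.pow_mem_graded p (hb i)
    rwa [smul_eq_mul, mul_one] at this
  have h0 : ∀ i, b i ^ p ≠ 0 := fun i => pow_ne_zero p (hb0 i)
  have heq : ∀ i, ch 𝒜 (b i ^ p) p (hh i) (h0 i) = ch 𝒜 (b i) 1 (hb i) (hb0 i) := fun i =>
    ch_pow 𝒜 (b i) (hb i) (hb0 i) (hh i)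
  have hsmB : ∀ i, Algebra.Smooth k (ch 𝒜 (b i ^ p) p (hh i) (h0 i)) := fun i =>
    smooth_ch 𝒜 hX hp0 _ (hh i) (h0 i)
  have hm' : ∀ i, Mild (ch 𝒜 (b i ^ p) p (hh i) (h0 i)) (chD E r (b i)) l := by
    intro i
    rw [heq]
    exact hm _ (hb i) (hb0 i)
  have hst : ∀ i, ∀ x ∈ ch 𝒜 (b i ^ p) p (hh i) (h0 i),
      chD E r (b i) x ∈ ch 𝒜 (b i ^ p) p (hh i) (h0 i) := by
    intro i
    rw [heq]
    exact fun x hx => chD_mem 𝒜 E hE _ (hb i) (hb0 i) x hx
  have hcl' : ∀ i, ∃ φ : FractionRing S, ∀ x ∈ ch 𝒜 (b i ^ p) p (hh i) (h0 i),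
      (chD E r (b i))^[p] x = φ * chD E r (b i) x := by
    intro i
    rw [heq]
    exact hcl _ (hb i) (hb0 i)
  have hg0 : ∀ i, (ev k S (b i) ^ r)⁻¹ ≠ 0 := fun i =>
    inv_ne_zero (pow_ne_zero r (ev_ne (hb0 i)))
  have hne : ∀ i, ∃ x ∈ ch 𝒜 (b i ^ p) p (hh i) (h0 i), chD E r (b i) x ≠ 0 := by
    intro i
    by_contra hcon
    push Not at hcon
    rw [heq] at hcon
    have hcon' : ∀ x ∈ ch 𝒜 (b i) 1 (hb i) (hb0 i), E x = 0 := by
      intro x hx
      have := hcon x hx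
      rw [chD_apply] at this
      exact (mul_eq_zero.1 this).resolve_left (hg0 i)
    obtain ⟨n, s, hs, t, ht, hst⟩ := hE0
    apply hst
    have hb1 := ev_ne (k := k) (hb0 i)
    have h1 := hcon' (ev k S s / ev k S (b i) ^ n) ⟨n, s, by rwa [mul_one], rfl⟩
    have h2 := hcon' (ev k S t / ev k S (b i) ^ n) ⟨n, t, by rwa [mul_one], rfl⟩
    have h3 : ev k S s / ev k S t = (ev k S s / ev k S (b i) ^ n) *
        (ev k S t / ev k S (b i) ^ n)⁻¹ := by
      rw [← div_eq_mul_inv]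
      field_simp
    rw [h3, Derivation.leibniz, Derivation.leibniz_inv, h1, h2, smul_zero, smul_zero, smul_zero,
      add_zero]
  refine rsvG_of 𝒜 b hb hgen C hp0.ne' ⟨b 0 ^ p, hpC _⟩ (hh 0)
    (fun h' => h0 0 (congrArg Subtype.val h')) ?_
  refine resolution_gen 𝒜 hp.out hpk C (conF E) (fun s => ?_) hp0 (fun i => b i ^ p) hh h0
    (fun i => hpC _) ?_
    (fun i d => (zI (ch 𝒜 (b i ^ p) p (hh i) (h0 i)) (chD E r (b i))).radical ^ d)
    (fun a => isFilt_pow _) ?_ ?_ ?_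
  · rw [mem_conF, hC]
  · intro d t ht ht0
    obtain ⟨q, hq⟩ : ∃ q, p = q + 1 := ⟨p - 1, by omega⟩
    refine ⟨_, t ^ q, SetLike.pow_mem_graded q ht, ?_, pow_ne_zero _ ht0⟩
    rw [← pow_succ', ← hq]
    exact hpC t
  · intro i j d f hf
    have hi1 := ev_ne (k := k) (hb0 i)
    have hj1 := ev_ne (k := k) (hb0 j)
    refine glue_pow (c := ev k S (b j ^ p) / ev k S (b i ^ p)) (δA := chD E r (b i))
      (δB := chD E r (b j)) (u := (ev k S (b i) / ev k S (b j)) ^ r) (n0 := r)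
      (ratio_mem 𝒜 _ _ (hh i) (h0 i) (hh j))
      (ratio_pow 𝒜 _ _ (hh i) (h0 i) (hh j) (h0 j)) (fun x => ?_) ?_
      (fun x => ?_) (hst i) d f hf
    · have h1 : ev k S (b j ^ p) / ev k S (b i ^ p) = (ev k S (b j) / ev k S (b i)) ^ p := by
        rw [map_pow, map_pow, div_pow]
      rw [chD_apply, chD_apply, h1, Derivation.leibniz, hpow, smul_zero, add_zero, smul_eq_mul]
      ring
    · rw [heq]
      obtain ⟨q, hq⟩ : ∃ q, p = q + 1 := ⟨p - 1, by omega⟩
      have h1 : (ev k S (b j ^ p) / ev k S (b i ^ p)) ^ r * (ev k S (b i) / ev k S (b j)) ^ r =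
          (ev k S (b j) / ev k S (b i)) ^ (q * r) := by
        rw [map_pow, map_pow, ← mul_pow, pow_mul, hq]
        congr 1
        rw [pow_succ, pow_succ, div_pow]
        field_simp
      rw [h1]
      exact pow_mem (ratio_mem 𝒜 _ _ (hb i) (hb0 i) (hb j)) _
    · rw [chD_apply, chD_apply, div_pow]
      have h2 := pow_ne_zero r hi1
      have h3 := pow_ne_zero r hj1
      field_simp
  · intro V hV
    exact cover_pow 𝒜 b hb hb0 hgen V hV hh
  · intro i
    have _ := hsmB i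
    exact good_mild_der hp.out hpk (chD E r (b i)) _ (hst i) (hcl' i) (hne i) (hm' i) _ fun x => by
      change E (x : FractionRing S) = 0 ↔ (ev k S (b i) ^ r)⁻¹ * E (x : FractionRing S) = 0
      rw [mul_eq_zero, or_iff_right (hg0 i)]

end der

end Pool.Agent.U197.SF
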