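import Pool.Agent.U197.SF.C6

/-!
Bases of the piece of degree one.
-/

set_option autoImplicit false
set_option linter.unusedSectionVars false

namespace Pool.Agent.U197.SF

variable {k S : Type} [Field k] [CommRing S] [IsDomain S] [Algebra k S] (𝒜 : ℕ → Submodule k S)
  [GradedAlgebra 𝒜]

/-- A basis of the piece of degree one. -/
theorem exists_basis [Module.Finite k (𝒜 1)] (hgen : Algebra.adjoin k (𝒜 1 : Set S) = ⊤)
    (h1 : ∃ s ∈ 𝒜 1, s ≠ 0) : ∃ (m : ℕ) (b : Fin (m + 1) → S), (∀ i, b i ∈ 𝒜 1) ∧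
      (∀ i, b i ≠ 0) ∧ Algebra.adjoin k (Set.range b) = ⊤ := by
  let B := Module.finBasis k (𝒜 1)
  obtain ⟨s, hs, hs0⟩ := h1
  have hpos : 0 < Module.finrank k (𝒜 1) := by
    have : Nontrivial (𝒜 1) := ⟨⟨⟨s, hs⟩, 0, fun h => hs0 (congrArg Subtype.val h)⟩⟩
    exact Module.finrank_pos
  obtain ⟨m, hm⟩ : ∃ m, Module.finrank k (𝒜 1) = m + 1 := ⟨_, (Nat.succ_pred_eq_of_pos hpos).symm⟩
  refine ⟨m, fun i => (B (Fin.cast hm.symm i) : S), fun i => (B _).2, fun i h => ?_, ?_⟩
  · exact B.ne_zero (Fin.cast hm.symm i) (Subtype.ext h)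
  · rw [eq_top_iff, ← hgen]
    refine Algebra.adjoin_le fun x hx => ?_
    have h2 : (⟨x, hx⟩ : 𝒜 1) ∈ Submodule.span k (Set.range B) := B.mem_span _
    have h3 : ∀ y : 𝒜 1, y ∈ Submodule.span k (Set.range B) → (y : S) ∈
        Algebra.adjoin k (Set.range fun i : Fin (m + 1) => (B (Fin.cast hm.symm i) : S)) := by
      intro y hy
      induction hy using Submodule.span_induction with
      | mem x hx =>
        obtain ⟨i, rfl⟩ := hx
        refine Algebra.subset_adjoin ⟨Fin.cast hm i, ?_⟩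
        simp
      | zero => exact Subalgebra.zero_mem _
      | add x y _ _ hx hy => exact Subalgebra.add_mem _ hx hy
      | smul c x _ hx => exact Subalgebra.smul_mem _ hx c
    exact h3 _ h2

/-- If some element is moved, then the piece of degree one is not zero. -/
lemma exists_one {s : S} (hgen : Algebra.adjoin k (𝒜 1 : Set S) = ⊤)
    (hs : s ∉ (⊥ : Subalgebra k S)) : ∃ s ∈ 𝒜 1, s ≠ 0 := by
  by_contra hcon
  push Not at hcon
  apply hs
  have h1 : s ∈ Algebra.adjoin k (𝒜 1 : Set S) := by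
    rw [hgen]
    trivial
  refine Algebra.adjoin_le (fun x hx => ?_) h1
  rw [hcon x hx]
  exact Subalgebra.zero_mem _

end Pool.Agent.U197.SF
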