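import Pool.Agent.U197.SF.B1
import Pool.Agent.R837.FN.Norm

/-!
Regular weighted centres in smooth varieties are homogeneous: the order of vanishing along them is
compatible with powers.
-/

set_option autoImplicit false
set_option linter.unusedSectionVars false

open Pool.Agent.H920R2 Pool.Agent.H519R3.RS

namespace Pool.Agent.U197.SF

/-- The quotient `d / (q + 1)`, rounded up. -/
def cd (q d : ℕ) : ℕ := (d + q) / (q + 1)

lemma cd_le_iff {q d m : ℕ} : cd q d ≤ m ↔ d ≤ (q + 1) * m := by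
  unfold cd
  rw [← Nat.lt_succ_iff, Nat.div_lt_iff_lt_mul (Nat.succ_pos q)]
  have : m.succ * (q + 1) = (q + 1) * m + q + 1 := by
    rw [Nat.succ_eq_add_one]; ring
  rw [this]
  omega

lemma le_cd (q d : ℕ) : d ≤ (q + 1) * cd q d := cd_le_iff.1 le_rfl

lemma cd_mul (q m : ℕ) : cd q ((q + 1) * m) = m := by
  apply le_antisymm
  · exact cd_le_iff.2 le_rfl
  · have := le_cd q ((q + 1) * m)
    exact Nat.le_of_mul_le_mul_left this (Nat.succ_pos q)

lemma cd_mono {q a b : ℕ} (h : a ≤ b) : cd q a ≤ cd q b := cd_le_iff.2 (h.trans (le_cd q b))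

lemma cd_zero (q : ℕ) : cd q 0 = 0 := Nat.le_zero.1 (cd_le_iff.2 (Nat.zero_le _))

lemma cd_one (q : ℕ) : cd q 1 = 1 := by
  apply le_antisymm
  · exact cd_le_iff.2 (by omega)
  · have := le_cd q 1
    by_contra h
    have h0 : cd q 1 = 0 := by omega
    rw [h0] at this
    omega

lemma cd_add (q a b : ℕ) : cd q (a + b) ≤ cd q a + cd q b :=
  cd_le_iff.2 (by rw [mul_add]; exact add_le_add (le_cd q a) (le_cd q b))

lemma cd_add_mul (q a m : ℕ) : cd q (a + (q + 1) * m) = cd q a + m := by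
  apply le_antisymm
  · refine (cd_add q a _).trans ?_
    rw [cd_mul]
  · have h := le_cd q (a + (q + 1) * m)
    by_contra hcon
    push Not at hcon
    have h1 : cd q (a + (q + 1) * m) - m < cd q a ∨ cd q (a + (q + 1) * m) < m := by omega
    have h2 : m ≤ cd q (a + (q + 1) * m) := by
      have := cd_mono (q := q) (show (q + 1) * m ≤ a + (q + 1) * m by omega)
      rwa [cd_mul] at this
    have h3 : cd q a ≤ cd q (a + (q + 1) * m) - m := by
      rw [cd_le_iff, Nat.mul_sub]
      omega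
    omega

variable {k B : Type} [Field k] [CommRing B] [Algebra k B]

/-- The filtration with all weights multiplied by `q + 1`. -/
theorem rwc_scale {F : ℕ → Ideal B} (hF : RegularWeightedCentre k F) (q : ℕ) :
    RegularWeightedCentre k (fun d => F (cd q d)) where
  zero := by rw [cd_zero, hF.zero]
  anti a b h := hF.anti _ _ (cd_mono h)
  mul a b := (hF.mul _ _).trans (hF.anti _ _ (cd_add q a b))
  coord := by
    intro P hP hP1
    rw [cd_one] at hP1
    obtain ⟨f, n, x, w, hf, het, hFd⟩ := hF.coord P hP hP1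
    refine ⟨f, n, x, fun i => (q + 1) * w i, hf, het, fun d => ?_⟩
    rw [hFd]
    congr 1
    ext y
    have h1 : ∀ α : Fin n → ℕ, d ≤ ∑ i, α i * ((q + 1) * w i) ↔ cd q d ≤ ∑ i, α i * w i := by
      intro α
      rw [cd_le_iff, Finset.mul_sum]
      have : ∀ i, α i * ((q + 1) * w i) = (q + 1) * (α i * w i) := fun i => by ring
      simp only [this]
    simp only [Set.mem_setOf_eq, h1]

/-- Powers and the filtration. -/
theorem rwc_pow_mem [IsDomain B] [Algebra.Smooth k B] {F : ℕ → Ideal B}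
    (hF : RegularWeightedCentre k F) {n : ℕ} (hn : n ≠ 0) {d : ℕ} {a : B}
    (ha : a ^ n ∈ F (n * d)) : a ∈ F d := by
  let L := FractionRing B
  let g : B →ₐ[k] L := IsScalarTower.toAlgHom k B L
  have hinj : Function.Injective g := IsFractionRing.injective B L
  have hsm : Algebra.Smooth k (reesF g hF) := smooth_reesF g hinj hF inferInstance
  have hic : IsIntegrallyClosed (reesF g hF) := Pool.Agent.R837.FN.Norm.of_smooth k _
  have h1 : ∀ m : ℕ, (hm (-1) 1 : LP L) ^ m = hm (-(m : ℤ)) 1 := by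
    intro m
    induction m with
    | zero => rw [pow_zero, Nat.cast_zero, neg_zero, hm_one]
    | succ m ih =>
      rw [pow_succ, ih, hm_mul, mul_one]
      congr 1
      push_cast
      ring
  let s : reesF g hF := ⟨hm (-1) 1, s_reesF g hF⟩ ^ d
  let u : reesF g hF := ⟨hm 0 (g a), b_reesF g hF a⟩
  have hs : (s : LP L) = hm (-(d : ℤ)) 1 := by
    change (hm (-1) 1 : LP L) ^ d = _
    exact h1 d
  have h0 : ∀ (m : ℕ) (z : L), (hm 0 z : LP L) ^ m = hm 0 (z ^ m) := by
    intro m z
    induction m with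
    | zero => rw [pow_zero, pow_zero, hm_one]
    | succ m ih => rw [pow_succ, ih, hm_mul, add_zero, pow_succ]
  have hdvd : s ^ n ∣ u ^ n := by
    refine ⟨⟨hm ((n * d : ℕ) : ℤ) (g (a ^ n)), hm_mem_reesF g hF (by
      rw [Int.toNat_natCast]; exact ha)⟩, ?_⟩
    apply Subtype.ext
    change (hm 0 (g a) : LP L) ^ n = (s : LP L) ^ n * hm ((n * d : ℕ) : ℤ) (g (a ^ n))
    rw [h0, hs, map_pow, ← h1, ← pow_mul, h1, hm_mul, one_mul]
    congr 1
    push_cast
    ring
  obtain ⟨y, hy⟩ := (IsIntegrallyClosed.pow_dvd_pow_iff hn).1 hdvd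
  have h2 : (hm (d : ℤ) (g a) : LP L) = y := by
    have h3 : (hm 0 (g a) : LP L) = hm (-(d : ℤ)) 1 * (y : LP L) := by
      rw [← hs]
      exact congrArg Subtype.val hy
    have h4 : (hm (d : ℤ) (g a) : LP L) = hm (d : ℤ) 1 * hm 0 (g a) := by
      rw [hm_mul, one_mul, add_zero]
    rw [h4, h3, ← mul_assoc, hm_mul, one_mul, add_neg_cancel, hm_one, one_mul]
  have h5 : (hm (d : ℤ) (g a) : LP L) ∈ reesF g hF := by
    rw [h2]
    exact y.2
  obtain ⟨b, hb, hb'⟩ := of_hm_mem_reesF g hF h5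
  rw [hinj hb'] at hb
  rwa [Int.toNat_natCast] at hb

/-- Roots and the filtration. -/
theorem rwc_root [IsDomain B] [Algebra.Smooth k B] {F : ℕ → Ideal B}
    (hF : RegularWeightedCentre k F) {q m : ℕ} {a : B} (ha : a ^ (q + 1) ∈ F m) :
    a ∈ F (cd q m) := by
  refine rwc_pow_mem (rwc_scale hF q) (Nat.succ_ne_zero q) (d := m) ?_
  change a ^ (q + 1) ∈ F (cd q ((q + 1) * m))
  rwa [cd_mul]

end Pool.Agent.U197.SF
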