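import Pool.Agent.U197.SF.D9

/-!
Invariant charts around fixed points and around the other points.
-/

set_option autoImplicit false
set_option linter.unusedSectionVars false

open AlgebraicGeometry CategoryTheory
open Pool.Agent.H920R2 Pool.Agent.H519R3.RS Pool.Agent.N98.PJ Pool.Agent.U197.PQ

namespace Pool.Agent.U197.SF

section points

variable {k S : Type} [Field k] [CommRing S] [IsDomain S] [Algebra k S] (𝒜 : ℕ → Submodule k S)
  [GradedAlgebra 𝒜] {m : ℕ} (b : Fin (m + 1) → S) (hb : ∀ i, b i ∈ 𝒜 1) (hb0 : ∀ i, b i ≠ 0)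
  (hgen : Algebra.adjoin k (Set.range b) = ⊤)
  {p : ℕ} [hp : Fact p.Prime] (σ : S ≃ₐ[k] S) (hσh : ∀ n, ∀ s ∈ 𝒜 n, σ s ∈ 𝒜 n)
  (hσp : ∀ s, σ^[p] s = s) (x : ProjectiveSpectrum 𝒜)

include hb hgen in
/-- Some coordinate is not zero at the point. -/
lemma exists_coord_notMem : ∃ i, b i ∉ x.asHomogeneousIdeal := by
  classical
  by_contra hcon
  push Not at hcon
  apply x.not_irrelevant_le
  intro f hf
  change f ∈ x.asHomogeneousIdeal
  have hf' : f ∈ HomogeneousIdeal.irrelevant 𝒜 := hf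
  rw [HomogeneousIdeal.mem_irrelevant_iff, GradedRing.proj_apply] at hf'
  rw [← DirectSum.sum_support_decompose 𝒜 f]
  refine Ideal.sum_mem _ fun d hd => ?_
  rcases Nat.eq_zero_or_pos d with rfl | hd0
  · rw [hf']
    exact Ideal.zero_mem _
  · obtain ⟨P, hP, hPf⟩ := exists_form 𝒜 b hb hgen d _ (DirectSum.decompose 𝒜 f d).2
    rw [← hPf, MvPolynomial.aeval_def, MvPolynomial.eval₂_eq]
    refine Ideal.sum_mem _ fun u hu => Ideal.mul_mem_left _ _ ?_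
    have h2 := hP (MvPolynomial.mem_support_iff.1 hu)
    obtain ⟨i, hi⟩ : ∃ i, u i ≠ 0 := by
      by_contra hcon'
      push Not at hcon'
      have h3 : u = 0 := Finsupp.ext hcon'
      rw [h3, map_zero] at h2
      omega
    have hi' : i ∈ u.support := Finsupp.mem_support_iff.2 hi
    exact Ideal.mem_of_dvd _ (Finset.dvd_prod_of_mem _ hi')
      (Ideal.pow_mem_of_mem _ (hcon i) _ (Nat.pos_of_ne_zero hi))

/-- The point is fixed and `σ` acts trivially on its residue field. -/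
def FixedPt : Prop := ∀ n, ∀ s ∈ 𝒜 n, ∀ t ∈ 𝒜 n, t ∉ x.asHomogeneousIdeal →
  σ t ∉ x.asHomogeneousIdeal ∧ σ s * t - s * σ t ∈ x.asHomogeneousIdeal

variable {x}

include hσh in
lemma tau_mem_lrx (hx : FixedPt 𝒜 σ x) (y : FractionRing S) (hy : y ∈ lrx 𝒜 x) :
    tauS σ y ∈ lrx 𝒜 x := by
  obtain ⟨n, s, hs, t, ht, htx, rfl⟩ := hy
  refine ⟨n, σ s, hσh _ _ hs, σ t, hσh _ _ ht, (hx n s hs t ht htx).1, ?_⟩
  rw [map_div₀, tauS_ev, tauS_ev]

/-- The invariant charts around the point. -/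
def InvCh (x : ProjectiveSpectrum 𝒜) (R : Subalgebra k (FractionRing S)) : Prop :=
  ∃ (D : ℕ) (z : S) (hz : z ∈ 𝒜 D) (z0 : z ≠ 0), 0 < D ∧ σ z = z ∧ z ∉ x.asHomogeneousIdeal ∧
    R = ch 𝒜 z D hz z0

lemma InvCh.loc {R : Subalgebra k (FractionRing S)} (hR : InvCh 𝒜 σ x R) (g : FractionRing S)
    (hg : g ∈ R) (hτ : tauS σ g = g) (hg0 : g ≠ 0) (hgO : g⁻¹ ∈ lrx 𝒜 x) :
    InvCh 𝒜 σ x (locAt R g hg) := by
  obtain ⟨D, z, hz, z0, hD, hσz, hzx, rfl⟩ := hR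
  have hg' := hg
  obtain ⟨i, s, hs, rfl⟩ := hg'
  have hz1 := ev_ne (k := k) z0
  have hs0 : s ≠ 0 := by
    rintro rfl
    rw [map_zero, zero_div] at hg0
    exact hg0 rfl
  have hσs : σ s = s := by
    rw [map_div₀, map_pow, tauS_ev, tauS_ev, hσz, div_left_inj' (pow_ne_zero i hz1)] at hτ
    exact ev_inj (k := k) hτ
  have hzi : z ^ i ∈ 𝒜 (i * D) := SetLike.pow_mem_graded i hz
  have hsx : s ∉ x.asHomogeneousIdeal := by
    refine (inv_mem_iff 𝒜 x hs hzi (pow_notMem 𝒜 x hzx i) hs0).1 ?_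
    rwa [map_pow]
  have hz' : z * s ∈ 𝒜 (D + i * D) := SetLike.mul_mem_graded hz hs
  exact ⟨D + i * D, z * s, hz', mul_ne_zero z0 hs0, by omega, by rw [map_mul, hσz, hσs],
    mul_notMem 𝒜 x hzx hsx, locAt_ch 𝒜 z hz z0 i s hs hs0 hg hz'⟩

lemma InvCh.frac {R : Subalgebra k (FractionRing S)} (hR : InvCh 𝒜 σ x R) (y : FractionRing S)
    (hy : y ∈ lrx 𝒜 x) : ∃ g ∈ R, g ≠ 0 ∧ g⁻¹ ∈ lrx 𝒜 x ∧ y * g ∈ R := by
  obtain ⟨D, z, hz, z0, hD, hσz, hzx, rfl⟩ := hR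
  obtain ⟨n, s, hs, t, ht, htx, rfl⟩ := hy
  obtain ⟨q, rfl⟩ : ∃ q, D = q + 1 := ⟨D - 1, by omega⟩
  have hz1 := ev_ne (k := k) z0
  have ht0 := ne_zero_of_notMem 𝒜 x htx
  have ht1 := ev_ne (k := k) ht0
  have h1 : t ^ (q + 1) ∈ 𝒜 (n * (q + 1)) := by
    have := SetLike.pow_mem_graded (q + 1) ht
    rwa [smul_eq_mul, mul_comm] at this
  have h2 : s * t ^ q ∈ 𝒜 (n * (q + 1)) := by
    have := SetLike.mul_mem_graded hs (SetLike.pow_mem_graded q ht)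
    rwa [smul_eq_mul, show n + q * n = n * (q + 1) by ring] at this
  have h3 : z ^ n ∈ 𝒜 (n * (q + 1)) := SetLike.pow_mem_graded n hz
  refine ⟨ev k S (t ^ (q + 1)) / ev k S z ^ n, ⟨n, _, h1, rfl⟩, ?_, ?_, n, _, h2, ?_⟩
  · exact div_ne_zero (ev_ne (pow_ne_zero _ ht0)) (pow_ne_zero _ hz1)
  · rw [← map_pow]
    exact (inv_mem_iff 𝒜 x h1 h3 (pow_notMem 𝒜 x hzx n) (pow_ne_zero _ ht0)).2
      (pow_notMem 𝒜 x htx _)
  · rw [map_mul, map_pow, map_pow, pow_succ]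
    field_simp

include hb hb0 hgen hσh hσp in
/-- The invariant charts around a fixed point. -/
theorem chartFam (hX : AlgebraicGeometry.Smooth (str 𝒜)) (hx : FixedPt 𝒜 σ x) :
    ChartFam (lrx 𝒜 x) (tauS σ) (InvCh 𝒜 σ x) where
  le := by
    rintro R ⟨D, z, hz, z0, hD, hσz, hzx, rfl⟩
    exact ch_le_lrx 𝒜 x z hz z0 hzx
  sm := by
    rintro R ⟨D, z, hz, z0, hD, hσz, hzx, rfl⟩
    exact smooth_ch 𝒜 hX hD z hz z0
  st := by
    rintro R ⟨D, z, hz, z0, hD, hσz, hzx, rfl⟩ _ ⟨i, s, hs, rfl⟩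
    refine ⟨i, σ s, hσh _ _ hs, ?_⟩
    rw [map_div₀, map_pow, tauS_ev, tauS_ev, hσz]
  loc R hR g hg hτ hg0 hgO := hR.loc 𝒜 σ g hg hτ hg0 hgO
  frac R hR y hy := hR.frac 𝒜 σ y hy
  nonempty := by
    obtain ⟨i, hi⟩ := exists_coord_notMem 𝒜 b hb hgen x
    have h1 : ∀ j, σ^[j] (b i) ∉ x.asHomogeneousIdeal := by
      intro j
      induction j with
      | zero => exact hi
      | succ j ih =>
        rw [Function.iterate_succ_apply']
        have h2 := iter_mem 𝒜 σ hσh j 1 _ (hb i)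
        exact (hx 1 _ h2 _ h2 ih).1
    have h2 : nrm σ p (b i) ∈ 𝒜 p := by
      unfold H920R2.nrm
      have h3 := SetLike.prod_mem_graded 𝒜 (fun _ => 1)
        (fun j => σ^[j] (b i)) (F := Finset.range p) (fun j _ => iter_mem 𝒜 σ hσh j 1 _ (hb i))
      rwa [Finset.sum_const, Finset.card_range, smul_eq_mul, mul_one] at h3
    refine ⟨_, p, nrm σ p (b i), h2, ?_, hp.out.pos, map_nrm σ p hσp _, ?_, rfl⟩
    · unfold H920R2.nrm
      exact Finset.prod_ne_zero_iff.2 fun j _ => iter_ne σ j _ (hb0 i)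
    · unfold H920R2.nrm
      intro hcon
      obtain ⟨j, -, hj⟩ := (Ideal.IsPrime.prod_mem_iff (hp := x.isPrime)).1 hcon
      exact h1 j hj

include hb hb0 hgen hσh hσp in
/-- **Fixed points.** -/
theorem nice_fixed (hX : AlgebraicGeometry.Smooth (str 𝒜)) (hx : FixedPt 𝒜 σ x) {n : ℕ}
    (y : Fin n → FractionRing S) (w : Fin n → ℕ) (l : ℕ) (hy : ∀ i, y i ∈ lrx 𝒜 x)
    (hyΩ : ∃ b : Module.Basis (Fin n) (lrx 𝒜 x) (Ω[lrx 𝒜 x⁄k]),
      ∀ i, b i = KaehlerDifferential.D k (lrx 𝒜 x) ⟨y i, hy i⟩)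
    (h : NDk y w (fun z => tauS σ z - z) l (lrx 𝒜 x)) :
    ∃ (D : ℕ) (z : S), 0 < D ∧ z ∉ x.asHomogeneousIdeal ∧ NiceSig 𝒜 σ l D z := by
  obtain ⟨R, ⟨D, z, hz, z0, hD, hσz, hzx, rfl⟩, F, hF⟩ :=
    spread (chartFam 𝒜 b hb hb0 hgen (p := p) σ hσh hσp hX hx) hp.out.pos (tauS_iter σ hσp)
      (tau_mem_lrx 𝒜 σ hσh hx) hy hyΩ h
  exact ⟨D, z, hD, hzx, hz, z0, hσz, F, hF⟩

end points

end Pool.Agent.U197.SF
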