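import Pool.Agent.U197.SF.D10

/-!
Invariant charts around points which are not fixed; the theorem with conditions at the closed fixed
points.
-/

set_option autoImplicit false
set_option linter.unusedSectionVars false

open AlgebraicGeometry CategoryTheory
open Pool.Agent.H920R2 Pool.Agent.H519R3.RS Pool.Agent.N98.PJ Pool.Agent.U197.PQ

namespace Pool.Agent.U197.SF

section points

variable {k S : Type} [Field k] [CommRing S] [IsDomain S] [Algebra k S] (𝒜 : ℕ → Submodule k S)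
  [GradedAlgebra 𝒜] {m : ℕ} (b : Fin (m + 1) → S) (hb : ∀ i, b i ∈ 𝒜 1) (hb0 : ∀ i, b i ≠ 0)
  (hgen : Algebra.adjoin k (Set.range b) = ⊤)
  {p : ℕ} [hp : Fact p.Prime] (σ : S ≃ₐ[k] S) (hσh : ∀ n, ∀ s ∈ 𝒜 n, σ s ∈ 𝒜 n)
  (hσp : ∀ s, σ^[p] s = s) (x : ProjectiveSpectrum 𝒜)

include hb hb0 hgen hσh hσp in
/-- Every point lies in an invariant chart. -/
lemma exists_inv_chart : ∃ (D : ℕ) (z : S), z ∈ 𝒜 D ∧ z ≠ 0 ∧ 0 < D ∧ σ z = z ∧
    z ∉ x.asHomogeneousIdeal := by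
  obtain ⟨𝒯, _, D, hD, h, hh, h0, hinv, hcov⟩ := exists_charts 𝒜 b hb hb0 hgen σ hσh hσp
  have _ : IsLocalRing (lrx 𝒜 x).toSubring := isLocalRing_lrx 𝒜 x
  let A : LocalSubring (FractionRing S) := ⟨(lrx 𝒜 x).toSubring⟩
  obtain ⟨V, hV, hV'⟩ := A.exists_le_valuationSubring
  obtain ⟨a, ha⟩ := hcov V fun c => hV ((lrx 𝒜 x).algebraMap_mem c)
  obtain ⟨i, hi⟩ := exists_coord_notMem 𝒜 b hb hgen x
  have hbD : b i ^ D ∈ 𝒜 D := by
    have := SetLike.pow_mem_graded D (hb i)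
    rwa [smul_eq_mul, mul_one] at this
  have hu : ev k S (h a) / ev k S (b i ^ D) ∈ lrx 𝒜 x :=
    ⟨D, h a, hh a, b i ^ D, hbD, pow_notMem 𝒜 x hi D, rfl⟩
  have h1 : ev k S (b i ^ D) / ev k S (h a) ∈ V := by
    apply ha
    exact ⟨1, b i ^ D, by rwa [one_mul], by rw [pow_one]⟩
  have h2 : IsUnit (Subring.inclusion hV ⟨_, hu⟩) := by
    refine IsUnit.of_mul_eq_one ⟨_, h1⟩ (Subtype.ext ?_)
    change ev k S (h a) / ev k S (b i ^ D) * (ev k S (b i ^ D) / ev k S (h a)) = 1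
    have h3 := ev_ne (k := k) (h0 a)
    have h4 := ev_ne (k := k) (pow_ne_zero D (hb0 i))
    field_simp
  have h3 : IsUnit (⟨_, hu⟩ : (lrx 𝒜 x).toSubring) := hV'.map_nonunit _ h2
  exact ⟨D, h a, hh a, h0 a, hD, hinv a,
    (unit_iff 𝒜 x (hh a) hbD (pow_notMem 𝒜 x hi D) hu).1 h3⟩

include hb hb0 hgen hσh hσp in
/-- **Points which are not fixed.** -/
theorem nice_nonfixed (hx : ¬ FixedPt 𝒜 σ x) :
    ∃ (D : ℕ) (z : S), 0 < D ∧ z ∉ x.asHomogeneousIdeal ∧ NiceSig 𝒜 σ 1 D z := by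
  classical
  obtain ⟨D, h, hh, h0, hD, hinv, hhx⟩ := exists_inv_chart 𝒜 b hb hb0 hgen σ hσh hσp x
  obtain ⟨q, rfl⟩ : ∃ q, D = q + 1 := ⟨D - 1, by omega⟩
  have hp0 := hp.out.pos
  have hτp := tauS_iter σ hσp
  let B := ch 𝒜 h (q + 1) hh h0
  have hst : ∀ y ∈ B, tauS σ y ∈ B := by
    rintro _ ⟨i, s, hs, rfl⟩
    refine ⟨i, σ s, hσh _ _ hs, ?_⟩
    rw [map_div₀, map_pow, tauS_ev, tauS_ev, hinv]
  have hst' : ∀ y ∈ B, (tauS σ).symm y ∈ B := by
    intro y hy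
    have h1 : (tauS σ).symm y = (tauS σ)^[p - 1] y := by
      rw [AlgEquiv.symm_apply_eq, ← Function.iterate_succ_apply' (tauS σ),
        Nat.succ_eq_add_one, Nat.sub_add_cancel hp.out.one_lt.le, hτp]
    rw [h1]
    exact iter_mem_sub hst _ _ hy
  let s : B ≃ₐ[k] B := resEquiv (tauS σ) B hst hst'
  have hsp : ∀ z : B, s^[p] z = z := by
    intro z
    apply Subtype.ext
    rw [coe_resEquiv_iter, hτp]
  have hspow : ∀ (n : ℕ) (z : B), (s ^ n) z = s^[n] z := by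
    intro n
    induction n with
    | zero => intro z; rfl
    | succ n ih =>
      intro z
      rw [Function.iterate_succ_apply, ← ih, pow_succ]
      rfl
  have hle : B ≤ lrx 𝒜 x := ch_le_lrx 𝒜 x h hh h0 hhx
  let P : Ideal B := (IsLocalRing.maximalIdeal (lrx 𝒜 x)).comap (Subalgebra.inclusion hle)
  have hPp : P.IsPrime := inferInstance
  have hP : ∀ (i : ℕ) (a : S) (ha : a ∈ 𝒜 (i * (q + 1))) (hy : ev k S a / ev k S h ^ i ∈ B),
      (⟨_, hy⟩ : B) ∈ P ↔ a ∈ x.asHomogeneousIdeal := by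
    intro i a ha hy
    have h1 : h ^ i ∈ 𝒜 (i * (q + 1)) := SetLike.pow_mem_graded i hh
    have h2 : ev k S a / ev k S (h ^ i) ∈ lrx 𝒜 x :=
      ⟨i * (q + 1), a, ha, h ^ i, h1, pow_notMem 𝒜 x hhx i, rfl⟩
    have h3 := unit_iff 𝒜 x ha h1 (pow_notMem 𝒜 x hhx i) h2
    rw [Ideal.mem_comap, IsLocalRing.mem_maximalIdeal, mem_nonunits_iff]
    have h4 : Subalgebra.inclusion hle ⟨_, hy⟩ = ⟨_, h2⟩ := by
      apply Subtype.ext
      change ev k S a / ev k S h ^ i = ev k S a / ev k S (h ^ i)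
      rw [map_pow]
    rw [h4, h3, not_not]
  -- an element of the ideal of zeros outside the prime
  have hc0 : ∃ c ∈ zI B (fun y => tauS σ y - y), c ∉ P := by
    unfold FixedPt at hx
    push Not at hx
    obtain ⟨n, s', hs', t, ht, htx, hf⟩ := hx
    have ht1 : t ^ (q + 1) ∈ 𝒜 (n * (q + 1)) := by
      have := SetLike.pow_mem_graded (q + 1) ht
      rwa [smul_eq_mul, mul_comm] at this
    have hs1 : s' * t ^ q ∈ 𝒜 (n * (q + 1)) := by
      have := SetLike.mul_mem_graded hs' (SetLike.pow_mem_graded q ht)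
      rwa [smul_eq_mul, show n + q * n = n * (q + 1) by ring] at this
    let t1 : B := ⟨ev k S (t ^ (q + 1)) / ev k S h ^ n, n, _, ht1, rfl⟩
    let s1 : B := ⟨ev k S (s' * t ^ q) / ev k S h ^ n, n, _, hs1, rfl⟩
    have hd : ∀ y : B, s y - y ∈ zI B (fun y => tauS σ y - y) := fun y =>
      Ideal.subset_span ⟨y, rfl⟩
    have hh1 := ev_ne (k := k) h0
    by_cases hσt : σ t ∈ x.asHomogeneousIdeal
    · refine ⟨s t1 - t1, hd t1, ?_⟩
      have h1 : ev k S (σ t ^ (q + 1) - t ^ (q + 1)) / ev k S h ^ n = ((s t1 - t1 : B) : FractionRing S) := by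
        change _ = tauS σ (ev k S (t ^ (q + 1)) / ev k S h ^ n) - ev k S (t ^ (q + 1)) / ev k S h ^ n
        simp only [map_div₀, map_pow, map_mul, map_sub, tauS_ev, hinv]
        rw [sub_div]
      have h2 : σ t ^ (q + 1) - t ^ (q + 1) ∈ 𝒜 (n * (q + 1)) := by
        refine Submodule.sub_mem _ ?_ ht1
        have := SetLike.pow_mem_graded (q + 1) (hσh _ _ ht)
        rwa [smul_eq_mul, mul_comm] at this
      have h3 : ev k S (σ t ^ (q + 1) - t ^ (q + 1)) / ev k S h ^ n ∈ B := ⟨n, _, h2, rfl⟩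
      have h4 : (s t1 - t1 : B) = ⟨_, h3⟩ := Subtype.ext h1.symm
      rw [h4, hP n _ h2]
      intro hcon
      apply htx
      have h5 : σ t ^ (q + 1) ∈ x.asHomogeneousIdeal :=
        Ideal.pow_mem_of_mem _ hσt _ (Nat.succ_pos q)
      have h6 : t ^ (q + 1) ∈ x.asHomogeneousIdeal := by
        have := Ideal.sub_mem _ h5 hcon
        rwa [sub_sub_cancel] at this
      exact x.isPrime.mem_of_pow_mem _ h6
    · have hfx := hf hσt
      refine ⟨(s s1 - s1) * t1 - s1 * (s t1 - t1), Ideal.sub_mem _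
        (Ideal.mul_mem_right _ _ (hd s1)) (Ideal.mul_mem_left _ _ (hd t1)), ?_⟩
      have h1 : ev k S ((t * σ t) ^ q * (σ s' * t - s' * σ t)) / ev k S h ^ (n + n) =
          (((s s1 - s1) * t1 - s1 * (s t1 - t1) : B) : FractionRing S) := by
        change _ = (tauS σ (ev k S (s' * t ^ q) / ev k S h ^ n) - ev k S (s' * t ^ q) / ev k S h ^ n) *
          (ev k S (t ^ (q + 1)) / ev k S h ^ n) - (ev k S (s' * t ^ q) / ev k S h ^ n) *
          (tauS σ (ev k S (t ^ (q + 1)) / ev k S h ^ n) - ev k S (t ^ (q + 1)) / ev k S h ^ n)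
        simp only [map_div₀, map_pow, map_mul, map_sub, tauS_ev, hinv]
        rw [pow_add]
        field_simp
        ring
      have h2 : (t * σ t) ^ q * (σ s' * t - s' * σ t) ∈ 𝒜 ((n + n) * (q + 1)) := by
        have h3 := SetLike.mul_mem_graded (SetLike.pow_mem_graded q
          (SetLike.mul_mem_graded ht (hσh _ _ ht))) (Submodule.sub_mem _
          (SetLike.mul_mem_graded (hσh _ _ hs') ht) (SetLike.mul_mem_graded hs' (hσh _ _ ht)))
        have h4 : q • (n + n) + (n + n) = (n + n) * (q + 1) := by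
          rw [smul_eq_mul]
          ring
        rwa [h4] at h3
      have h3 : ev k S ((t * σ t) ^ q * (σ s' * t - s' * σ t)) / ev k S h ^ (n + n) ∈ B :=
        ⟨n + n, _, h2, rfl⟩
      have h4 : ((s s1 - s1) * t1 - s1 * (s t1 - t1) : B) = ⟨_, h3⟩ := Subtype.ext h1.symm
      rw [h4, hP (n + n) _ h2]
      exact mul_notMem 𝒜 x (pow_notMem 𝒜 x (mul_notMem 𝒜 x htx hσt) q) hfx
  obtain ⟨c0, hc0, hc0P⟩ := hc0
  have hzs : ∀ c ∈ zI B (fun y => tauS σ y - y), s c ∈ zI B (fun y => tauS σ y - y) := by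
    intro c hc
    have h1 : zI B (fun y => tauS σ y - y) ≤ (zI B (fun y => tauS σ y - y)).comap
        (s : B →+* B) := by
      conv_lhs => unfold zI
      rw [Ideal.span_le]
      rintro y ⟨c, hc⟩
      refine Ideal.subset_span ⟨s c, ?_⟩
      change tauS σ (y : FractionRing S) = tauS σ (tauS σ c) - tauS σ c
      rw [hc, map_sub]
    exact h1 hc
  have hzi : ∀ (n : ℕ), ∀ c ∈ zI B (fun y => tauS σ y - y),
      (s ^ n) c ∈ zI B (fun y => tauS σ y - y) := by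
    intro n c hc
    rw [hspow]
    induction n with
    | zero => exact hc
    | succ n ih => rw [Function.iterate_succ_apply']; exact hzs _ ih
  obtain ⟨c, hc, hcP⟩ : ∃ c ∈ zI B (fun y => tauS σ y - y), ∀ j < p, (s ^ j) c ∉ P := by
    by_contra hcon
    push Not at hcon
    have h1 : (zI B (fun y => tauS σ y - y) : Set B) ⊆
        ⋃ j ∈ (↑(Finset.range p) : Set ℕ), (P.comap ((s ^ j : B ≃ₐ[k] B) : B →+* B) : Set B) := by
      intro c hc
      obtain ⟨j, hj, hj'⟩ := hcon c hc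
      rw [Set.mem_iUnion₂]
      exact ⟨j, Finset.mem_coe.2 (Finset.mem_range.2 hj), hj'⟩
    rw [Ideal.subset_union_prime 0 0 (fun i _ _ _ => Ideal.IsPrime.comap _)] at h1
    obtain ⟨j, hj, hj'⟩ := h1
    apply hc0P
    have h2 := hj' (hzi ((p - 1) * j) c0 hc0)
    rw [Ideal.mem_comap] at h2
    have h3 : ((s ^ j : B ≃ₐ[k] B) : B →+* B) ((s ^ ((p - 1) * j)) c0) = c0 := by
      change (s ^ j) ((s ^ ((p - 1) * j)) c0) = c0
      have h4 : (s ^ j) ((s ^ ((p - 1) * j)) c0) = (s ^ (j + (p - 1) * j)) c0 := by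
        rw [pow_add]; rfl
      have h5 : j + (p - 1) * j = p * j := by
        obtain ⟨r, hr⟩ : ∃ r, p = r + 1 := ⟨p - 1, by omega⟩
        rw [hr, Nat.add_sub_cancel]
        ring
      have h6 : s ^ p = 1 := AlgEquiv.ext fun z => by rw [hspow, hsp]; rfl
      rw [h4, h5, pow_mul, h6, one_pow]
      rfl
    rwa [h3] at h2
  -- the norm
  let N : B := nrm s p c
  have hsN : s N = N := map_nrm s p hsp c
  have hNP : N ∉ P := by
    intro hcon
    obtain ⟨j, hj, hj'⟩ := (Ideal.IsPrime.prod_mem_iff (hp := hPp)).1 hcon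
    apply hcP j (Finset.mem_range.1 hj)
    rwa [hspow]
  have hNz : N ∈ zI B (fun y => tauS σ y - y) := by
    obtain ⟨r, hr⟩ : ∃ r, p = r + 1 := ⟨p - 1, by omega⟩
    have h1 : N = (∏ i ∈ Finset.range r, s^[i + 1] c) * c := by
      change nrm s p c = _
      rw [hr, nrm_succ']
    rw [h1]
    exact Ideal.mul_mem_left _ _ hc
  have hN0 : (N : FractionRing S) ≠ 0 := by
    intro hcon
    apply hNP
    have h1 : N = 0 := Subtype.ext hcon
    rw [h1]
    exact P.zero_mem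
  have hNinv : (N : FractionRing S)⁻¹ ∈ lrx 𝒜 x := by
    rw [Ideal.mem_comap, IsLocalRing.mem_maximalIdeal, mem_nonunits_iff, not_not] at hNP
    obtain ⟨y, hy⟩ := hNP.exists_right_inv
    have h1 : (N : FractionRing S) * (y : FractionRing S) = 1 := congrArg Subtype.val hy
    rw [inv_eq_of_mul_eq_one_right h1]
    exact y.2
  have hR := InvCh.loc 𝒜 σ (x := x) (R := B) ⟨q + 1, h, hh, h0, hD, hinv, hhx, rfl⟩
    (N : FractionRing S) N.2 (congrArg Subtype.val hsN) hN0 hNinv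
  obtain ⟨D', z, hz, z0, hD', hσz, hzx, hReq⟩ := hR
  refine ⟨D', z, hD', hzx, hz, z0, hσz, ?_⟩
  rw [← hReq]
  have hztop : zI (locAt B (N : FractionRing S) N.2) (fun y => tauS σ y - y) = ⊤ := by
    have h1 : (⟨N, le_locAt _ _ _ N.2⟩ : locAt B (N : FractionRing S) N.2) ∈
        zI (locAt B (N : FractionRing S) N.2) (fun y => tauS σ y - y) := by
      have h2 : zI B (fun y => tauS σ y - y) ≤
          (zI (locAt B (N : FractionRing S) N.2) (fun y => tauS σ y - y)).comap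
            (Subalgebra.inclusion (le_locAt B (N : FractionRing S) N.2)) := by
        conv_lhs => unfold zI
        rw [Ideal.span_le]
        rintro y ⟨c, hc⟩
        exact Ideal.subset_span ⟨Subalgebra.inclusion (le_locAt B (N : FractionRing S) N.2) c, hc⟩
      exact h2 hNz
    refine Ideal.eq_top_of_isUnit_mem _ h1 ?_
    exact IsUnit.of_mul_eq_one ⟨_, inv_mem_locAt B _ N.2 hN0⟩ (Subtype.ext (mul_inv_cancel₀ hN0))
  refine ⟨fun _ => ⊤, ⟨⟨rfl, fun _ _ _ => le_rfl, fun _ _ => le_top, ?_⟩, fun _ _ _ _ _ => trivial,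
    ?_, fun d _ a _ => ⟨0, Ideal.mem_sup_left trivial⟩⟩⟩
  · intro P' hP' hP1
    exact absurd (top_le_iff.1 hP1) hP'.ne_top
  · rw [hztop, Ideal.radical_top]

/-- Every point specializes to a closed point. -/
lemma exists_closed [IsNoetherianRing S] : ∃ y : ProjectiveSpectrum 𝒜, x ≤ y ∧
    IsClosed ({y} : Set (ProjectiveSpectrum 𝒜)) := by
  have hwf : WellFounded ((· > ·) : Ideal S → Ideal S → Prop) := wellFounded_gt
  have hwf' := InvImage.wf (fun y : ProjectiveSpectrum 𝒜 => y.asHomogeneousIdeal.toIdeal) hwf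
  obtain ⟨y, hy, hmax⟩ := hwf'.has_min {y : ProjectiveSpectrum 𝒜 | x ≤ y} ⟨x, le_refl x⟩
  refine ⟨y, hy, ?_⟩
  rw [← closure_eq_iff_isClosed]
  refine Set.Subset.antisymm (fun z hz => ?_) subset_closure
  rw [← ProjectiveSpectrum.le_iff_mem_closure] at hz
  by_contra hne
  have h1 : y < z := lt_of_le_of_ne hz fun h => hne h.symm
  exact hmax z (le_trans hy hz) h1

end points

section main

variable {k S : Type} [Field k] [CommRing S] [IsDomain S] [Algebra k S] (𝒜 : ℕ → Submodule k S)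
  [GradedAlgebra 𝒜] {m : ℕ} (b : Fin (m + 1) → S) (hb : ∀ i, b i ∈ 𝒜 1) (hb0 : ∀ i, b i ≠ 0)
  (hgen : Algebra.adjoin k (Set.range b) = ⊤)
  {p : ℕ} [hp : Fact p.Prime] [CharP k p] (σ : S ≃ₐ[k] S)

include hb hb0 hgen in
/-- **The theorem**, with conditions at the closed fixed points. -/
theorem rsv_pt (hX : AlgebraicGeometry.Smooth (str 𝒜)) (hσh : ∀ n, ∀ s ∈ 𝒜 n, σ s ∈ 𝒜 n)
    (hσp : ∀ s, σ^[p] s = s) (hσ1 : ∃ s, σ s ≠ s)
    (hpt : ∀ x : ProjectiveSpectrum 𝒜, IsClosed ({x} : Set (ProjectiveSpectrum 𝒜)) →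
      FixedPt 𝒜 σ x → ∃ (n : ℕ) (y : Fin n → FractionRing S) (w : Fin n → ℕ) (l : ℕ)
        (hy : ∀ i, y i ∈ lrx 𝒜 x), 0 < l ∧
        (∃ b : Module.Basis (Fin n) (lrx 𝒜 x) (Ω[lrx 𝒜 x⁄k]),
          ∀ i, b i = KaehlerDifferential.D k (lrx 𝒜 x) ⟨y i, hy i⟩) ∧
        NDk y w (fun z => tauS σ z - z) l (lrx 𝒜 x))
    (C : Subalgebra k S) (hC : ∀ s, s ∈ C ↔ σ s = s) :
    ∃ _ : GradedAlgebra (piece 𝒜 C), RsvG 𝒜 C := by
  have hftS : Algebra.FiniteType k S := by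
    refine ⟨⟨(Set.finite_range b).toFinset, ?_⟩⟩
    rw [Set.Finite.coe_toFinset, hgen]
  have hnoe : IsNoetherianRing S := Algebra.FiniteType.isNoetherianRing k S
  refine rsv_sigW 𝒜 b hb hb0 hgen σ hX hσh hσp hσ1 (fun x => ?_) C hC
  obtain ⟨y, hxy, hcl⟩ := exists_closed 𝒜 x
  have hle : ∀ z, z ∉ y.asHomogeneousIdeal → z ∉ x.asHomogeneousIdeal := fun z hz hzx =>
    hz (hxy hzx)
  by_cases hf : FixedPt 𝒜 σ y
  · obtain ⟨n, t, w, l, ht, hl, hΩ, h⟩ := hpt y hcl hf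
    obtain ⟨D, z, hD, hz, hn⟩ := nice_fixed 𝒜 b hb hb0 hgen σ hσh hσp hX hf t w l ht hΩ h
    exact ⟨l, D, z, hl, hD, hle z hz, hn⟩
  · obtain ⟨D, z, hD, hz, hn⟩ := nice_nonfixed 𝒜 b hb hb0 hgen σ hσh hσp y hf
    exact ⟨1, D, z, one_pos, hD, hle z hz, hn⟩

end main

end Pool.Agent.U197.SF
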