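import Pool.Agent.U197.SF.D11

/-!
Isolated fixed points with nondegenerate leading forms.
-/

set_option autoImplicit false
set_option linter.unusedSectionVars false

open KaehlerDifferential TensorProduct
open Pool.Agent.H920R2 Pool.Agent.H519R3.RS Pool.Agent.N98.PJ

namespace Pool.Agent.U197.SF

section loc

variable {k O : Type} [Field k] [CommRing O] [IsLocalRing O] [Algebra k O]

/-- Parameters of a smooth local ring with the residue field `k` are étale coordinates. -/
theorem basis_of_params [Algebra.FormallySmooth k O] [Algebra.EssFiniteType k O] {n : ℕ}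
    (y : Fin n → O) (hrat : ∀ a : O, ∃ c : k, a - algebraMap k O c ∈ IsLocalRing.maximalIdeal O)
    (hgen : Ideal.span (Set.range y) = IsLocalRing.maximalIdeal O)
    (hind : ∀ c : Fin n → k, ∑ i, c i • y i ∈ IsLocalRing.maximalIdeal O ^ 2 → c = 0) :
    ∃ b : Module.Basis (Fin n) O (Ω[O⁄k]), ∀ i, b i = D k O (y i) := by
  classical
  let κ := IsLocalRing.ResidueField O
  have hs : Function.Surjective (algebraMap O κ) := IsLocalRing.residue_surjective
  have hker : RingHom.ker (algebraMap O κ) = IsLocalRing.maximalIdeal O :=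
    IsLocalRing.ker_residue
  have hbij : Function.Bijective (algebraMap k κ) := by
    refine ⟨(algebraMap k κ).injective, fun z => ?_⟩
    obtain ⟨a, rfl⟩ := hs z
    obtain ⟨c, hc⟩ := hrat a
    refine ⟨c, ?_⟩
    rw [IsScalarTower.algebraMap_apply k O κ, ← sub_eq_zero, ← map_sub, ← RingHom.mem_ker, hker]
    rw [← neg_sub]
    exact (Ideal.neg_mem_iff _).2 hc
  let ek : k ≃ₐ[k] κ := AlgEquiv.ofBijective (Algebra.ofId k κ) hbij
  have hfsκ : Algebra.FormallySmooth k κ := Algebra.FormallySmooth.of_equiv ek
  set J := RingHom.ker (algebraMap O κ) with hJ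
  have hym : ∀ i, y i ∈ J := by
    intro i
    rw [hker, ← hgen]
    exact Ideal.subset_span ⟨i, rfl⟩
  obtain ⟨l, hl⟩ := (Algebra.FormallySmooth.iff_split_injection (R := k) hs).1 hfsκ
  let Λ : Ω[O⁄k] →ₗ[O] J.Cotangent := l ∘ₗ (TensorProduct.mk O κ Ω[O⁄k] 1)
  have hΛ : ∀ (x : O) (hx : x ∈ J), Λ (D k O x) = J.toCotangent ⟨x, hx⟩ := by
    intro x hx
    have h1 := congrArg (fun f => f (J.toCotangent ⟨x, hx⟩)) hl
    exact h1
  have hfin : Module.Finite O Ω[O⁄k] := inferInstance
  have hfp : Module.FinitePresentation O Ω[O⁄k] := Module.finitePresentation_of_projective _ _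
  let v : Fin n → Ω[O⁄k] := fun i => D k O (y i)
  have hsm : ∀ (c : O) (z : Ω[O⁄k]), (algebraMap O κ c) • ((1 : κ) ⊗ₜ[O] z) =
      (1 : κ) ⊗ₜ[O] (c • z) := by
    intro c z
    rw [TensorProduct.smul_tmul', smul_eq_mul, mul_one, ← TensorProduct.smul_tmul,
      Algebra.smul_def, mul_one]
  have hli : LinearIndependent κ (TensorProduct.mk O κ Ω[O⁄k] 1 ∘ v) := by
    rw [Fintype.linearIndependent_iff]
    intro g hg
    choose c hc using fun i => hbij.2 (g i)
    have h1 : (1 : κ) ⊗ₜ[O] (∑ i, algebraMap k O (c i) • v i) = 0 := by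
      rw [TensorProduct.tmul_sum, ← hg]
      refine Finset.sum_congr rfl fun i _ => ?_
      change (1 : κ) ⊗ₜ[O] (algebraMap k O (c i) • v i) = g i • ((1 : κ) ⊗ₜ[O] v i)
      rw [← hc i, IsScalarTower.algebraMap_apply k O κ, hsm]
    have h2 : Λ (∑ i, algebraMap k O (c i) • v i) = 0 := by
      change l ((1 : κ) ⊗ₜ[O] _) = 0
      rw [h1, map_zero]
    have h3 : J.toCotangent ⟨∑ i, algebraMap k O (c i) • y i,
        Ideal.sum_mem _ fun i _ => Ideal.mul_mem_left _ _ (hym i)⟩ = 0 := by
      rw [← h2, map_sum]
      have h4 : (⟨∑ i, algebraMap k O (c i) • y i,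
        Ideal.sum_mem _ fun i _ => Ideal.mul_mem_left _ _ (hym i)⟩ : J) =
          ∑ i, algebraMap k O (c i) • (⟨y i, hym i⟩ : J) := by
        apply Subtype.ext
        rw [AddSubmonoidClass.coe_finsetSum]
        rfl
      rw [h4, map_sum]
      refine Finset.sum_congr rfl fun i _ => ?_
      rw [map_smul, map_smul]
      congr 1
      exact (hΛ _ (hym i)).symm
    rw [Ideal.toCotangent_eq_zero] at h3
    have h3' : ∑ i, algebraMap k O (c i) • y i ∈ J ^ 2 := h3
    have h5 := hind c (by
      rw [hker] at h3'
      have h6 : ∑ i, c i • y i = ∑ i, algebraMap k O (c i) • y i :=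
        Finset.sum_congr rfl fun i _ => by rw [algebraMap_smul]
      rw [h6]
      exact h3')
    intro i
    rw [← hc i, h5]
    exact map_zero _
  have hsp : Submodule.span κ (Set.range (TensorProduct.mk O κ Ω[O⁄k] 1 ∘ v)) = ⊤ := by
    have hD : ∀ a : O, (1 : κ) ⊗ₜ[O] D k O a ∈
        Submodule.span κ (Set.range (TensorProduct.mk O κ Ω[O⁄k] 1 ∘ v)) := by
      intro a
      obtain ⟨c, hc⟩ := hrat a
      have h1 : D k O a = D k O (a - algebraMap k O c) := by
        rw [map_sub, Derivation.map_algebraMap, sub_zero]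
      rw [h1]
      generalize a - algebraMap k O c = j at hc
      rw [← hgen, Ideal.mem_span_range_iff_exists_fun] at hc
      obtain ⟨g, rfl⟩ := hc
      rw [map_sum, TensorProduct.tmul_sum]
      refine Submodule.sum_mem _ fun i _ => ?_
      rw [Derivation.leibniz, TensorProduct.tmul_add]
      refine Submodule.add_mem _ ?_ ?_
      · rw [← hsm]
        exact Submodule.smul_mem _ _ (Submodule.subset_span ⟨i, rfl⟩)
      · rw [← hsm]
        have h2 : algebraMap O κ (y i) = 0 := (RingHom.mem_ker).1 (hym i)
        rw [h2, zero_smul]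
        exact Submodule.zero_mem _
    rw [eq_top_iff]
    rintro z -
    induction z using TensorProduct.induction_on with
    | zero => exact Submodule.zero_mem _
    | tmul c n =>
      have hn : n ∈ Submodule.span O (Set.range (D k O)) := by
        rw [KaehlerDifferential.span_range_derivation]; trivial
      have h1 : c ⊗ₜ[O] n = c • ((1 : κ) ⊗ₜ[O] n) := by
        rw [TensorProduct.smul_tmul', smul_eq_mul, mul_one]
      rw [h1]
      refine Submodule.smul_mem _ _ ?_
      induction hn using Submodule.span_induction with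
      | mem n hn =>
        obtain ⟨a, rfl⟩ := hn
        exact hD a
      | zero => rw [TensorProduct.tmul_zero]; exact Submodule.zero_mem _
      | add x y _ _ hx hy =>
        rw [TensorProduct.tmul_add]
        exact Submodule.add_mem _ (hx (by
          rw [TensorProduct.smul_tmul', smul_eq_mul, mul_one])) (hy (by
          rw [TensorProduct.smul_tmul', smul_eq_mul, mul_one]))
      | smul r x _ hx =>
        rw [← hsm]
        exact Submodule.smul_mem _ _ (hx (by
          rw [TensorProduct.smul_tmul', smul_eq_mul, mul_one]))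
    | add x y hx hy => exact Submodule.add_mem _ hx hy
  exact Module.exists_basis_of_basis_baseChange v hli hsp
    (Module.Flat.rTensor_preserves_injective_linearMap _ Subtype.val_injective)

end loc

end Pool.Agent.U197.SF
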