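import Pool.Agent.U197.SF.D12

/-!
Isolated fixed points with nondegenerate leading forms: the remaining conditions.
-/

set_option autoImplicit false
set_option linter.unusedSectionVars false

open Pool.Agent.H920R2 Pool.Agent.H519R3.RS Pool.Agent.N98.PJ
open scoped Pointwise

namespace Pool.Agent.U197.SF

lemma ideal_span_pow {O : Type} [CommRing O] (s : Set O) (j : ℕ) :
    Ideal.span s ^ j = Ideal.span (s ^ j) := by
  induction j with
  | zero => rw [pow_zero, pow_zero, Ideal.one_eq_top, eq_comm, Ideal.eq_top_iff_one]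
            exact Ideal.subset_span rfl
  | succ j ih => rw [pow_succ, pow_succ, ih, Ideal.span_mul_span']

section loc

variable {k O : Type} [Field k] [CommRing O] [IsLocalRing O] [Algebra k O] {n : ℕ}
  (y : Fin n → O) (w : Fin n → ℕ) {δ : O → O} {l : ℕ}
  (hrat : ∀ a : O, ∃ c : k, a - algebraMap k O c ∈ IsLocalRing.maximalIdeal O)
  (hgen : Ideal.span (Set.range y) = IsLocalRing.maximalIdeal O)

include hrat hgen in
/-- Approximation by polynomials in the parameters. -/
lemma exists_approx (j : ℕ) (a : O) : ∃ t ∈ Algebra.adjoin k (Set.range y),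
    a - t ∈ IsLocalRing.maximalIdeal O ^ j := by
  have key : ∀ j, ∀ z ∈ IsLocalRing.maximalIdeal O ^ j, ∃ t ∈ Algebra.adjoin k (Set.range y),
      z - t ∈ IsLocalRing.maximalIdeal O ^ (j + 1) := by
    intro j z hz
    have h0 : ∀ z ∈ (Set.range y) ^ j, z ∈ Algebra.adjoin k (Set.range y) ∧
        z ∈ IsLocalRing.maximalIdeal O ^ j := by
      clear hz
      intro z hz
      constructor
      · clear * - hz
        induction j generalizing z with
        | zero =>
          rw [pow_zero, Set.mem_one] at hz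
          rw [hz]
          exact Subalgebra.one_mem _
        | succ j ih =>
          rw [pow_succ, Set.mem_mul] at hz
          obtain ⟨u, hu, v, hv, rfl⟩ := hz
          exact Subalgebra.mul_mem _ (ih u hu) (Algebra.subset_adjoin hv)
      · rw [← hgen, ideal_span_pow]
        exact Ideal.subset_span hz
    rw [← hgen, ideal_span_pow] at hz
    have h1 : z ∈ IsLocalRing.maximalIdeal O ^ j ∧ ∃ t ∈ Algebra.adjoin k (Set.range y),
        z - t ∈ IsLocalRing.maximalIdeal O ^ (j + 1) := by
      induction hz using Submodule.span_induction with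
      | mem z hz => exact ⟨(h0 z hz).2, z, (h0 z hz).1, by rw [sub_self]; exact Ideal.zero_mem _⟩
      | zero => exact ⟨Ideal.zero_mem _, 0, Subalgebra.zero_mem _, by
          rw [sub_self]; exact Ideal.zero_mem _⟩
      | add u v _ _ hu hv =>
        obtain ⟨hu0, t, ht, hut⟩ := hu
        obtain ⟨hv0, t', ht', hvt⟩ := hv
        refine ⟨Ideal.add_mem _ hu0 hv0, t + t', Subalgebra.add_mem _ ht ht', ?_⟩
        rw [add_sub_add_comm]
        exact Ideal.add_mem _ hut hvt
      | smul c u _ hu =>
        obtain ⟨hu0, t, ht, hut⟩ := hu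
        obtain ⟨c', hc'⟩ := hrat c
        refine ⟨Ideal.mul_mem_left _ _ hu0, algebraMap k O c' * t,
          Subalgebra.mul_mem _ (Subalgebra.algebraMap_mem _ c') ht, ?_⟩
        have ht0 : t ∈ IsLocalRing.maximalIdeal O ^ j := by
          have h2 : t = u - (u - t) := by ring
          rw [h2]
          exact Ideal.sub_mem _ hu0 (Ideal.pow_le_pow_right (Nat.le_succ j) hut)
        have h2 : c • u - algebraMap k O c' * t = c * (u - t) + (c - algebraMap k O c') * t := by
          rw [smul_eq_mul]; ring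
        rw [h2]
        refine Ideal.add_mem _ (Ideal.mul_mem_left _ _ hut) ?_
        rw [pow_succ']
        exact Ideal.mul_mem_mul hc' ht0
    exact h1.2
  induction j with
  | zero => exact ⟨0, Subalgebra.zero_mem _, by rw [pow_zero, Ideal.one_eq_top]; trivial⟩
  | succ j ih =>
    obtain ⟨t, ht, hat⟩ := ih
    obtain ⟨t', ht', hat'⟩ := key j _ hat
    exact ⟨t + t', Subalgebra.add_mem _ ht ht', by rwa [← sub_sub]⟩

variable (hw : ∀ i, 0 < w i) (hadd : ∀ a b, δ (a + b) = δ a + δ b)
  (hmul : ∀ a b, ∃ c, δ (a * b) = a * δ b + b * δ a + c * (δ a * δ b))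
  (hconst : ∀ c : k, δ (algebraMap k O c) = 0)
  (hord : ∀ i, δ (y i) ∈ monoF y w (w i + l))

include hgen in
lemma monoF_le_max {d : ℕ} (hd : 0 < d) : monoF y w d ≤ IsLocalRing.maximalIdeal O := by
  unfold monoF
  rw [Ideal.span_le]
  rintro _ ⟨α, hα, rfl⟩
  obtain ⟨i, hi⟩ : ∃ i, 0 < α i := by
    by_contra hcon
    push Not at hcon
    have h1 : ∑ i, α i * w i = 0 := Finset.sum_eq_zero fun i _ => by
      rw [Nat.le_zero.1 (hcon i), zero_mul]
    omega
  have h1 : y i ∈ IsLocalRing.maximalIdeal O := by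
    rw [← hgen]
    exact Ideal.subset_span ⟨i, rfl⟩
  exact Ideal.mem_of_dvd _ (Finset.dvd_prod_of_mem _ (Finset.mem_univ i))
    (Ideal.pow_mem_of_mem _ h1 _ hi)

include hgen hw in
lemma max_pow_le (j : ℕ) : IsLocalRing.maximalIdeal O ^ j ≤ monoF y w j := by
  have h1 : IsLocalRing.maximalIdeal O ≤ monoF y w 1 := by
    rw [← hgen, Ideal.span_le]
    rintro _ ⟨i, rfl⟩
    exact (isFilt_monoF y w).anti _ _ (hw i) (coord_mem y w i)
  induction j with
  | zero => rw [(isFilt_monoF y w).zero]; exact le_top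
  | succ j ih => rw [pow_succ]; exact (Ideal.mul_mono ih h1).trans ((isFilt_monoF y w).mul _ _)

include hrat hgen hw hadd hmul hconst hord in
/-- All values of `δ` have the order at least `l`. -/
lemma order_all (hl : 0 < l) (a : O) : δ a ∈ monoF y w l := by
  have hF := isFilt_monoF y w
  have h0 : δ 0 = 0 := by
    have := hconst 0
    rwa [map_zero] at this
  have hm1 : ∀ j, ∀ a ∈ IsLocalRing.maximalIdeal O ^ j, δ a ∈ IsLocalRing.maximalIdeal O ^ j := by
    have h1 : ∀ a ∈ IsLocalRing.maximalIdeal O, δ a ∈ IsLocalRing.maximalIdeal O := by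
      intro a ha
      rw [← hgen] at ha
      have h2 : a ∈ IsLocalRing.maximalIdeal O ∧ δ a ∈ IsLocalRing.maximalIdeal O := by
        induction ha using Submodule.span_induction with
        | mem a ha =>
          obtain ⟨i, rfl⟩ := ha
          refine ⟨?_, monoF_le_max y w hgen (by have := hw i; omega) (hord i)⟩
          rw [← hgen]
          exact Ideal.subset_span ⟨i, rfl⟩
        | zero => rw [h0]; exact ⟨Ideal.zero_mem _, Ideal.zero_mem _⟩
        | add a b _ _ ha hb =>
          rw [hadd]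
          exact ⟨Ideal.add_mem _ ha.1 hb.1, Ideal.add_mem _ ha.2 hb.2⟩
        | smul c a _ ha =>
          obtain ⟨e, he⟩ := hmul c a
          rw [smul_eq_mul, he]
          exact ⟨Ideal.mul_mem_left _ _ ha.1, Ideal.add_mem _ (Ideal.add_mem _
            (Ideal.mul_mem_left _ _ ha.2) (Ideal.mul_mem_right _ _ ha.1))
            (Ideal.mul_mem_left _ _ (Ideal.mul_mem_left _ _ ha.2))⟩
      exact h2.2
    intro j
    induction j with
    | zero => intro a _; rw [pow_zero, Ideal.one_eq_top]; trivial
    | succ j ih =>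
      intro a ha
      rw [pow_succ] at ha ⊢
      refine Submodule.mul_induction_on ha (fun a ha b hb => ?_) (fun a b ha hb => ?_)
      · obtain ⟨e, he⟩ := hmul a b
        rw [he]
        refine Ideal.add_mem _ (Ideal.add_mem _ (Ideal.mul_mem_mul ha (h1 b hb)) ?_) ?_
        · rw [mul_comm b]
          exact Ideal.mul_mem_mul (ih a ha) hb
        · exact Ideal.mul_mem_left _ _ (Ideal.mul_mem_mul (ih a ha) (h1 b hb))
      · rw [hadd]
        exact Ideal.add_mem _ ha hb
  obtain ⟨t, ht, hat⟩ := exists_approx y hrat hgen l a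
  have h2 : ∀ t ∈ Algebra.adjoin k (Set.range y), δ t ∈ monoF y w l := by
    intro t ht
    induction ht using Algebra.adjoin_induction with
    | mem a ha =>
      obtain ⟨i, rfl⟩ := ha
      exact hF.anti _ _ (Nat.le_add_left _ _) (hord i)
    | algebraMap c => rw [hconst]; exact Ideal.zero_mem _
    | add a b _ _ ha hb => rw [hadd]; exact Ideal.add_mem _ ha hb
    | mul a b _ _ ha hb =>
      obtain ⟨e, he⟩ := hmul a b
      rw [he]
      exact Ideal.add_mem _ (Ideal.add_mem _ (Ideal.mul_mem_left _ _ hb)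
        (Ideal.mul_mem_left _ _ ha)) (Ideal.mul_mem_left _ _ (Ideal.mul_mem_left _ _ hb))
  have h3 : a = t + (a - t) := by ring
  rw [h3, hadd]
  exact Ideal.add_mem _ (h2 t ht) (max_pow_le y w hgen hw l (hm1 l _ hat))

include hgen hw in
/-- The coordinates vanish on the locus of zeros. -/
lemma zeros_all [IsNoetherianRing O] (I : Ideal O)
    (hlead : ∀ i, ∃ N : ℕ, y i ^ N ∈ monoF y w (N * w i + 1) ⊔ I) (i : Fin n) :
    y i ∈ I.radical := by
  classical
  have hF := isFilt_monoF y w
  choose N hN using hlead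
  let M := ∑ i, N i * w i + 1
  have hdec : ∀ (α : Fin n → ℕ) (i : Fin n) (c : ℕ), c ≤ α i → ∃ β : Fin n → ℕ,
      ∏ j, y j ^ α j = y i ^ c * ∏ j, y j ^ β j ∧ ∑ j, α j * w j = c * w i + ∑ j, β j * w j := by
    intro α i c hc
    refine ⟨α - Pi.single i c, ?_, ?_⟩
    · have h6 : ∀ j, y j ^ α j = y j ^ (Pi.single i c : Fin n → ℕ) j *
          y j ^ (α - Pi.single i c : Fin n → ℕ) j := by
        intro j
        rw [← pow_add, Pi.sub_apply]
        congr 1
        by_cases hj : j = i
        · subst hj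
          rw [Pi.single_eq_same]
          omega
        · rw [Pi.single_eq_of_ne hj]
          omega
      rw [Finset.prod_congr rfl fun j _ => h6 j, Finset.prod_mul_distrib]
      congr 1
      rw [Finset.prod_eq_single i]
      · rw [Pi.single_eq_same]
      · intro j _ hj
        rw [Pi.single_eq_of_ne hj, pow_zero]
      · intro h
        exact absurd (Finset.mem_univ i) h
    · have h8 : ∀ j, α j * w j = (Pi.single i c : Fin n → ℕ) j * w j +
          (α - Pi.single i c : Fin n → ℕ) j * w j := by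
        intro j
        rw [← add_mul, Pi.sub_apply]
        congr 1
        by_cases hj : j = i
        · subst hj
          rw [Pi.single_eq_same]
          omega
        · rw [Pi.single_eq_of_ne hj]
          omega
      rw [Finset.sum_congr rfl fun j _ => h8 j, Finset.sum_add_distrib]
      congr 1
      rw [Finset.sum_eq_single i]
      · rw [Pi.single_eq_same]
      · intro j _ hj
        rw [Pi.single_eq_of_ne hj, zero_mul]
      · intro h
        exact absurd (Finset.mem_univ i) h
  have hstep : ∀ d, M ≤ d → monoF y w d ≤ monoF y w (d + 1) ⊔ I := by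
    intro d hd
    conv_lhs => unfold monoF
    rw [Ideal.span_le]
    rintro _ ⟨α, hα, rfl⟩
    obtain ⟨i, hi⟩ : ∃ i, N i ≤ α i := by
      by_contra hcon
      push Not at hcon
      have h1 : ∑ i, α i * w i ≤ ∑ i, N i * w i :=
        Finset.sum_le_sum fun i _ => Nat.mul_le_mul_right _ (hcon i).le
      omega
    obtain ⟨β, hβ, hβ'⟩ := hdec α i (N i) hi
    rw [SetLike.mem_coe, hβ]
    obtain ⟨u, hu, v, hv, huv⟩ := Submodule.mem_sup.1 (hN i)
    rw [← huv, add_mul]
    refine Ideal.add_mem _ (Ideal.mem_sup_left ?_) (Ideal.mem_sup_right (Ideal.mul_mem_right _ _ hv))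
    refine hF.anti _ _ ?_ (hF.mul _ _ (Ideal.mul_mem_mul hu (mono_mem y w β le_rfl)))
    omega
  have hstep' : ∀ r, monoF y w M ≤ monoF y w (M + r) ⊔ I := by
    intro r
    induction r with
    | zero => exact le_sup_left
    | succ r ih =>
      refine ih.trans (sup_le ((hstep (M + r) (Nat.le_add_right _ _)).trans ?_) le_sup_right)
      rw [add_assoc]
  let W := ∑ i, w i
  have hW : monoF y w (M + W) ≤ IsLocalRing.maximalIdeal O • monoF y w M := by
    conv_lhs => unfold monoF
    rw [Ideal.span_le]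
    rintro _ ⟨α, hα, rfl⟩
    obtain ⟨i, hi⟩ : ∃ i, 1 ≤ α i := by
      by_contra hcon
      push Not at hcon
      have h1 : ∑ i, α i * w i = 0 := Finset.sum_eq_zero fun i _ => by
        rw [Nat.lt_one_iff.1 (hcon i), zero_mul]
      omega
    obtain ⟨β, hβ, hβ'⟩ := hdec α i 1 hi
    rw [SetLike.mem_coe, hβ, smul_eq_mul]
    refine Ideal.mul_mem_mul ?_ (mono_mem y w β ?_)
    · rw [pow_one, ← hgen]
      exact Ideal.subset_span ⟨i, rfl⟩
    · have h1 : w i ≤ W := Finset.single_le_sum (fun j _ => Nat.zero_le (w j)) (Finset.mem_univ i)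
      omega
  have hle : monoF y w M ≤ I := by
    refine Submodule.le_of_le_smul_of_le_jacobson_bot (I := IsLocalRing.maximalIdeal O)
      (IsNoetherian.noetherian _) (IsLocalRing.maximalIdeal_le_jacobson _) ?_
    refine (hstep' W).trans ?_
    rw [sup_comm]
    exact sup_le_sup_left hW _
  refine ⟨M, hle (hF.anti _ (M * w i) ?_ ?_)⟩
  · exact Nat.le_mul_of_pos_right _ (hw i)
  · have h1 : ∀ e : ℕ, y i ^ e ∈ monoF y w (e * w i) := by
      intro e
      induction e with
      | zero => rw [zero_mul, hF.zero]; trivial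
      | succ e ih =>
        rw [pow_succ, Nat.succ_mul]
        exact hF.mul _ _ (Ideal.mul_mem_mul ih (coord_mem y w i))
    exact h1 M

end loc

section conv

variable {k K : Type} [Field k] [Field K] [Algebra k K] {O : Subalgebra k K} {δ : K → K}
  (hδ : ∀ a ∈ O, δ a ∈ O) {n : ℕ} (y : Fin n → O) (w : Fin n → ℕ) {l : ℕ}

/-- Translation of the conditions. -/
lemma ndk_of_ring (h1 : ∀ a : O, (⟨δ a, hδ a a.2⟩ : O) ∈ monoF y w l)
    (h2 : ∀ i, (⟨δ (y i), hδ _ (y i).2⟩ : O) ∈ monoF y w (w i + l))
    (h3 : ∀ i, 0 < w i → y i ∈ (zI O δ).radical)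
    (h4 : ∀ i, 0 < w i → ∃ N : ℕ, y i ^ N ∈ leadI (fun a : O => (⟨δ a, hδ a a.2⟩ : O))
      (monoF y w) l (N * w i)) :
    NDk (fun i => (y i : K)) w δ l O := by
  have hy : ∀ i, (fun i => (y i : K)) i ∈ O := fun i => (y i).2
  refine ⟨fun a ha => ?_, fun i => ?_, fun i hi => ?_, fun i hi => ?_⟩
  · exact (mem_monoF (w := w) hy l _).1 (h1 ⟨a, ha⟩)
  · exact (mem_monoF (w := w) hy (w i + l) _).1 (h2 i)
  · obtain ⟨M, hM⟩ := h3 i hi
    exact ⟨M, (mem_zI hδ _).1 hM⟩
  · obtain ⟨N, hN⟩ := h4 i hi
    exact ⟨N, (mem_lead (w := w) hy hδ _ _).1 hN⟩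

end conv

end Pool.Agent.U197.SF
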