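import Pool.Agent.U197.SF.D1

/-!
Uniqueness of weighted centres with nondegenerate leading form.
-/

set_option autoImplicit false
set_option linter.unusedSectionVars false

open Pool.Agent.H920R2 Pool.Agent.H519R3.RS

namespace Pool.Agent.U197.SF

variable {k K : Type} [Field k] [Field K] [Algebra k K]

/-- A family of groups of functions, given by the order of vanishing, whose order is raised by `l`
by the map `δ`. -/
structure OrdFam (A : Subalgebra k K) (δ : K → K) (l : ℕ) (G : ℕ → AddSubgroup K) : Prop where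
  zero : ∀ x ∈ A, x ∈ G 0
  anti : ∀ a b, a ≤ b → G b ≤ G a
  mul : ∀ a b x y, x ∈ G a → y ∈ G b → x * y ∈ G (a + b)
  root : ∀ (q m : ℕ) (x : K), x ∈ A → x ^ (q + 1) ∈ G m → x ∈ G (cd q m)
  del : ∀ d x, x ∈ G d → δ x ∈ G (d + l)

variable {A : Subalgebra k K} {δ : K → K} {l : ℕ} {G : ℕ → AddSubgroup K}

/-- The filtration of `A` given by the order of vanishing. -/
def ordI (h : OrdFam A δ l G) (m : ℕ) : Ideal A where
  carrier := {a | (a : K) ∈ G m}
  add_mem' := fun ha hb => (G m).add_mem ha hb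
  zero_mem' := (G m).zero_mem
  smul_mem' := by
    intro c x hx
    have := h.mul 0 m c x (h.zero c c.2) hx
    rwa [zero_add] at this

lemma mem_ordI (h : OrdFam A δ l G) {m : ℕ} {a : A} : a ∈ ordI h m ↔ (a : K) ∈ G m := Iff.rfl

lemma isFilt_ordI (h : OrdFam A δ l G) (u q : ℕ) : IsFilt (fun d => ordI h (cd q (u * d))) where
  zero := by
    rw [mul_zero, cd_zero, Ideal.eq_top_iff_one]
    exact h.zero 1 A.one_mem
  anti a b hab := fun x hx => h.anti _ _ (cd_mono (Nat.mul_le_mul_left u hab)) hx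
  mul a b := by
    rw [Ideal.mul_le]
    intro x hx y hy
    have h1 := h.mul _ _ _ _ hx hy
    refine h.anti _ _ ?_ h1
    rw [mul_add]
    exact cd_add q _ _

/-- The Rees algebra is finitely generated by homogeneous elements. -/
lemma exists_gens {F : ℕ → Ideal A} (hF : IsFilt F) (hft : Algebra.FiniteType k (reesZ k hF)) :
    ∃ Γ : Finset (ℕ × A), (∀ x ∈ Γ, 0 < x.1 ∧ x.2 ∈ F x.1) ∧
      ∀ F' : ℕ → Ideal A, IsFilt F' → (∀ x ∈ Γ, x.2 ∈ F' x.1) → ∀ d, F d ≤ F' d := by
  classical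
  obtain ⟨T, hT⟩ := hft.1
  let Γ : Finset (ℕ × A) := T.biUnion fun f =>
    (((f : reesZ k hF) : AddMonoidAlgebra A ℤ).coeff.support.filter fun d => 0 < d).image
      fun d => (d.toNat, (f : AddMonoidAlgebra A ℤ).coeff d)
  refine ⟨Γ, ?_, ?_⟩
  · intro x hx
    rw [Finset.mem_biUnion] at hx
    obtain ⟨f, hf, hx⟩ := hx
    rw [Finset.mem_image] at hx
    obtain ⟨d, hd, rfl⟩ := hx
    rw [Finset.mem_filter] at hd
    exact ⟨by have := hd.2; simp only; omega, f.2 d⟩
  · intro F' hF' hΓ d a ha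
    have h1 : ∀ f : reesZ k hF, (f : AddMonoidAlgebra A ℤ) ∈ reesZ k hF' := by
      intro f
      have hf : f ∈ Algebra.adjoin k (T : Set (reesZ k hF)) := by rw [hT]; trivial
      induction hf using Algebra.adjoin_induction with
      | mem f hf =>
        intro e
        by_cases he : 0 < e
        · by_cases h0 : (f : AddMonoidAlgebra A ℤ).coeff e = 0
          · rw [h0]
            exact Ideal.zero_mem _
          · refine hΓ (e.toNat, (f : AddMonoidAlgebra A ℤ).coeff e) ?_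
            rw [Finset.mem_biUnion]
            refine ⟨f, hf, ?_⟩
            rw [Finset.mem_image]
            refine ⟨e, ?_, rfl⟩
            rw [Finset.mem_filter]
            exact ⟨Finsupp.mem_support_iff.2 h0, he⟩
        · have : e.toNat = 0 := by omega
          rw [this, hF'.zero]
          trivial
      | algebraMap r => exact (reesZ k hF').algebraMap_mem r
      | add f g _ _ hf hg => exact Subalgebra.add_mem _ hf hg
      | mul f g _ _ hf hg => exact Subalgebra.mul_mem _ hf hg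
    have h2 := h1 ⟨AddMonoidAlgebra.single (d : ℤ) a, single_mem_reesZ hF ha⟩ (d : ℤ)
    rw [AddMonoidAlgebra.coeff_single, Finsupp.single_eq_same, Int.toNat_natCast] at h2
    exact h2

/-- **Uniqueness of nondegenerate weighted centres.** -/
theorem le_ordI (h : OrdFam A δ l G) (hl : 0 < l) {F : ℕ → Ideal A} (hF : IsFilt F)
    (hft : Algebra.FiniteType k (reesZ k hF)) (δA : A → A) (hδ : ∀ a : A, (δA a : K) = δ a)
    (h1 : ∀ d, ∀ a ∈ F d, δA a ∈ F (d + l))
    (h2 : F 1 ≤ (Ideal.span (Set.range δA)).radical)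
    (h3 : ∀ d, 1 ≤ d → ∀ a ∈ F d, ∃ N : ℕ, a ^ N ∈ leadI δA F l (N * d)) :
    ∀ d, F d ≤ ordI h d := by
  classical
  obtain ⟨Γ, hΓ, hgen⟩ := exists_gens hF hft
  have hbase : IsFilt (fun d => ordI h d) := by
    have := isFilt_ordI h 1 0
    simpa [cd] using this
  refine hgen _ hbase ?_
  by_contra hcon
  push Not at hcon
  obtain ⟨x1, hx1, hx1'⟩ := hcon
  let v : ℕ × A → ℕ := fun x => Nat.findGreatest (fun m => (x.2 : K) ∈ G m) x.1
  have hv : ∀ x, (x.2 : K) ∈ G (v x) := fun x =>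
    Nat.findGreatest_spec (P := fun m => (x.2 : K) ∈ G m) (Nat.zero_le _) (h.zero _ x.2.2)
  have hvle : ∀ x, v x ≤ x.1 := fun x => Nat.findGreatest_le _
  have hvge : ∀ x m, m ≤ x.1 → (x.2 : K) ∈ G m → m ≤ v x := fun x m hm hm' =>
    Nat.le_findGreatest hm hm'
  obtain ⟨x0, hx0, hmin⟩ := Finset.exists_min_image Γ (fun x => (v x : ℚ) / x.1) ⟨x1, hx1⟩
  obtain ⟨d0, a0⟩ := x0
  obtain ⟨hd0, ha0⟩ := hΓ _ hx0
  simp only at hd0 ha0
  set v0 := v (d0, a0) with hv0
  have hmin' : ∀ x ∈ Γ, v0 * x.1 ≤ v x * d0 := by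
    intro x hx
    have h4 := hmin x hx
    have h5 : (0 : ℚ) < x.1 := by exact_mod_cast (hΓ x hx).1
    have h6 : (0 : ℚ) < d0 := by exact_mod_cast hd0
    rw [div_le_div_iff₀ h6 h5] at h4
    exact_mod_cast h4
  obtain ⟨q, rfl⟩ : ∃ q, d0 = q + 1 := ⟨d0 - 1, by omega⟩
  have hlt : v0 < q + 1 := by
    have h4 := hmin' x1 hx1
    have h5 : v x1 < x1.1 := by
      refine lt_of_le_of_ne (hvle x1) fun h6 => hx1' ?_
      rw [mem_ordI, ← h6]
      exact hv x1
    by_contra h6
    push Not at h6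
    have h7 : v x1 * (q + 1) < x1.1 * (q + 1) := Nat.mul_lt_mul_of_pos_right h5 hd0
    have h8 : (q + 1) * x1.1 ≤ v0 * x1.1 := Nat.mul_le_mul_right _ h6
    rw [mul_comm x1.1] at h7
    omega
  -- the filtration of slope `v0 / d0`
  have hA : ∀ d, F d ≤ ordI h (cd q (v0 * d)) := by
    refine hgen _ (isFilt_ordI h v0 q) fun x hx => ?_
    refine h.anti _ _ ?_ (hv x)
    rw [cd_le_iff, mul_comm (q + 1)]
    exact hmin' x hx
  have hv1 : 1 ≤ v0 := by
    refine hvge _ 1 hd0 ?_
    obtain ⟨M, hM⟩ := h2 (hF.anti 1 _ hd0 ha0)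
    have h4 : ∀ y ∈ Ideal.span (Set.range δA), y ∈ ordI h l := by
      intro y hy
      refine (Ideal.span_le.2 ?_ : Ideal.span (Set.range δA) ≤ ordI h l) hy
      rintro _ ⟨a, rfl⟩
      change (δA a : K) ∈ G l
      rw [hδ]
      have := h.del 0 a (h.zero a a.2)
      rwa [zero_add] at this
    have h5 : (a0 : K) ^ (M + 1) ∈ G 1 := by
      have h6 := h4 _ (Ideal.mul_mem_right a0 _ hM)
      rw [← pow_succ] at h6
      exact h.anti 1 l hl h6
    have h7 := h.root M 1 _ a0.2 h5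
    rwa [cd_one] at h7
  obtain ⟨N, hN⟩ := h3 _ hd0 a0 ha0
  have hbig : ∀ y ∈ F (N * (q + 1) + 1), y ∈ ordI h (N * v0 + 1) := by
    intro y hy
    refine h.anti _ _ ?_ (hA _ hy)
    have h4 : v0 * (N * (q + 1) + 1) = v0 + (q + 1) * (N * v0) := by ring
    rw [h4, cd_add_mul]
    have h5 : 1 ≤ cd q v0 := by
      have := cd_mono (q := q) hv1
      rwa [cd_one] at this
    omega
  have hlead : leadI δA F l (N * (q + 1)) ≤ ordI h (N * v0 + 1) := by
    refine sup_le (fun y hy => hbig y hy) (Ideal.span_le.2 ?_)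
    rintro _ ⟨e, c, hc, b, hb, rfl⟩
    by_cases hel : e + l ≤ N * (q + 1)
    · have h4 := hA _ hc
      have h5 := hA _ hb
      have h6 := h.del _ _ h4
      rw [← hδ] at h6
      have h7 := h.mul _ _ _ _ h5 h6
      refine h.anti _ _ ?_ h7
      have h8 := cd_add q (v0 * e) (v0 * (N * (q + 1) - (e + l)))
      rw [← mul_add] at h8
      have h9 : e + (N * (q + 1) - (e + l)) = N * (q + 1) - l := by omega
      rw [h9] at h8
      by_contra h10
      have h11 : cd q (v0 * (N * (q + 1) - l)) + l ≤ N * v0 := by omega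
      have h12 : v0 * (N * (q + 1) - l) ≤ (q + 1) * (N * v0 - l) := by
        rw [← cd_le_iff]
        omega
      rw [Nat.mul_sub, Nat.mul_sub] at h12
      have h13 : v0 * (N * (q + 1)) = (q + 1) * (N * v0) := by ring
      rw [h13] at h12
      have h14 : v0 * l < (q + 1) * l := Nat.mul_lt_mul_of_pos_right hlt hl
      have h15 : (q + 1) * l ≤ (q + 1) * (N * v0) := Nat.mul_le_mul_left _ (by omega)
      omega
    · refine hbig _ (Ideal.mul_mem_left _ _ (hF.anti _ _ ?_ (h1 _ _ hc)))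
      omega
  have h4 : (a0 : K) ^ (N + 1) ∈ G (1 + (N + 1) * v0) := by
    have h5 := h.mul _ _ _ _ (hlead hN) (hv (q + 1, a0))
    rw [← hv0] at h5
    have h6 : N * v0 + 1 + v0 = 1 + (N + 1) * v0 := by ring
    rw [h6] at h5
    rw [pow_succ]
    exact h5
  have h5 := h.root N _ _ a0.2 h4
  rw [cd_add_mul, cd_one] at h5
  have h6 := hvge (q + 1, a0) (1 + v0) (by simp only; omega) h5
  rw [← hv0] at h6
  omega

end Pool.Agent.U197.SF
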