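import Pool.Agent.U197.SF.D2
import Pool.Agent.U197.SF.C6

/-!
Nondegenerate weighted centres on charts: change of the scale, and gluing by uniqueness.
-/

set_option autoImplicit false
set_option linter.unusedSectionVars false

open Pool.Agent.H920R2 Pool.Agent.H519R3.RS

namespace Pool.Agent.U197.SF

section nwc

variable {k K : Type} [Field k] [Field K] [Algebra k K]

/-- The map `δ` on `B` raises the order along the regular weighted centre `F` by `l`, its zeros are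
contained in the centre, and its leading form is nondegenerate. -/
structure NWC (B : Subalgebra k K) (δ : K → K) (l : ℕ) (F : ℕ → Ideal B) : Prop where
  centre : RegularWeightedCentre k F
  raise : ∀ d, ∀ a ∈ F d, ∀ y : B, (y : K) = δ a → y ∈ F (d + l)
  zeros : F 1 ≤ (zI B δ).radical
  lead : ∀ d, 1 ≤ d → ∀ a ∈ F d, ∃ N : ℕ, a ^ N ∈ F (N * d + 1) ⊔
    Ideal.span {y | ∃ e, ∃ c ∈ F e, ∃ b ∈ F (N * d - (e + l)), ∃ z : B, (z : K) = δ c ∧ y = b * z}

lemma RegularWeightedCentre.isFilt {B : Type} [CommRing B] [Algebra k B] {F : ℕ → Ideal B}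
    (h : RegularWeightedCentre k F) : IsFilt F := ⟨h.zero, h.anti, h.mul⟩

/-- Change of the scale. -/
theorem NWC.scale {B : Subalgebra k K} {δ : K → K} {l : ℕ} {F : ℕ → Ideal B} (h : NWC B δ l F)
    (q : ℕ) : NWC B δ ((q + 1) * l) (fun d => F (cd q d)) where
  centre := rwc_scale h.centre q
  raise d a ha y hy := by
    rw [cd_add_mul]
    exact h.raise _ a ha y hy
  zeros := by
    rw [cd_one]
    exact h.zeros
  lead := by
    intro d hd a ha
    have h1 : 1 ≤ cd q d := by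
      have := cd_mono (q := q) hd
      rwa [cd_one] at this
    obtain ⟨N, hN⟩ := h.lead _ h1 a ha
    refine ⟨N, ?_⟩
    have h2 : N * d ≤ (q + 1) * (N * cd q d) := by
      have := Nat.mul_le_mul_left N (le_cd q d)
      calc N * d ≤ N * ((q + 1) * cd q d) := this
        _ = _ := by ring
    refine SetLike.le_def.1 (sup_le ?_ ?_) hN
    · refine le_trans (h.centre.anti _ _ ?_) le_sup_left
      rw [cd_le_iff, mul_add]
      omega
    · refine le_trans (Ideal.span_mono ?_) le_sup_right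
      rintro y ⟨e, c, hc, b, hb, z, hz, rfl⟩
      refine ⟨(q + 1) * e, c, ?_, b, ?_, z, hz, rfl⟩
      · rwa [cd_mul]
      · refine h.centre.anti _ _ ?_ hb
        rw [cd_le_iff, Nat.mul_sub, mul_add]
        omega

/-- Multiples of the order. -/
theorem NWC.mul {B : Subalgebra k K} {δ : K → K} {l : ℕ} {F : ℕ → Ideal B} (h : NWC B δ l F)
    {m : ℕ} (hm : 0 < m) : ∃ F' : ℕ → Ideal B, NWC B δ (m * l) F' := by
  obtain ⟨q, rfl⟩ : ∃ q, m = q + 1 := ⟨m - 1, by omega⟩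
  exact ⟨_, h.scale q⟩

end nwc

section glue

variable {k K : Type} [Field k] [Field K] [Algebra k K] {A B : Subalgebra k K} {c : K} (hc : c ∈ A)
  (hBA : ∀ x ∈ B, ∃ n : ℕ, c ^ n * x ∈ A) {δA δB : K → K} (hAs : ∀ x ∈ A, δA x ∈ A)
  (hBs : ∀ x ∈ B, δB x ∈ B) (hδc : ∀ x, δA (c * x) = c * δA x)
  {u : K} {n0 : ℕ} (hu : c ^ n0 * u ∈ A) (hδ : ∀ x, δB x = u * δA x) {l : ℕ}
  {FA : ℕ → Ideal A}

include hc in
lemma step_pow {n n' : ℕ} (h : n ≤ n') {d : ℕ} {x : K} (hx : ∃ g ∈ FA d, (g : K) = c ^ n * x) :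
    ∃ g ∈ FA d, (g : K) = c ^ n' * x := by
  obtain ⟨g, hg, hgx⟩ := hx
  refine ⟨⟨c, hc⟩ ^ (n' - n) * g, Ideal.mul_mem_left _ _ hg, ?_⟩
  change c ^ (n' - n) * (g : K) = _
  rw [hgx, ← mul_assoc, ← pow_add, Nat.sub_add_cancel h]

/-- The functions of order at least `d` on the intersection of two charts. -/
def ordG (FA : ℕ → Ideal A) (hc : c ∈ A) (d : ℕ) : AddSubgroup K where
  carrier := {x | ∃ n : ℕ, ∃ g ∈ FA d, (g : K) = c ^ n * x}
  add_mem' := by
    rintro x y ⟨n, hx⟩ ⟨m, hy⟩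
    obtain ⟨g, hg, hgx⟩ := step_pow hc (Nat.le_add_right n m) hx
    obtain ⟨g', hg', hgy⟩ := step_pow hc (Nat.le_add_left m n) hy
    exact ⟨n + m, g + g', Ideal.add_mem _ hg hg', by
      rw [Subalgebra.coe_add, hgx, hgy, mul_add]⟩
  zero_mem' := ⟨0, 0, Ideal.zero_mem _, by simp⟩
  neg_mem' := by
    rintro x ⟨n, g, hg, hgx⟩
    exact ⟨n, -g, Ideal.neg_mem_iff _ |>.2 hg, by rw [Subalgebra.coe_neg, hgx, mul_neg]⟩

include hc hBA hAs hδc hu hδ in
lemma ordFam_ordG [Algebra.Smooth k A] (hFA : RegularWeightedCentre k FA)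
    (hraise : ∀ d, ∀ a ∈ FA d, ∀ y : A, (y : K) = δA a → y ∈ FA (d + l)) :
    OrdFam B δB l (ordG FA hc) where
  zero x hx := by
    obtain ⟨n, hn⟩ := hBA x hx
    exact ⟨n, ⟨_, hn⟩, by rw [hFA.zero]; trivial, rfl⟩
  anti a b hab := by
    rintro x ⟨n, g, hg, hgx⟩
    exact ⟨n, g, hFA.anti _ _ hab hg, hgx⟩
  mul a b x y := by
    rintro ⟨n, g, hg, hgx⟩ ⟨m, g', hg', hgy⟩
    refine ⟨n + m, g * g', hFA.mul _ _ (Ideal.mul_mem_mul hg hg'), ?_⟩
    rw [Subalgebra.coe_mul, hgx, hgy, pow_add]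
    ring
  root q m x hx := by
    rintro ⟨n, hg⟩
    obtain ⟨n', hn'⟩ := hBA x hx
    obtain ⟨g, hg, hgx⟩ := step_pow hc (show n ≤ (n + n') * (q + 1) by nlinarith) hg
    have h1 : c ^ (n + n') * x ∈ A := by
      rw [pow_add, mul_assoc]
      exact A.mul_mem (A.pow_mem hc n) hn'
    refine ⟨n + n', ⟨_, h1⟩, rwc_root hFA ?_, rfl⟩
    have h2 : (⟨_, h1⟩ : A) ^ (q + 1) = g := by
      apply Subtype.ext
      rw [hgx, Subalgebra.coe_pow, mul_pow, ← pow_mul]
    rw [h2]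
    exact hg
  del d x := by
    rintro ⟨n, g, hg, hgx⟩
    have h1 : ∀ n x, δA (c ^ n * x) = c ^ n * δA x := by
      intro n
      induction n with
      | zero => intro x; rw [pow_zero, one_mul, one_mul]
      | succ n ih => intro x; rw [pow_succ', mul_assoc, hδc, ih, mul_assoc]
    have h2 := hraise d g hg ⟨δA g, hAs _ g.2⟩ rfl
    refine ⟨n0 + n, ⟨_, hu⟩ * ⟨δA g, hAs _ g.2⟩, Ideal.mul_mem_left _ _ h2, ?_⟩
    change c ^ n0 * u * δA g = _
    rw [hgx, h1, hδ, pow_add]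
    ring

include hc hBA hAs hBs hδc hu hδ in
/-- **Automatic gluing.** -/
theorem glue_nwc [Algebra.Smooth k A] [Algebra.Smooth k B] (hl : 0 < l) (hA : NWC A δA l FA)
    {FB : ℕ → Ideal B} (hB : NWC B δB l FB) (d : ℕ) (f : B) (hf : f ∈ FB d) :
    ∃ n : ℕ, ∃ g ∈ FA d, (g : K) = c ^ n * f := by
  have hG := ordFam_ordG hc hBA hAs hδc hu hδ hA.centre hA.raise
  have hfilt : IsFilt FB := RegularWeightedCentre.isFilt hB.centre
  have hgood : Good k hfilt := good_of_centre hfilt hB.centre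
  refine le_ordI hG hl hfilt hgood.ft (fun b => ⟨δB b, hBs b b.2⟩) (fun b => rfl)
    (fun d a ha => hB.raise d a ha _ rfl) ?_ ?_ d hf
  · refine hB.zeros.trans (Ideal.radical_mono (Ideal.span_mono ?_))
    rintro y ⟨b, hb⟩
    exact ⟨b, Subtype.ext hb.symm⟩
  · intro d hd a ha
    obtain ⟨N, hN⟩ := hB.lead d hd a ha
    refine ⟨N, ?_⟩
    refine SetLike.le_def.1 (sup_le le_sup_left (le_trans (Ideal.span_mono ?_) le_sup_right)) hN
    rintro y ⟨e, c', hc', b, hb, z, hz, rfl⟩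
    refine ⟨e, c', hc', b, hb, ?_⟩
    congr 1
    exact Subtype.ext hz

end glue

end Pool.Agent.U197.SF
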