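import Pool.Agent.U197.SF.D3
import Pool.Agent.U197.SF.C7

/-!
Charts of powers, and families of charts which cover `Proj`.
-/

set_option autoImplicit false
set_option linter.unusedSectionVars false

open AlgebraicGeometry CategoryTheory
open Pool.Agent.H920R2 Pool.Agent.H519R3.RS Pool.Agent.N98.PJ Pool.Agent.U197.PQ

namespace Pool.Agent.U197.SF

variable {k S : Type} [Field k] [CommRing S] [IsDomain S] [Algebra k S] (𝒜 : ℕ → Submodule k S)
  [GradedAlgebra 𝒜] {m : ℕ} (b : Fin (m + 1) → S) (hb : ∀ i, b i ∈ 𝒜 1) (hb0 : ∀ i, b i ≠ 0)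
  (hgen : Algebra.adjoin k (Set.range b) = ⊤)

/-- The chart of a power. -/
lemma ch_pow' {D : ℕ} (z : S) (hz : z ∈ 𝒜 D) (z0 : z ≠ 0) {n : ℕ} (hn : 0 < n) {D' : ℕ}
    (hD' : D' = n * D) (hz' : z ^ n ∈ 𝒜 D') (z0' : z ^ n ≠ 0) :
    ch 𝒜 (z ^ n) D' hz' z0' = ch 𝒜 z D hz z0 := by
  subst hD'
  have hz1 := ev_ne (k := k) z0
  obtain ⟨q, hq⟩ : ∃ q, n = q + 1 := ⟨n - 1, by omega⟩
  ext x
  constructor
  · rintro ⟨i, s, hs, rfl⟩
    refine ⟨i * n, s, by rwa [mul_assoc], ?_⟩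
    rw [map_pow, ← pow_mul, mul_comm n i]
  · rintro ⟨i, s, hs, rfl⟩
    refine ⟨i, s * z ^ (i * q), ?_, ?_⟩
    · have h1 := SetLike.mul_mem_graded hs (SetLike.pow_mem_graded (i * q) hz)
      rwa [smul_eq_mul, show i * D + i * q * D = i * (n * D) by rw [hq]; ring] at h1
    · rw [map_mul, map_pow, map_pow, ← pow_mul, hq, show (q + 1) * i = i + i * q by ring, pow_add]
      field_simp

include hb in
/-- A family of homogeneous elements without common zeros. -/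
lemma exists_pow_mem {𝒯 : Type} (h : 𝒯 → S) {D : ℕ} (hh : ∀ a, h a ∈ 𝒜 D)
    (hcov : ∀ x : ProjectiveSpectrum 𝒜, ∃ a, h a ∉ x.asHomogeneousIdeal) (i : Fin (m + 1)) :
    ∃ N, b i ^ N ∈ Ideal.span (Set.range h) := by
  have hI : (Ideal.span (Set.range h)).IsHomogeneous 𝒜 := by
    apply Ideal.homogeneous_span
    rintro _ ⟨a, rfl⟩
    exact ⟨D, hh a⟩
  change b i ∈ (Ideal.span (Set.range h)).radical
  rw [hI.radical_eq]
  refine Submodule.mem_sInf.2 ?_
  rintro J ⟨hJ, hIJ, hJp⟩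
  by_contra hcon
  let x : ProjectiveSpectrum 𝒜 := ⟨⟨J, hJ⟩, hJp, by
    intro hle
    apply hcon
    refine hle ?_
    rw [HomogeneousIdeal.mem_irrelevant_iff, GradedRing.proj_apply,
      DirectSum.decompose_of_mem_ne 𝒜 (hb i) one_ne_zero]⟩
  obtain ⟨a, ha⟩ := hcov x
  exact ha (hIJ (Ideal.subset_span ⟨a, rfl⟩))

include hb hb0 hgen in
/-- Charts without common zeros cover the scheme. -/
theorem cover_of_points {𝒯 : Type} [Finite 𝒯] (h : 𝒯 → S) {D : ℕ} (hh : ∀ a, h a ∈ 𝒜 D)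
    (h0 : ∀ a, h a ≠ 0) (hcov : ∀ x : ProjectiveSpectrum 𝒜, ∃ a, h a ∉ x.asHomogeneousIdeal)
    (V : ValuationSubring (FractionRing S)) (hV : ∀ c : k, algebraMap k (FractionRing S) c ∈ V) :
    ∃ a, ∀ x ∈ ch 𝒜 (h a) D (hh a) (h0 a), x ∈ V := by
  classical
  have _ := Fintype.ofFinite 𝒯
  obtain ⟨i₀, hi₀⟩ := exists_max_z (zz k b) V
  have hβ : zz k b i₀ ≠ 0 := ev_ne (hb0 i₀)
  have h1 : ∀ j, zz k b j / zz k b i₀ ∈ V := by
    intro j
    rw [← V.valuation_le_one_iff, map_div₀]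
    exact div_le_one_of_le₀ (hi₀ j) zero_le
  have hin : ∀ (n : ℕ) (s : S), s ∈ 𝒜 n → ev k S s / zz k b i₀ ^ n ∈ V := fun n s hs =>
    div_mem 𝒜 b hb hgen V hV (zz k b i₀) h1 n s hs
  obtain ⟨N, hN⟩ := exists_pow_mem 𝒜 b hb h hh hcov i₀
  have hN' : b i₀ ^ (N + D) ∈ Ideal.span (Set.range h) := by
    rw [pow_add]
    exact Ideal.mul_mem_right _ _ hN
  obtain ⟨g, hg⟩ := (Ideal.mem_span_range_iff_exists_fun).1 hN'
  let g' : 𝒯 → S := fun a => (DirectSum.decompose 𝒜 (g a) N : S)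
  have hg' : ∑ a, g' a * h a = b i₀ ^ (N + D) := by
    have hbN : b i₀ ^ (N + D) ∈ 𝒜 (N + D) := by
      have := SetLike.pow_mem_graded (N + D) (hb i₀)
      rwa [smul_eq_mul, mul_one] at this
    have h2 := congrArg (GradedAlgebra.proj 𝒜 (N + D)) hg
    rw [map_sum, GradedAlgebra.proj_apply, DirectSum.decompose_of_mem_same 𝒜 hbN] at h2
    rw [← h2]
    refine Finset.sum_congr rfl fun a _ => ?_
    rw [GradedAlgebra.proj_apply,
      DirectSum.coe_decompose_mul_of_right_mem_of_le 𝒜 (hh a) (Nat.le_add_left D N),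
      Nat.add_sub_cancel]
  have h3 : ∑ a, (ev k S (g' a) / zz k b i₀ ^ N) * (ev k S (h a) / zz k b i₀ ^ D) = 1 := by
    have h4 : ∀ a, (ev k S (g' a) / zz k b i₀ ^ N) * (ev k S (h a) / zz k b i₀ ^ D) =
        ev k S (g' a * h a) / zz k b i₀ ^ (N + D) := by
      intro a
      rw [map_mul, pow_add]
      field_simp
    rw [Finset.sum_congr rfl fun a _ => h4 a, ← Finset.sum_div, ← map_sum, hg', map_pow]
    exact div_self (pow_ne_zero _ hβ)
  have h4 : ∃ a, zz k b i₀ ^ D / ev k S (h a) ∈ V := by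
    by_contra hcon
    push Not at hcon
    have h5 : V.valuation (∑ a, (ev k S (g' a) / zz k b i₀ ^ N) *
        (ev k S (h a) / zz k b i₀ ^ D)) < 1 := by
      refine Valuation.map_sum_lt _ one_ne_zero fun a _ => ?_
      rw [map_mul]
      have h6 := hcon a
      rw [← V.valuation_le_one_iff, not_le, map_div₀] at h6
      have h7 : V.valuation (ev k S (h a) / zz k b i₀ ^ D) < 1 := by
        rw [map_div₀]
        have h8 : (V.valuation (ev k S (h a)) / V.valuation (zz k b i₀ ^ D)) =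
            (V.valuation (zz k b i₀ ^ D) / V.valuation (ev k S (h a)))⁻¹ := by
          rw [inv_div]
        rw [h8]
        exact inv_lt_one_of_one_lt₀ h6
      have h9 : V.valuation (ev k S (g' a) / zz k b i₀ ^ N) ≤ 1 :=
        (V.valuation_le_one_iff _).2 (hin N _ (DirectSum.decompose 𝒜 (g a) N).2)
      exact lt_of_le_of_lt (mul_le_of_le_one_left zero_le h9) h7
    rw [h3, map_one] at h5
    exact lt_irrefl _ h5
  obtain ⟨a, ha⟩ := h4
  refine ⟨a, ?_⟩
  rintro _ ⟨n, s, hs, rfl⟩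
  have h5 := ev_ne (k := k) (h0 a)
  have h6 : ev k S s / ev k S (h a) ^ n =
      (ev k S s / zz k b i₀ ^ (n * D)) * (zz k b i₀ ^ D / ev k S (h a)) ^ n := by
    rw [div_pow, ← pow_mul, mul_comm D n]
    field_simp
  rw [h6]
  exact V.mul_mem _ _ (hin _ _ hs) (pow_mem ha n)

/-- Finite subfamilies without common zeros. -/
lemma exists_finite_cover [IsNoetherianRing S] (X : Set S)
    (hcov : ∀ x : ProjectiveSpectrum 𝒜, ∃ z ∈ X, z ∉ x.asHomogeneousIdeal) :
    ∃ Y : Finset S, (Y : Set S) ⊆ X ∧ ∀ x : ProjectiveSpectrum 𝒜, ∃ z ∈ Y,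
      z ∉ x.asHomogeneousIdeal := by
  obtain ⟨Y, hY, hYX⟩ := (Submodule.fg_span_iff_fg_span_finset_subset X).1
    (IsNoetherian.noetherian (Submodule.span S X))
  refine ⟨Y, hY, fun x => ?_⟩
  obtain ⟨z, hz, hzx⟩ := hcov x
  by_contra hcon
  push Not at hcon
  apply hzx
  have h1 : z ∈ Submodule.span S X := Submodule.subset_span hz
  rw [hYX] at h1
  have h2 : Submodule.span S (Y : Set S) ≤ x.asHomogeneousIdeal.toIdeal := by
    rw [Submodule.span_le]
    exact hcon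
  exact h2 h1

end Pool.Agent.U197.SF
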