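import Pool.Agent.U197.SF.D5

/-!
Filtrations by monomials in weighted coordinates.
-/

set_option autoImplicit false
set_option linter.unusedSectionVars false

open Pool.Agent.H920R2 Pool.Agent.H519R3.RS

namespace Pool.Agent.U197.SF

section mono

variable {B : Type} [CommRing B] {n : ℕ} (x : Fin n → B) (w : Fin n → ℕ)

/-- The ideal generated by the monomials of weight at least `d`. -/
def monoF (d : ℕ) : Ideal B :=
  Ideal.span {y | ∃ α : Fin n → ℕ, d ≤ ∑ i, α i * w i ∧ y = ∏ i, x i ^ α i}

lemma mono_mem {d : ℕ} (α : Fin n → ℕ) (h : d ≤ ∑ i, α i * w i) :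
    ∏ i, x i ^ α i ∈ monoF x w d := Ideal.subset_span ⟨α, h, rfl⟩

lemma coord_mem (i : Fin n) : x i ∈ monoF x w (w i) := by
  classical
  have h := mono_mem x w (d := w i) (Pi.single i 1) (by
    rw [Finset.sum_eq_single i]
    · rw [Pi.single_eq_same, one_mul]
    · intro j _ hj
      rw [Pi.single_eq_of_ne hj, zero_mul]
    · intro h
      exact absurd (Finset.mem_univ i) h)
  rw [Finset.prod_eq_single i] at h
  · rwa [Pi.single_eq_same, pow_one] at h
  · intro j _ hj
    rw [Pi.single_eq_of_ne hj, pow_zero]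
  · intro h
    exact absurd (Finset.mem_univ i) h

lemma isFilt_monoF : IsFilt (monoF x w) where
  zero := by
    rw [Ideal.eq_top_iff_one]
    have := mono_mem x w (d := 0) (fun _ => 0) (Nat.zero_le _)
    simpa using this
  anti a b hab := Ideal.span_mono (by
    rintro y ⟨α, hα, rfl⟩
    exact ⟨α, hab.trans hα, rfl⟩)
  mul a b := by
    unfold monoF
    rw [Ideal.span_mul_span', Ideal.span_le]
    rintro _ ⟨_, ⟨α, hα, rfl⟩, _, ⟨β, hβ, rfl⟩, rfl⟩
    refine Ideal.subset_span ⟨α + β, ?_, ?_⟩
    · simp only [Pi.add_apply, add_mul, Finset.sum_add_distrib]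
      omega
    · simp only [Pi.add_apply, pow_add, Finset.prod_mul_distrib]

/-- The map `δ` raises the order by `l`. -/
lemma raise_mono {δ : B → B} (hadd : ∀ a b, δ (a + b) = δ a + δ b)
    (hmul : ∀ a b, ∃ c, δ (a * b) = a * δ b + b * δ a + c * (δ a * δ b)) {l : ℕ}
    (h1 : ∀ b, δ b ∈ monoF x w l) (h2 : ∀ i, δ (x i) ∈ monoF x w (w i + l)) (d : ℕ) (a : B)
    (ha : a ∈ monoF x w d) : δ a ∈ monoF x w (d + l) := by
  have hF := isFilt_monoF x w
  have hm : ∀ (d e : ℕ) (a b : B), a ∈ monoF x w d → b ∈ monoF x w e →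
      a * b ∈ monoF x w (d + e) := fun d e a b ha hb => hF.mul d e (Ideal.mul_mem_mul ha hb)
  have hprod : ∀ (d e : ℕ) (a b : B), (a ∈ monoF x w d ∧ δ a ∈ monoF x w (d + l)) →
      (b ∈ monoF x w e ∧ δ b ∈ monoF x w (e + l)) →
      (a * b ∈ monoF x w (d + e) ∧ δ (a * b) ∈ monoF x w (d + e + l)) := by
    intro d e a b ha hb
    refine ⟨hm _ _ _ _ ha.1 hb.1, ?_⟩
    obtain ⟨c, hc⟩ := hmul a b
    rw [hc]
    refine Ideal.add_mem _ (Ideal.add_mem _ ?_ ?_) (Ideal.mul_mem_left _ _ ?_)
    · have := hm _ _ _ _ ha.1 hb.2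
      rwa [← add_assoc] at this
    · have := hm _ _ _ _ hb.1 ha.2
      rwa [show e + (d + l) = d + e + l by ring] at this
    · exact hF.anti _ _ (by omega) (hm _ _ _ _ ha.2 hb.2)
  have hone : (1 : B) ∈ monoF x w 0 ∧ δ 1 ∈ monoF x w (0 + l) := by
    rw [hF.zero, zero_add]
    exact ⟨trivial, h1 1⟩
  have hpow : ∀ i (e : ℕ), x i ^ e ∈ monoF x w (e * w i) ∧ δ (x i ^ e) ∈ monoF x w (e * w i + l) := by
    intro i e
    induction e with
    | zero => rw [pow_zero, zero_mul]; exact hone
    | succ e ih =>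
      rw [pow_succ, Nat.succ_mul]
      exact hprod _ _ _ _ ih ⟨coord_mem x w i, h2 i⟩
  have hmono : ∀ (α : Fin n → ℕ) (s : Finset (Fin n)),
      ∏ i ∈ s, x i ^ α i ∈ monoF x w (∑ i ∈ s, α i * w i) ∧
        δ (∏ i ∈ s, x i ^ α i) ∈ monoF x w (∑ i ∈ s, α i * w i + l) := by
    classical
    intro α s
    induction s using Finset.induction_on with
    | empty => simpa using hone
    | insert i s hi ih =>
      rw [Finset.prod_insert hi, Finset.sum_insert hi]
      exact hprod _ _ _ _ (hpow i (α i)) ih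
  have h0 : δ 0 = 0 := by
    have := hadd 0 0
    rw [add_zero] at this
    exact (left_eq_add.1 this)
  unfold monoF at ha
  have key : a ∈ monoF x w d ∧ δ a ∈ monoF x w (d + l) := by
    induction ha using Submodule.span_induction with
    | mem y hy =>
      obtain ⟨α, hα, rfl⟩ := hy
      have := hmono α Finset.univ
      exact ⟨hF.anti _ _ hα this.1, hF.anti _ _ (by omega) this.2⟩
    | zero => exact ⟨Ideal.zero_mem _, by rw [h0]; exact Ideal.zero_mem _⟩
    | add y z _ _ hy hz =>
      exact ⟨Ideal.add_mem _ hy.1 hz.1, by rw [hadd]; exact Ideal.add_mem _ hy.2 hz.2⟩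
    | smul c y _ hy =>
      have h3 : c ∈ monoF x w 0 ∧ δ c ∈ monoF x w (0 + l) := by
        rw [hF.zero, zero_add]
        exact ⟨trivial, h1 c⟩
      have := hprod 0 d c y h3 hy
      rwa [zero_add] at this
  exact key.2

/-- The zeros of the leading form. -/
lemma lead_mono {δ : B → B} {l : ℕ} (hraise : ∀ d, ∀ a ∈ monoF x w d, δ a ∈ monoF x w (d + l))
    (h3 : ∀ i, 0 < w i → ∃ N : ℕ, x i ^ N ∈ leadI δ (monoF x w) l (N * w i)) (d : ℕ) (hd : 1 ≤ d)
    (a : B) (ha : a ∈ monoF x w d) : ∃ N : ℕ, a ^ N ∈ leadI δ (monoF x w) l (N * d) := by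
  classical
  have hF := isFilt_monoF x w
  have hm : ∀ (d e : ℕ) (a b : B), a ∈ monoF x w d → b ∈ monoF x w e →
      a * b ∈ monoF x w (d + e) := fun d e a b ha hb => hF.mul d e (Ideal.mul_mem_mul ha hb)
  have hL1 : ∀ (a m : ℕ) (y z : B), y ∈ monoF x w a → z ∈ leadI δ (monoF x w) l m →
      y * z ∈ leadI δ (monoF x w) l (m + a) := by
    intro a m y z hy hz
    unfold leadI at hz
    have hz' : z ∈ (leadI δ (monoF x w) l (m + a)).colon {y} := by
      refine SetLike.le_def.1 (sup_le ?_ (Ideal.span_le.2 ?_)) hz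
      · intro u hu
        rw [Submodule.mem_colon_singleton, smul_eq_mul]
        refine Ideal.mem_sup_left ?_
        have := hm _ _ _ _ hu hy
        rwa [show m + 1 + a = m + a + 1 by ring] at this
      · rintro u ⟨e, c, hc, b, hb, rfl⟩
        rw [SetLike.mem_coe, Submodule.mem_colon_singleton, smul_eq_mul]
        refine Ideal.mem_sup_right (Ideal.subset_span ⟨e, c, hc, b * y, ?_, by ring⟩)
        exact hF.anti _ _ (by omega) (hm _ _ _ _ hb hy)
    rw [Submodule.mem_colon_singleton, smul_eq_mul] at hz'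
    rwa [mul_comm] at hz'
  have hL2 : ∀ (m m' : ℕ), m' ≤ m → leadI δ (monoF x w) l m ≤ leadI δ (monoF x w) l m' := by
    intro m m' hmm
    rcases hmm.eq_or_lt with rfl | hlt
    · exact le_rfl
    · refine le_trans ?_ (le_sup_left : monoF x w (m' + 1) ≤ _)
      refine sup_le (hF.anti _ _ (by omega)) (Ideal.span_le.2 ?_)
      rintro u ⟨e, c, hc, b, hb, rfl⟩
      exact hF.anti _ _ (by omega) (hm _ _ _ _ hb (hraise _ _ hc))
  choose! N hN using h3
  let M := ∑ i, N i + 1
  let E : ℕ → Ideal B := fun q => Ideal.span {y | ∃ α : Fin n → ℕ, q * d ≤ ∑ i, α i * w i ∧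
    q ≤ ∑ i, (if 0 < w i then α i else 0) ∧ y = ∏ i, x i ^ α i}
  have hE : ∀ q, (monoF x w d) ^ q ≤ E q := by
    intro q
    induction q with
    | zero =>
      rw [pow_zero, Ideal.one_eq_top, top_le_iff, Ideal.eq_top_iff_one]
      refine Ideal.subset_span ⟨fun _ => 0, by simp, by simp, by simp⟩
    | succ q ih =>
      rw [pow_succ]
      refine (Ideal.mul_mono_left ih).trans ?_
      change Ideal.span _ * Ideal.span _ ≤ _
      rw [Ideal.span_mul_span', Ideal.span_le]
      rintro _ ⟨_, ⟨α, hα, hα', rfl⟩, _, ⟨β, hβ, rfl⟩, rfl⟩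
      refine Ideal.subset_span ⟨α + β, ?_, ?_, ?_⟩
      · simp only [Pi.add_apply, add_mul, Finset.sum_add_distrib, one_mul]
        omega
      · have h5 : ∀ i, (if 0 < w i then (α + β) i else 0) =
            (if 0 < w i then α i else 0) + (if 0 < w i then β i else 0) := by
          intro i
          split_ifs <;> simp
        simp only [h5, Finset.sum_add_distrib]
        have h6 : 1 ≤ ∑ i, (if 0 < w i then β i else 0) := by
          by_contra hcon
          have h7 : ∑ i, (if 0 < w i then β i else 0) = 0 := by omega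
          rw [Finset.sum_eq_zero_iff] at h7
          have h8 : ∑ i, β i * w i = 0 := by
            refine Finset.sum_eq_zero fun i hi => ?_
            have h9 := h7 i hi
            split_ifs at h9 with h10
            · rw [h9, zero_mul]
            · rw [show w i = 0 by omega, mul_zero]
          omega
        omega
      · simp only [Pi.add_apply, pow_add, Finset.prod_mul_distrib]
  refine ⟨M, ?_⟩
  have h4 : a ^ M ∈ E M := hE M (Ideal.pow_mem_pow ha M)
  refine (Ideal.span_le.2 ?_ : E M ≤ _) h4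
  rintro _ ⟨α, hα, hα', rfl⟩
  obtain ⟨i, hi, hiN⟩ : ∃ i, 0 < w i ∧ N i ≤ α i := by
    by_contra hcon
    push Not at hcon
    have h5 : ∑ i, (if 0 < w i then α i else 0) ≤ ∑ i, N i := by
      refine Finset.sum_le_sum fun i _ => ?_
      split_ifs with h
      · exact (hcon i h).le
      · exact Nat.zero_le _
    omega
  obtain ⟨β, hβ⟩ : ∃ β : Fin n → ℕ, β = α - Pi.single i (N i) := ⟨_, rfl⟩
  have h5 : ∏ j, x j ^ α j = (∏ j, x j ^ β j) * x i ^ N i := by
    have h6 : ∀ j, x j ^ α j = x j ^ β j * x j ^ (Pi.single i (N i) : Fin n → ℕ) j := by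
      intro j
      rw [← pow_add, hβ, Pi.sub_apply]
      congr 1
      by_cases hj : j = i
      · subst hj
        rw [Pi.single_eq_same]
        omega
      · rw [Pi.single_eq_of_ne hj]
        omega
    rw [Finset.prod_congr rfl fun j _ => h6 j, Finset.prod_mul_distrib]
    congr 1
    rw [Finset.prod_eq_single i]
    · rw [Pi.single_eq_same]
    · intro j _ hj
      rw [Pi.single_eq_of_ne hj, pow_zero]
    · intro h
      exact absurd (Finset.mem_univ i) h
  have h7 : ∑ j, β j * w j + N i * w i = ∑ j, α j * w j := by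
    have h8 : ∀ j, α j * w j = β j * w j +
        (Pi.single i (N i) : Fin n → ℕ) j * w j := by
      intro j
      rw [← add_mul, hβ, Pi.sub_apply]
      congr 1
      by_cases hj : j = i
      · subst hj
        rw [Pi.single_eq_same]
        omega
      · rw [Pi.single_eq_of_ne hj]
        omega
    rw [Finset.sum_congr rfl fun j _ => h8 j, Finset.sum_add_distrib]
    congr 1
    rw [Finset.sum_eq_single i]
    · rw [Pi.single_eq_same]
    · intro j _ hj
      rw [Pi.single_eq_of_ne hj, zero_mul]
    · intro h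
      exact absurd (Finset.mem_univ i) h
  rw [h5]
  have h8 := hL1 _ _ _ _ (mono_mem x w β le_rfl) (hN i hi)
  refine hL2 _ _ ?_ h8
  omega

/-- Global étale coordinates give a regular weighted centre. -/
lemma rwc_mono {k : Type} [Field k] [Algebra k B]
    (het : ((MvPolynomial.aeval x : MvPolynomial (Fin n) k →ₐ[k] B) :
      MvPolynomial (Fin n) k →+* B).Etale) : RegularWeightedCentre k (monoF x w) where
  zero := (isFilt_monoF x w).zero
  anti := (isFilt_monoF x w).anti
  mul := (isFilt_monoF x w).mul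
  coord := by
    intro P hP _
    refine ⟨1, n, x, w, fun h => hP.ne_top ((Ideal.eq_top_iff_one P).2 h), ?_, fun d => ?_⟩
    · have h1 : (algebraMap B (Localization.Away (1 : B))).Etale :=
        RingHom.etale_algebraMap.2 (Algebra.Etale.of_isLocalizationAway (1 : B))
      have h2 := RingHom.Etale.stableUnderComposition _ _ het h1
      have h3 : (algebraMap B (Localization.Away (1 : B))).comp
          ((MvPolynomial.aeval x : MvPolynomial (Fin n) k →ₐ[k] B) : MvPolynomial (Fin n) k →+* B) =
          ((MvPolynomial.aeval (fun i => algebraMap B (Localization.Away (1 : B)) (x i)) :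
            MvPolynomial (Fin n) k →ₐ[k] Localization.Away (1 : B)) :
            MvPolynomial (Fin n) k →+* Localization.Away (1 : B)) := by
        apply MvPolynomial.ringHom_ext
        · intro r
          change algebraMap B _ (MvPolynomial.aeval _ (MvPolynomial.C r)) =
            MvPolynomial.aeval _ (MvPolynomial.C r)
          rw [MvPolynomial.aeval_C, MvPolynomial.aeval_C, ← IsScalarTower.algebraMap_apply]
        · intro i
          change algebraMap B _ (MvPolynomial.aeval _ (MvPolynomial.X i)) =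
            MvPolynomial.aeval _ (MvPolynomial.X i)
          rw [MvPolynomial.aeval_X, MvPolynomial.aeval_X]
      rw [← h3]
      exact h2
    · unfold monoF
      rw [Ideal.map_span]
      congr 1
      ext y
      constructor
      · rintro ⟨_, ⟨α, hα, rfl⟩, rfl⟩
        exact ⟨α, hα, by rw [map_prod]; exact Finset.prod_congr rfl fun i _ => map_pow _ _ _⟩
      · rintro ⟨α, hα, rfl⟩
        exact ⟨_, ⟨α, hα, rfl⟩, by rw [map_prod]; exact Finset.prod_congr rfl fun i _ => map_pow _ _ _⟩

end mono

end Pool.Agent.U197.SF
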