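import Pool.Agent.U197.SF.D6

/-!
Nondegenerate weighted coordinates in a local ring extend to a neighbourhood: the algebraic
conditions.
-/

set_option autoImplicit false
set_option linter.unusedSectionVars false

open Pool.Agent.H920R2 Pool.Agent.H519R3.RS

namespace Pool.Agent.U197.SF

variable {k K : Type} [Field k] [Field K] [Algebra k K]

/-- The property `Φ` of `O` depends on finitely many elements only: it holds for all subalgebras with
the property `Q` which contain a certain finite subset of `O`. -/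
def FC (O : Subalgebra k K) (Q Φ : Subalgebra k K → Prop) : Prop :=
  ∃ E : Finset K, (∀ e ∈ E, e ∈ O) ∧ ∀ R : Subalgebra k K, Q R → (∀ e ∈ E, e ∈ R) → Φ R

variable {O : Subalgebra k K} {Q Φ Ψ : Subalgebra k K → Prop}

lemma FC.mono (h : FC O Q Φ) (hΦ : ∀ R, Q R → Φ R → Ψ R) : FC O Q Ψ := by
  obtain ⟨E, hE, h⟩ := h
  exact ⟨E, hE, fun R hQ hR => hΦ R hQ (h R hQ hR)⟩

lemma FC.and (h : FC O Q Φ) (h' : FC O Q Ψ) : FC O Q fun R => Φ R ∧ Ψ R := by
  classical
  obtain ⟨E, hE, h⟩ := h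
  obtain ⟨E', hE', h'⟩ := h'
  refine ⟨E ∪ E', fun e he => ?_, fun R hQ hR => ⟨h R hQ fun e he => ?_, h' R hQ fun e he => ?_⟩⟩
  · rcases Finset.mem_union.1 he with he | he
    · exact hE e he
    · exact hE' e he
  · exact hR e (Finset.mem_union_left _ he)
  · exact hR e (Finset.mem_union_right _ he)

lemma FC.all {ι : Type} [Finite ι] {Φ : ι → Subalgebra k K → Prop} (h : ∀ i, FC O Q (Φ i)) :
    FC O Q fun R => ∀ i, Φ i R := by
  classical
  have _ := Fintype.ofFinite ι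
  choose E hE h using h
  refine ⟨Finset.univ.biUnion E, fun e he => ?_, fun R hQ hR i => h i R hQ fun e he => ?_⟩
  · obtain ⟨i, -, hi⟩ := Finset.mem_biUnion.1 he
    exact hE i e hi
  · exact hR e (Finset.mem_biUnion.2 ⟨i, Finset.mem_univ i, he⟩)

lemma FC.triv (h : ∀ R, Q R → Φ R) : FC O Q Φ :=
  ⟨∅, fun e he => absurd he (Finset.notMem_empty e), fun R hQ _ => h R hQ⟩

lemma FC.mem {y : K} (hy : y ∈ O) : FC O Q fun R => y ∈ R :=
  ⟨{y}, fun e he => by rw [Finset.mem_singleton.1 he]; exact hy,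
    fun _ _ hR => hR y (Finset.mem_singleton_self y)⟩

/-- Spans. -/
lemma FC.span (S : Subalgebra k K → Set K) (h : ∀ t ∈ S O, FC O Q fun R => t ∈ S R) {y : K}
    (hy : y ∈ Submodule.span O (S O)) : FC O Q fun R => y ∈ Submodule.span R (S R) := by
  induction hy using Submodule.span_induction with
  | mem y hy => exact (h y hy).mono fun R _ hR => Submodule.subset_span hR
  | zero => exact FC.triv fun R _ => Submodule.zero_mem _
  | add y z _ _ hy hz => exact (hy.and hz).mono fun R _ hR => Submodule.add_mem _ hR.1 hR.2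
  | smul c y _ hy =>
    refine ((FC.mem c.2).and hy).mono fun R _ hR => ?_
    exact Submodule.smul_mem _ (⟨c, hR.1⟩ : R) hR.2

/-- Ideals of subalgebras generated by sets of elements of the field. -/
lemma mem_ideal_span {R : Subalgebra k K} {T : Set K} (hT : T ⊆ (R : Set K)) {y : R} :
    y ∈ Ideal.span {z : R | (z : K) ∈ T} ↔ (y : K) ∈ Submodule.span R T := by
  have h1 : (Submodule.span R {z : R | (z : K) ∈ T}).map (Algebra.linearMap R K) =
      Submodule.span R T := by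
    rw [Submodule.map_span]
    congr 1
    ext z
    constructor
    · rintro ⟨z, hz, rfl⟩
      exact hz
    · intro hz
      exact ⟨⟨z, hT hz⟩, hz, rfl⟩
  rw [← h1, Submodule.mem_map]
  constructor
  · intro hy
    exact ⟨y, hy, rfl⟩
  · rintro ⟨z, hz, hzy⟩
    have : z = y := Subtype.ext hzy
    rwa [← this]

section data

variable {n : ℕ} (x : Fin n → K) (w : Fin n → ℕ) (δ : K → K) (l : ℕ)

/-- The monomials of weight at least `d`. -/
def MS (d : ℕ) : Set K := {y | ∃ α : Fin n → ℕ, d ≤ ∑ i, α i * w i ∧ y = ∏ i, x i ^ α i}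

/-- The ideal generated by the monomials of weight at least `d`. -/
def Fk (R : Subalgebra k K) (d : ℕ) : Submodule R K := Submodule.span R (MS x w d)

/-- The ideal generated by the values of `δ`. -/
def Zk (R : Subalgebra k K) : Submodule R K := Submodule.span R {y | ∃ b ∈ R, y = δ b}

/-- The generators of the ideal generated by the leading forms. -/
def LS (R : Subalgebra k K) (m : ℕ) : Set K :=
  {y | y ∈ Fk x w R (m + 1) ∨ ∃ e, ∃ c ∈ Fk x w R e, ∃ b ∈ Fk x w R (m - (e + l)), y = b * δ c}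

/-- The conditions on the subalgebra `R`. -/
structure NDk (R : Subalgebra k K) : Prop where
  order : ∀ a ∈ R, δ a ∈ Fk x w R l
  order_coord : ∀ i, δ (x i) ∈ Fk x w R (w i + l)
  zeros : ∀ i, 0 < w i → ∃ M : ℕ, x i ^ M ∈ Zk δ R
  lead : ∀ i, 0 < w i → ∃ N : ℕ, x i ^ N ∈ Submodule.span R (LS x w δ l R (N * w i))

variable {x w δ l}

lemma MS_sub {R : Subalgebra k K} (hx : ∀ i, x i ∈ R) (d : ℕ) : MS x w d ⊆ (R : Set K) := by
  rintro _ ⟨α, -, rfl⟩
  exact prod_mem fun i _ => R.pow_mem (hx i) _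

lemma Fk_sub {R : Subalgebra k K} (hx : ∀ i, x i ∈ R) (d : ℕ) {y : K} (hy : y ∈ Fk x w R d) :
    y ∈ R := by
  unfold Fk at hy
  induction hy using Submodule.span_induction with
  | mem y hy => exact MS_sub hx d hy
  | zero => exact R.zero_mem
  | add y z _ _ hy hz => exact R.add_mem hy hz
  | smul c y _ hy => exact R.mul_mem c.2 hy

/-- The monomial filtration of a subalgebra. -/
lemma mem_monoF {R : Subalgebra k K} (hx : ∀ i, x i ∈ R) (d : ℕ) (y : R) :
    y ∈ monoF (fun i => (⟨x i, hx i⟩ : R)) w d ↔ (y : K) ∈ Fk x w R d := by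
  unfold Fk
  rw [← mem_ideal_span (MS_sub hx d)]
  unfold monoF
  have h1 : ∀ α : Fin n → ℕ, ((∏ i, (⟨x i, hx i⟩ : R) ^ α i : R) : K) = ∏ i, x i ^ α i := by
    intro α
    change R.val (∏ i, (⟨x i, hx i⟩ : R) ^ α i) = _
    rw [map_prod]
    rfl
  have h2 : {y : R | ∃ α : Fin n → ℕ, d ≤ ∑ i, α i * w i ∧ y = ∏ i, (⟨x i, hx i⟩ : R) ^ α i} =
      {z : R | (z : K) ∈ MS x w d} := by
    ext z
    constructor
    · rintro ⟨α, hα, rfl⟩
      exact ⟨α, hα, h1 α⟩
    · rintro ⟨α, hα, hz⟩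
      exact ⟨α, hα, Subtype.ext (hz.trans (h1 α).symm)⟩
  rw [h2]

lemma mem_zI {R : Subalgebra k K} (hδ : ∀ a ∈ R, δ a ∈ R) (y : R) :
    y ∈ zI R δ ↔ (y : K) ∈ Zk δ R := by
  unfold Zk
  rw [← mem_ideal_span (by rintro _ ⟨b, hb, rfl⟩; exact hδ b hb)]
  unfold zI
  have h2 : {y : R | ∃ b : R, (y : K) = δ b} = {z : R | (z : K) ∈ {y | ∃ b ∈ R, y = δ b}} := by
    ext z
    constructor
    · rintro ⟨b, hb⟩
      exact ⟨b, b.2, hb⟩
    · rintro ⟨b, hb, hz⟩
      exact ⟨⟨b, hb⟩, hz⟩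
  rw [h2]

lemma LS_sub {R : Subalgebra k K} (hx : ∀ i, x i ∈ R) (hδ : ∀ a ∈ R, δ a ∈ R) (m : ℕ) :
    LS x w δ l R m ⊆ (R : Set K) := by
  rintro y (hy | ⟨e, c, hc, b, hb, rfl⟩)
  · exact Fk_sub hx _ hy
  · exact R.mul_mem (Fk_sub hx _ hb) (hδ _ (Fk_sub hx _ hc))

/-- The leading ideal of a subalgebra. -/
lemma mem_lead {R : Subalgebra k K} (hx : ∀ i, x i ∈ R) (hδ : ∀ a ∈ R, δ a ∈ R) (m : ℕ) (y : R) :
    y ∈ leadI (fun a : R => (⟨δ a, hδ a a.2⟩ : R)) (monoF (fun i => (⟨x i, hx i⟩ : R)) w) l m ↔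
      (y : K) ∈ Submodule.span R (LS x w δ l R m) := by
  rw [← mem_ideal_span (LS_sub hx hδ m)]
  have h1 : leadI (fun a : R => (⟨δ a, hδ a a.2⟩ : R)) (monoF (fun i => (⟨x i, hx i⟩ : R)) w) l m =
      Ideal.span {z : R | (z : K) ∈ LS x w δ l R m} := by
    apply le_antisymm
    · refine sup_le (fun z hz => Ideal.subset_span (Or.inl ((mem_monoF hx _ z).1 hz)))
        (Ideal.span_mono ?_)
      rintro z ⟨e, c, hc, b, hb, rfl⟩
      exact Or.inr ⟨e, c, (mem_monoF hx _ c).1 hc, b, (mem_monoF hx _ b).1 hb, rfl⟩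
    · rw [Ideal.span_le]
      rintro z (hz | ⟨e, c, hc, b, hb, hz⟩)
      · exact Ideal.mem_sup_left ((mem_monoF hx _ z).2 hz)
      · refine Ideal.mem_sup_right (Ideal.subset_span
          ⟨e, ⟨c, Fk_sub hx _ hc⟩, (mem_monoF hx _ _).2 hc, ⟨b, Fk_sub hx _ hb⟩,
            (mem_monoF hx _ _).2 hb, Subtype.ext hz⟩)
  rw [h1]

/-- The conditions hold on large subalgebras, if they hold on `O` (except for the first one). -/
theorem fc_ndk (h : NDk x w δ l O) (B : Finset K) (hB : ∀ b ∈ B, b ∈ O) :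
    FC O (fun R => ∀ i, x i ∈ R) fun R => (∀ b ∈ B, δ b ∈ Fk x w R l) ∧
      (∀ i, δ (x i) ∈ Fk x w R (w i + l)) ∧ (∀ i, 0 < w i → ∃ M : ℕ, x i ^ M ∈ Zk δ R) ∧
      ∀ i, 0 < w i → ∃ N : ℕ, x i ^ N ∈ Submodule.span R (LS x w δ l R (N * w i)) := by
  have hF : ∀ (d : ℕ) (y : K), y ∈ Fk x w O d → FC O (fun R => ∀ i, x i ∈ R) fun R =>
      y ∈ Fk x w R d := fun d y hy =>
    FC.span (fun _ => MS x w d) (fun t ht => FC.triv fun _ _ => ht) hy
  refine FC.and ?_ (FC.and ?_ (FC.and ?_ ?_))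
  · have h1 : FC O (fun R => ∀ i, x i ∈ R) fun R => ∀ b : B, δ b ∈ Fk x w R l :=
      FC.all fun b => hF _ _ (h.order b (hB b b.2))
    exact h1.mono fun R _ hR b hb => hR ⟨b, hb⟩
  · exact FC.all fun i => hF _ _ (h.order_coord i)
  · refine FC.all fun i => ?_
    by_cases hi : 0 < w i
    · obtain ⟨M, hM⟩ := h.zeros i hi
      have h1 : FC O (fun R => ∀ i, x i ∈ R) fun R => x i ^ M ∈ Zk δ R :=
        FC.span (fun R => {y | ∃ b ∈ R, y = δ b}) (fun t ht => by
          obtain ⟨b, hb, rfl⟩ := ht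
          exact (FC.mem hb).mono fun R _ hR => ⟨b, hR, rfl⟩) hM
      exact h1.mono fun R _ hR _ => ⟨M, hR⟩
    · exact FC.triv fun R _ h => absurd h hi
  · refine FC.all fun i => ?_
    by_cases hi : 0 < w i
    · obtain ⟨N, hN⟩ := h.lead i hi
      have h1 : FC O (fun R => ∀ i, x i ∈ R) fun R =>
          x i ^ N ∈ Submodule.span R (LS x w δ l R (N * w i)) :=
        FC.span (fun R => LS x w δ l R (N * w i)) (fun t ht => by
          rcases ht with ht | ⟨e, c, hc, b, hb, rfl⟩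
          · exact (hF _ _ ht).mono fun R _ hR => Or.inl hR
          · exact ((hF _ _ hc).and (hF _ _ hb)).mono fun R _ hR =>
              Or.inr ⟨e, c, hR.1, b, hR.2, rfl⟩) hN
      exact h1.mono fun R _ hR _ => ⟨N, hR⟩
    · exact FC.triv fun R _ h => absurd h hi

/-- The conditions give a nondegenerate weighted centre. -/
theorem nwc_of_ndk {R : Subalgebra k K} (hx : ∀ i, x i ∈ R) (hδ : ∀ a ∈ R, δ a ∈ R)
    (hadd : ∀ a b, δ (a + b) = δ a + δ b)
    (hmul : ∀ a b, ∃ c : k, δ (a * b) = a * δ b + b * δ a + c • (δ a * δ b))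
    (h : NDk x w δ l R)
    (het : ((MvPolynomial.aeval (fun i => (⟨x i, hx i⟩ : R)) : MvPolynomial (Fin n) k →ₐ[k] R) :
      MvPolynomial (Fin n) k →+* R).Etale) :
    NWC R δ l (monoF (fun i => (⟨x i, hx i⟩ : R)) w) := by
  let δR : R → R := fun a => ⟨δ a, hδ a a.2⟩
  have hraise : ∀ d, ∀ a ∈ monoF (fun i => (⟨x i, hx i⟩ : R)) w d,
      δR a ∈ monoF (fun i => (⟨x i, hx i⟩ : R)) w (d + l) := by
    intro d a ha
    refine raise_mono _ _ (δ := δR) (fun a b => Subtype.ext (hadd a b)) (fun a b => ?_)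
      (fun b => (mem_monoF hx _ _).2 (h.order b b.2))
      (fun i => (mem_monoF hx _ _).2 (h.order_coord i)) d a ha
    obtain ⟨c, hc⟩ := hmul a b
    refine ⟨algebraMap k R c, Subtype.ext ?_⟩
    change δ ((a : K) * b) = _
    rw [hc, Algebra.smul_def]
    rfl
  refine ⟨rwc_mono _ _ het, fun d a ha y hy => ?_, ?_, ?_⟩
  · have := hraise d a ha
    rwa [show y = δR a from Subtype.ext hy]
  · unfold monoF
    rw [Ideal.span_le]
    rintro _ ⟨α, hα, rfl⟩
    obtain ⟨i, hi, hi'⟩ : ∃ i, 0 < w i ∧ 0 < α i := by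
      by_contra hcon
      push Not at hcon
      have h1 : ∑ i, α i * w i = 0 := by
        refine Finset.sum_eq_zero fun i _ => ?_
        rcases Nat.eq_zero_or_pos (w i) with h2 | h2
        · rw [h2, mul_zero]
        · rw [Nat.le_zero.1 (hcon i h2), zero_mul]
      omega
    obtain ⟨M, hM⟩ := h.zeros i hi
    have h1 : (⟨x i, hx i⟩ : R) ∈ (zI R δ).radical := ⟨M, (mem_zI hδ _).2 hM⟩
    refine Ideal.mem_of_dvd _ (Finset.dvd_prod_of_mem _ (Finset.mem_univ i)) ?_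
    exact Ideal.pow_mem_of_mem _ h1 _ hi'
  · intro d hd a ha
    obtain ⟨N, hN⟩ := lead_mono _ _ (δ := δR) (l := l) hraise (fun i hi => by
      obtain ⟨N, hN⟩ := h.lead i hi
      exact ⟨N, (mem_lead hx hδ _ _).2 hN⟩) d hd a ha
    refine ⟨N, ?_⟩
    refine SetLike.le_def.1 (sup_le le_sup_left (le_trans (Ideal.span_mono ?_) le_sup_right)) hN
    rintro y ⟨e, c, hc, b, hb, rfl⟩
    exact ⟨e, c, hc, b, hb, δR c, rfl, rfl⟩

end data

end Pool.Agent.U197.SF
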