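import Pool.Agent.U197.SF.D7

/-!
Nondegenerate weighted coordinates in a local ring extend to a neighbourhood.
-/

set_option autoImplicit false
set_option linter.unusedSectionVars false

open KaehlerDifferential TensorProduct
open Pool.Agent.H920R2 Pool.Agent.H519R3.RS Pool.Agent.N98.PJ

namespace Pool.Agent.U197.SF

/-- Elements whose differentials are a basis at a prime are étale coordinates near the prime. -/
theorem exists_etale' {k B O ι : Type} [Field k] [CommRing B] [Algebra k B] [Algebra.Smooth k B]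
    [Finite ι] (a : ι → B) (P : Ideal B) [P.IsPrime] [CommRing O] [Algebra B O] [Algebra k O]
    [IsScalarTower k B O] [IsLocalization.AtPrime O P]
    (b : Module.Basis ι O (Ω[O⁄k]))
    (hb : ∀ i, b i = D k _ (algebraMap B O (a i))) :
    ∃ g : B, g ∉ P ∧ ((MvPolynomial.aeval (fun i => algebraMap B (Localization.Away g) (a i)) :
      MvPolynomial ι k →ₐ[k] Localization.Away g) :
      MvPolynomial ι k →+* Localization.Away g).Etale := by
  let e : (ι →₀ B) →ₗ[B] Ω[B⁄k] := Finsupp.linearCombination B fun i : ι ↦ D k B (a i)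
  let l₁ : (ι →₀ B) →ₗ[B] (ι →₀ O) :=
    Finsupp.mapRange.linearMap (Algebra.linearMap B O)
  have hloc : IsLocalization P.primeCompl O := inferInstanceAs (IsLocalization.AtPrime O P)
  let l₂ : Ω[B⁄k] →ₗ[B] Ω[O⁄k] := map k k B O
  have hl₂ : IsLocalizedModule P.primeCompl l₂ :=
    KaehlerDifferential.isLocalizedModule_map k B O P.primeCompl
  let eₚ : (ι →₀ O) →ₗ[O] Ω[O⁄k] :=
    IsLocalizedModule.mapExtendScalars P.primeCompl l₁ l₂ O e
  have : eₚ = b.repr.symm := by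
    ext i
    trans IsLocalizedModule.map P.primeCompl l₁ l₂ e <| l₁ <| Finsupp.single i 1
    · simp [eₚ, -IsLocalizedModule.map_apply, l₁]
    · simp [l₂, e, hb]
  have heₚ : Function.Bijective eₚ := this ▸ b.repr.symm.bijective
  obtain ⟨g, hg, h⟩ := Module.FinitePresentation.exists_notMem_bijective e P l₁ l₂ heₚ
  let l₁ₜ : (ι →₀ B) →ₗ[B] (ι →₀ Localization.Away g) :=
    Finsupp.mapRange.linearMap (Algebra.linearMap B _)
  let l₂ₜ : Ω[B⁄k] →ₗ[B] Ω[Localization.Away g⁄k] :=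
    map k k B (Localization.Away g)
  rw [← IsLocalizedModule.map_bijective_iff_localizedModuleMap_bijective l₁ₜ l₂ₜ] at h
  let eₜ' : (ι →₀ Localization.Away g) →ₗ[Localization.Away g] Ω[Localization.Away g⁄k] :=
    IsLocalizedModule.mapExtendScalars (Submonoid.powers g) l₁ₜ l₂ₜ (Localization.Away g) e
  have hsm : Algebra.Smooth k (Localization.Away g) :=
    Algebra.Smooth.comp k B (Localization.Away g)
  refine ⟨g, hg, etale_of_basis _ (.ofRepr (LinearEquiv.ofBijective eₜ' h).symm) ?_⟩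
  intro i
  have h5 : eₜ' (Finsupp.single i 1) = D k _ (algebraMap B (Localization.Away g) (a i)) := by
    trans IsLocalizedModule.map (Submonoid.powers g) l₁ₜ l₂ₜ e (l₁ₜ (Finsupp.single i 1))
    · simp [eₜ', -IsLocalizedModule.map_apply, l₁ₜ]
    · simp [l₂ₜ, e]
  rw [← h5]
  rfl

variable {k K : Type} [Field k] [Field K] [Algebra k K]

/-- The coordinates are étale. -/
def EtC {n : ℕ} (R : Subalgebra k K) (x : Fin n → K) (hx : ∀ i, x i ∈ R) : Prop :=
  ((MvPolynomial.aeval (fun i => (⟨x i, hx i⟩ : R)) : MvPolynomial (Fin n) k →ₐ[k] R) :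
      MvPolynomial (Fin n) k →+* R).Etale

lemma locAt_isLocalization (R : Subalgebra k K) (g : K) (hg : g ∈ R) (hg0 : g ≠ 0) :
    @IsLocalization R _ (Submonoid.powers (⟨g, hg⟩ : R)) (locAt R g hg) _
      (Subalgebra.inclusion (le_locAt R g hg)).toRingHom.toAlgebra := by
  let _ : Algebra R (locAt R g hg) := (Subalgebra.inclusion (le_locAt R g hg)).toRingHom.toAlgebra
  refine IsLocalization.Away.mk (⟨g, hg⟩ : R) ?_ ?_ ?_
  · refine IsUnit.of_mul_eq_one ⟨g⁻¹, inv_mem_locAt R g hg hg0⟩ ?_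
    apply Subtype.ext
    exact mul_inv_cancel₀ hg0
  · rintro ⟨f, n, hn⟩
    refine ⟨n, ⟨f * g ^ n, hn⟩, ?_⟩
    apply Subtype.ext
    rfl
  · intro a b hab
    refine ⟨0, ?_⟩
    have h3 : ((algebraMap R (locAt R g hg) a : locAt R g hg) : K) =
        ((algebraMap R (locAt R g hg) b : locAt R g hg) : K) := congrArg Subtype.val hab
    have h4 : (a : K) = b := h3
    rw [Subtype.ext h4]

/-- Transport of étale coordinates to the localization inside the field. -/
lemma etC_of_away {n : ℕ} {R : Subalgebra k K} {x : Fin n → K} (hx : ∀ i, x i ∈ R) (g : K)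
    (hg : g ∈ R) (hg0 : g ≠ 0)
    (h : ((MvPolynomial.aeval (fun i => algebraMap R (Localization.Away (⟨g, hg⟩ : R))
      ⟨x i, hx i⟩) : MvPolynomial (Fin n) k →ₐ[k] Localization.Away (⟨g, hg⟩ : R)) :
      MvPolynomial (Fin n) k →+* Localization.Away (⟨g, hg⟩ : R)).Etale) :
    EtC (locAt R g hg) x fun i => le_locAt R g hg (hx i) := by
  let _ : Algebra R (locAt R g hg) := (Subalgebra.inclusion (le_locAt R g hg)).toRingHom.toAlgebra
  have hloc : IsLocalization (Submonoid.powers (⟨g, hg⟩ : R)) (locAt R g hg) :=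
    locAt_isLocalization R g hg hg0
  let e : Localization.Away (⟨g, hg⟩ : R) ≃ₐ[R] locAt R g hg :=
    IsLocalization.algEquiv (Submonoid.powers (⟨g, hg⟩ : R)) _ _
  have h2 : (e : Localization.Away (⟨g, hg⟩ : R) →+* locAt R g hg).Etale :=
    RingHom.Etale.of_bijective e.bijective
  have h3 := RingHom.Etale.stableUnderComposition _ _ h h2
  unfold EtC
  have h4 : (e : Localization.Away (⟨g, hg⟩ : R) →+* locAt R g hg).comp
      ((MvPolynomial.aeval (fun i => algebraMap R (Localization.Away (⟨g, hg⟩ : R))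
      ⟨x i, hx i⟩) : MvPolynomial (Fin n) k →ₐ[k] Localization.Away (⟨g, hg⟩ : R)) :
      MvPolynomial (Fin n) k →+* Localization.Away (⟨g, hg⟩ : R)) =
      ((MvPolynomial.aeval (fun i => (⟨x i, le_locAt R g hg (hx i)⟩ : locAt R g hg)) :
        MvPolynomial (Fin n) k →ₐ[k] locAt R g hg) : MvPolynomial (Fin n) k →+* locAt R g hg) := by
    apply MvPolynomial.ringHom_ext
    · intro r
      change e (MvPolynomial.aeval _ (MvPolynomial.C r)) = MvPolynomial.aeval _ (MvPolynomial.C r)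
      rw [MvPolynomial.aeval_C, MvPolynomial.aeval_C,
        IsScalarTower.algebraMap_apply k R (Localization.Away (⟨g, hg⟩ : R)), e.commutes]
      rfl
    · intro i
      change e (MvPolynomial.aeval _ (MvPolynomial.X i)) = MvPolynomial.aeval _ (MvPolynomial.X i)
      rw [MvPolynomial.aeval_X, MvPolynomial.aeval_X, e.commutes]
      rfl
  rw [← h4]
  exact h3

/-- Étale coordinates restrict to localizations. -/
lemma EtC.locAt {n : ℕ} {R : Subalgebra k K} {x : Fin n → K} {hx : ∀ i, x i ∈ R}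
    (h : EtC R x hx) (g : K) (hg : g ∈ R) (hg0 : g ≠ 0) :
    EtC (locAt R g hg) x fun i => le_locAt R g hg (hx i) := by
  let _ : Algebra R (Pool.Agent.N98.PJ.locAt R g hg) :=
    (Subalgebra.inclusion (le_locAt R g hg)).toRingHom.toAlgebra
  have hloc : IsLocalization.Away (⟨g, hg⟩ : R) (Pool.Agent.N98.PJ.locAt R g hg) :=
    locAt_isLocalization R g hg hg0
  have h1 : (algebraMap R (Pool.Agent.N98.PJ.locAt R g hg)).Etale :=
    RingHom.etale_algebraMap.2 (Algebra.Etale.of_isLocalizationAway (⟨g, hg⟩ : R))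
  have h3 := RingHom.Etale.stableUnderComposition _ _ h h1
  unfold EtC
  have h4 : (algebraMap R (Pool.Agent.N98.PJ.locAt R g hg)).comp
      ((MvPolynomial.aeval (fun i => (⟨x i, hx i⟩ : R)) : MvPolynomial (Fin n) k →ₐ[k] R) :
        MvPolynomial (Fin n) k →+* R) =
      ((MvPolynomial.aeval (fun i => (⟨x i, le_locAt R g hg (hx i)⟩ :
        Pool.Agent.N98.PJ.locAt R g hg)) :
        MvPolynomial (Fin n) k →ₐ[k] Pool.Agent.N98.PJ.locAt R g hg) :
        MvPolynomial (Fin n) k →+* Pool.Agent.N98.PJ.locAt R g hg) := by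
    apply MvPolynomial.ringHom_ext
    · intro r
      change algebraMap R _ (MvPolynomial.aeval _ (MvPolynomial.C r)) =
        MvPolynomial.aeval _ (MvPolynomial.C r)
      rw [MvPolynomial.aeval_C, MvPolynomial.aeval_C]
      rfl
    · intro i
      change algebraMap R _ (MvPolynomial.aeval _ (MvPolynomial.X i)) =
        MvPolynomial.aeval _ (MvPolynomial.X i)
      rw [MvPolynomial.aeval_X, MvPolynomial.aeval_X]
      rfl
  rw [← h4]
  exact h3

/-- A family of neighbourhoods of a point with the local ring `O`. -/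
structure ChartFam (O : Subalgebra k K) (τ : K ≃ₐ[k] K) (𝒞 : Subalgebra k K → Prop) : Prop where
  le : ∀ R, 𝒞 R → R ≤ O
  sm : ∀ R, 𝒞 R → Algebra.Smooth k R
  st : ∀ R, 𝒞 R → ∀ x ∈ R, τ x ∈ R
  loc : ∀ R, 𝒞 R → ∀ (g : K) (hg : g ∈ R), τ g = g → g ≠ 0 → g⁻¹ ∈ O → 𝒞 (locAt R g hg)
  frac : ∀ R, 𝒞 R → ∀ y ∈ O, ∃ g ∈ R, g ≠ 0 ∧ g⁻¹ ∈ O ∧ y * g ∈ R
  nonempty : ∃ R, 𝒞 R

section spread

variable {O : Subalgebra k K} {τ : K ≃ₐ[k] K} {𝒞 : Subalgebra k K → Prop}
  (h𝒞 : ChartFam O τ 𝒞) {p : ℕ} (hp : 0 < p) (hτp : ∀ x, τ^[p] x = x)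
  (hτO : ∀ x ∈ O, τ x ∈ O)

lemma iter_mem_sub {R : Subalgebra k K} (hR : ∀ x ∈ R, τ x ∈ R) (i : ℕ) (x : K) (hx : x ∈ R) :
    τ^[i] x ∈ R := by
  induction i with
  | zero => exact hx
  | succ i ih => rw [Function.iterate_succ_apply']; exact hR _ ih

include hp hτp hτO in
/-- Norms. -/
lemma exists_norm {R : Subalgebra k K} (hR : ∀ x ∈ R, τ x ∈ R) (g : K) (hg : g ∈ R) (hg0 : g ≠ 0)
    (hgO : g⁻¹ ∈ O) : ∃ g' ∈ R, τ (g * g') = g * g' ∧ g * g' ≠ 0 ∧ (g * g')⁻¹ ∈ O := by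
  obtain ⟨q, rfl⟩ : ∃ q, p = q + 1 := ⟨p - 1, by omega⟩
  have h0 : ∀ i, τ^[i] g ≠ 0 := by
    intro i
    induction i with
    | zero => exact hg0
    | succ i ih =>
      rw [Function.iterate_succ_apply']
      exact fun h => ih ((map_eq_zero_iff τ τ.injective).1 h)
  have hinv : ∀ i, (τ^[i] g)⁻¹ ∈ O := by
    intro i
    induction i with
    | zero => exact hgO
    | succ i ih =>
      rw [Function.iterate_succ_apply', ← map_inv₀]
      exact hτO _ ih
  refine ⟨∏ i ∈ Finset.range q, τ^[i + 1] g, prod_mem fun i _ => iter_mem_sub hR _ _ hg, ?_, ?_, ?_⟩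
  · rw [mul_comm, ← nrm_succ', map_nrm τ (q + 1) hτp]
  · exact mul_ne_zero hg0 (Finset.prod_ne_zero_iff.2 fun i _ => h0 _)
  · rw [mul_inv, ← Finset.prod_inv_distrib]
    exact O.mul_mem hgO (prod_mem fun i _ => hinv _)

include h𝒞 hp hτp hτO in
/-- Neighbourhoods which contain finitely many given elements. -/
lemma exists_enlarge {R : Subalgebra k K} (hR : 𝒞 R) (E : Finset K) (hE : ∀ e ∈ E, e ∈ O) :
    ∃ (g : K) (hg : g ∈ R), τ g = g ∧ g ≠ 0 ∧ g⁻¹ ∈ O ∧ ∀ e ∈ E, e ∈ locAt R g hg := by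
  classical
  have h1 : ∀ E : Finset K, (∀ e ∈ E, e ∈ O) → ∃ g ∈ R, g ≠ 0 ∧ g⁻¹ ∈ O ∧ ∀ e ∈ E, e * g ∈ R := by
    intro E
    induction E using Finset.induction_on with
    | empty => exact fun _ => ⟨1, R.one_mem, one_ne_zero, by rw [inv_one]; exact O.one_mem,
        fun e he => absurd he (Finset.notMem_empty e)⟩
    | insert a E ha ih =>
      intro hE
      obtain ⟨g, hg, hg0, hgO, hgE⟩ := ih fun e he => hE e (Finset.mem_insert_of_mem he)
      obtain ⟨g', hg', hg0', hgO', hga⟩ := h𝒞.frac R hR a (hE a (Finset.mem_insert_self a E))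
      refine ⟨g * g', R.mul_mem hg hg', mul_ne_zero hg0 hg0', ?_, fun e he => ?_⟩
      · rw [mul_inv]
        exact O.mul_mem hgO hgO'
      · rcases Finset.mem_insert.1 he with rfl | he
        · rw [mul_comm g, ← mul_assoc]
          exact R.mul_mem hga hg
        · rw [← mul_assoc]
          exact R.mul_mem (hgE e he) hg'
  obtain ⟨g, hg, hg0, hgO, hgE⟩ := h1 E hE
  obtain ⟨g', hg', hτ, h0, hinv⟩ := exists_norm hp hτp hτO (h𝒞.st R hR) g hg hg0 hgO
  refine ⟨g * g', R.mul_mem hg hg', hτ, h0, hinv, fun e he => ⟨1, ?_⟩⟩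
  rw [pow_one, ← mul_assoc]
  exact R.mul_mem (hgE e he) hg'

variable {n : ℕ} {x : Fin n → K} {w : Fin n → ℕ} {l : ℕ}

include h𝒞 hp hτp hτO in
/-- **Spreading out.** -/
theorem spread [IsLocalRing O] (hx : ∀ i, x i ∈ O) (hxΩ : ∃ b : Module.Basis (Fin n) O (Ω[O⁄k]),
    ∀ i, b i = D k O ⟨x i, hx i⟩) (h : NDk x w (fun y => τ y - y) l O) :
    ∃ R, 𝒞 R ∧ ∃ F : ℕ → Ideal R, NWC R (fun y => τ y - y) l F := by
  classical
  obtain ⟨R', hR'⟩ := h𝒞.nonempty
  -- the coordinates are defined on the neighbourhood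
  obtain ⟨R0, hR0, hx0⟩ : ∃ R, 𝒞 R ∧ ∀ i, x i ∈ R := by
    obtain ⟨g, hg, hτ, hg0, hgO, hgE⟩ := exists_enlarge h𝒞 hp hτp hτO hR' (Finset.univ.image x)
      (fun e he => by
        obtain ⟨i, -, rfl⟩ := Finset.mem_image.1 he
        exact hx i)
    exact ⟨_, h𝒞.loc R' hR' g hg hτ hg0 hgO, fun i =>
      hgE _ (Finset.mem_image_of_mem x (Finset.mem_univ i))⟩
  -- étale coordinates
  obtain ⟨R1, hR1, hx1, het1⟩ : ∃ R, 𝒞 R ∧ ∃ hx1 : ∀ i, x i ∈ R, EtC R x hx1 := by
    let _ : Algebra R0 O := (Subalgebra.inclusion (h𝒞.le R0 hR0)).toRingHom.toAlgebra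
    have _ : IsScalarTower k R0 O := IsScalarTower.of_algebraMap_eq fun r => rfl
    have _ := h𝒞.sm R0 hR0
    let P : Ideal R0 := (IsLocalRing.maximalIdeal O).comap (algebraMap R0 O)
    have hP : ∀ (g : K) (hg : g ∈ R0), (⟨g, hg⟩ : R0) ∉ P ↔ g ≠ 0 ∧ g⁻¹ ∈ O := by
      intro g hg
      rw [Ideal.mem_comap, IsLocalRing.mem_maximalIdeal, mem_nonunits_iff, not_not]
      constructor
      · intro hu
        obtain ⟨y, hy⟩ := hu.exists_right_inv
        have h1 : g * (y : K) = 1 := congrArg Subtype.val hy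
        have h2 : g ≠ 0 := left_ne_zero_of_mul_eq_one h1
        refine ⟨h2, ?_⟩
        rw [inv_eq_of_mul_eq_one_right h1]
        exact y.2
      · rintro ⟨h1, h2⟩
        exact IsUnit.of_mul_eq_one ⟨g⁻¹, h2⟩ (Subtype.ext (mul_inv_cancel₀ h1))
    have hloc : IsLocalization.AtPrime O P := by
      refine ⟨?_, ?_, ?_⟩
      · rintro ⟨⟨g, hg⟩, hgP⟩
        obtain ⟨h1, h2⟩ := (hP g hg).1 hgP
        exact IsUnit.of_mul_eq_one ⟨g⁻¹, h2⟩ (Subtype.ext (mul_inv_cancel₀ h1))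
      · intro y
        obtain ⟨g, hg, hg0, hgO, hyg⟩ := h𝒞.frac R0 hR0 y y.2
        exact ⟨⟨⟨y * g, hyg⟩, ⟨g, hg⟩, (hP g hg).2 ⟨hg0, hgO⟩⟩, Subtype.ext rfl⟩
      · intro a b hab
        refine ⟨1, ?_⟩
        have h3 : (a : K) = b := congrArg (fun z : O => (z : K)) hab
        rw [Subtype.ext h3]
    obtain ⟨b, hb⟩ := hxΩ
    obtain ⟨⟨g, hg⟩, hgP, het⟩ := exists_etale' (fun i => (⟨x i, hx0 i⟩ : R0)) P b hb
    obtain ⟨hg0, hgO⟩ := (hP g hg).1 hgP
    obtain ⟨g', hg', hτ, h0, hinv⟩ := exists_norm hp hτp hτO (h𝒞.st R0 hR0) g hg hg0 hgO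
    have h1 := etale_mul _ _ (⟨g', hg'⟩ : R0) het
    exact ⟨_, h𝒞.loc R0 hR0 (g * g') (R0.mul_mem hg hg') hτ h0 hinv,
      fun i => le_locAt _ _ _ (hx0 i), etC_of_away hx0 (g * g') (R0.mul_mem hg hg') h0 h1⟩
  -- the generators
  have _ := h𝒞.sm R1 hR1
  have hft : Algebra.FiniteType k R1 := inferInstance
  obtain ⟨T, hT⟩ := hft.1
  obtain ⟨E, hE, hER⟩ := fc_ndk h (T.image Subtype.val) (fun b hb => by
    obtain ⟨b, -, rfl⟩ := Finset.mem_image.1 hb
    exact h𝒞.le R1 hR1 b.2)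
  obtain ⟨g, hg, hτ, hg0, hgO, hgE⟩ := exists_enlarge h𝒞 hp hτp hτO hR1 E hE
  have hR2 := h𝒞.loc R1 hR1 g hg hτ hg0 hgO
  have hx2 : ∀ i, x i ∈ locAt R1 g hg := fun i => le_locAt _ _ _ (hx1 i)
  obtain ⟨hT2, hc2, hz2, hl2⟩ := hER _ hx2 hgE
  have hmul : ∀ a b : K, τ (a * b) - a * b = a * (τ b - b) + b * (τ a - a) +
      (1 : k) • ((τ a - a) * (τ b - b)) := by
    intro a b
    rw [map_mul, one_smul]
    ring
  have ho1 : ∀ a ∈ R1, τ a - a ∈ Fk x w (locAt R1 g hg) l := by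
    have h1 : ∀ a : R1, τ (a : K) - a ∈ Fk x w (locAt R1 g hg) l := by
      intro a
      have ha : a ∈ Algebra.adjoin k (T : Set R1) := by rw [hT]; trivial
      induction ha using Algebra.adjoin_induction with
      | mem b hb => exact hT2 b (Finset.mem_image_of_mem _ hb)
      | algebraMap r =>
        have h2 : τ ((algebraMap k R1 r : R1) : K) = ((algebraMap k R1 r : R1) : K) := τ.commutes r
        rw [h2, sub_self]
        exact Submodule.zero_mem _
      | add a b _ _ ha hb =>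
        have h2 : τ ((a + b : R1) : K) - ((a + b : R1) : K) = (τ (a : K) - a) + (τ (b : K) - b) := by
          rw [Subalgebra.coe_add, map_add]
          ring
        rw [h2]
        exact Submodule.add_mem _ ha hb
      | mul a b _ _ ha hb =>
        rw [Subalgebra.coe_mul, hmul, one_smul]
        have hle := le_locAt R1 g hg
        refine Submodule.add_mem _ (Submodule.add_mem _ ?_ ?_) ?_
        · exact Submodule.smul_mem _ (⟨a, hle a.2⟩ : locAt R1 g hg) hb
        · exact Submodule.smul_mem _ (⟨b, hle b.2⟩ : locAt R1 g hg) ha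
        · exact Submodule.smul_mem _ (⟨τ (a : K) - a, hle (R1.sub_mem (h𝒞.st R1 hR1 a a.2) a.2)⟩ :
            locAt R1 g hg) hb
    exact fun a ha => h1 ⟨a, ha⟩
  have ho2 : ∀ a ∈ locAt R1 g hg, τ a - a ∈ Fk x w (locAt R1 g hg) l := by
    rintro a ⟨m, hm⟩
    have h1 := ho1 _ hm
    have h2 : τ (a * g ^ m) - a * g ^ m = g ^ m * (τ a - a) := by
      rw [map_mul, map_pow, hτ]
      ring
    rw [h2] at h1
    have h3 : τ a - a = (g⁻¹) ^ m * (g ^ m * (τ a - a)) := by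
      rw [← mul_assoc, ← mul_pow, inv_mul_cancel₀ hg0, one_pow, one_mul]
    rw [h3]
    exact Submodule.smul_mem _ (⟨(g⁻¹) ^ m, Subalgebra.pow_mem _ (inv_mem_locAt R1 g hg hg0) m⟩ :
      locAt R1 g hg) h1
  refine ⟨_, hR2, _, nwc_of_ndk hx2 (fun a ha => Subalgebra.sub_mem _ (h𝒞.st _ hR2 a ha) ha)
    (fun a b => by rw [map_add]; ring) (fun a b => ⟨1, hmul a b⟩) ⟨ho2, hc2, hz2, hl2⟩
    (EtC.locAt het1 g hg hg0)⟩

end spread

end Pool.Agent.U197.SF
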