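import Pool.Agent.U197.SF.D8

/-!
Local rings of `Proj` inside the field of fractions, and invariant charts around a point.
-/

set_option autoImplicit false
set_option linter.unusedSectionVars false

open AlgebraicGeometry CategoryTheory
open Pool.Agent.H920R2 Pool.Agent.H519R3.RS Pool.Agent.N98.PJ Pool.Agent.U197.PQ

namespace Pool.Agent.U197.SF

variable {k S : Type} [Field k] [CommRing S] [IsDomain S] [Algebra k S] (𝒜 : ℕ → Submodule k S)
  [GradedAlgebra 𝒜]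

section ring

variable (x : ProjectiveSpectrum 𝒜)

lemma ne_zero_of_notMem {t : S} (ht : t ∉ x.asHomogeneousIdeal) : t ≠ 0 := by
  rintro rfl
  exact ht x.asHomogeneousIdeal.toIdeal.zero_mem

lemma mul_notMem {s t : S} (hs : s ∉ x.asHomogeneousIdeal) (ht : t ∉ x.asHomogeneousIdeal) :
    s * t ∉ x.asHomogeneousIdeal := fun h => (x.isPrime.mem_or_mem h).elim hs ht

lemma pow_notMem {s : S} (hs : s ∉ x.asHomogeneousIdeal) (n : ℕ) :
    s ^ n ∉ x.asHomogeneousIdeal := fun h => hs (x.isPrime.mem_of_pow_mem _ h)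

/-- The local ring of `Proj` at the point `x`. -/
noncomputable def lrx : Subalgebra k (FractionRing S) where
  carrier := {y | ∃ n : ℕ, ∃ s ∈ 𝒜 n, ∃ t ∈ 𝒜 n, t ∉ x.asHomogeneousIdeal ∧
    y = ev k S s / ev k S t}
  mul_mem' := by
    rintro _ _ ⟨n, s, hs, t, ht, htx, rfl⟩ ⟨n', s', hs', t', ht', htx', rfl⟩
    exact ⟨n + n', s * s', SetLike.mul_mem_graded hs hs', t * t', SetLike.mul_mem_graded ht ht',
      mul_notMem 𝒜 x htx htx', by rw [map_mul, map_mul, div_mul_div_comm]⟩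
  add_mem' := by
    rintro _ _ ⟨n, s, hs, t, ht, htx, rfl⟩ ⟨n', s', hs', t', ht', htx', rfl⟩
    refine ⟨n + n', s * t' + t * s', Submodule.add_mem _ (SetLike.mul_mem_graded hs ht')
      (SetLike.mul_mem_graded ht hs'), t * t', SetLike.mul_mem_graded ht ht',
      mul_notMem 𝒜 x htx htx', ?_⟩
    rw [div_add_div _ _ (ev_ne (ne_zero_of_notMem 𝒜 x htx)) (ev_ne (ne_zero_of_notMem 𝒜 x htx')),
      map_add, map_mul, map_mul, map_mul]
  algebraMap_mem' r := by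
    refine ⟨0, algebraMap k S r, SetLike.algebraMap_mem_graded 𝒜 r, 1, SetLike.one_mem_graded 𝒜,
      fun h => x.isPrime.ne_top ((Ideal.eq_top_iff_one _).2 h), ?_⟩
    rw [map_one, div_one]
    exact ((ev k S).commutes r).symm

/-- Units of the local ring. -/
lemma unit_iff {n : ℕ} {s t : S} (hs : s ∈ 𝒜 n) (ht : t ∈ 𝒜 n) (htx : t ∉ x.asHomogeneousIdeal)
    (h : ev k S s / ev k S t ∈ lrx 𝒜 x) :
    IsUnit (⟨_, h⟩ : lrx 𝒜 x) ↔ s ∉ x.asHomogeneousIdeal := by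
  have ht0 := ev_ne (k := k) (ne_zero_of_notMem 𝒜 x htx)
  constructor
  · intro hu
    obtain ⟨⟨_, n', s', hs', t', ht', htx', rfl⟩, hy⟩ := hu.exists_right_inv
    have h1 : ev k S s / ev k S t * (ev k S s' / ev k S t') = 1 := congrArg Subtype.val hy
    have ht0' := ev_ne (k := k) (ne_zero_of_notMem 𝒜 x htx')
    rw [div_mul_div_comm, div_eq_one_iff_eq (mul_ne_zero ht0 ht0'), ← map_mul, ← map_mul] at h1
    have h2 : s * s' = t * t' := ev_inj (k := k) h1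
    intro hsx
    apply mul_notMem 𝒜 x htx htx'
    rw [← h2]
    exact Ideal.mul_mem_right _ _ hsx
  · intro hsx
    have hs0 := ev_ne (k := k) (ne_zero_of_notMem 𝒜 x hsx)
    refine IsUnit.of_mul_eq_one ⟨ev k S t / ev k S s, n, t, ht, s, hs, hsx, rfl⟩ (Subtype.ext ?_)
    change ev k S s / ev k S t * (ev k S t / ev k S s) = 1
    field_simp

instance isLocalRing_lrx : IsLocalRing (lrx 𝒜 x) := by
  refine IsLocalRing.of_nonunits_add ?_
  rintro ⟨y, hy⟩ ⟨y', hy'⟩ h1 h2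
  have hy0 := hy
  have hy0' := hy'
  obtain ⟨n, s, hs, t, ht, htx, rfl⟩ := hy0
  obtain ⟨n', s', hs', t', ht', htx', rfl⟩ := hy0'
  rw [mem_nonunits_iff, unit_iff 𝒜 x hs ht htx, not_not] at h1
  rw [mem_nonunits_iff, unit_iff 𝒜 x hs' ht' htx', not_not] at h2
  rw [mem_nonunits_iff]
  have ht0 := ev_ne (k := k) (ne_zero_of_notMem 𝒜 x htx)
  have ht0' := ev_ne (k := k) (ne_zero_of_notMem 𝒜 x htx')
  have hadd : ev k S s / ev k S t + ev k S s' / ev k S t' =
      ev k S (s * t' + t * s') / ev k S (t * t') := by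
    rw [div_add_div _ _ ht0 ht0', map_add, map_mul, map_mul, map_mul]
  have hmem : ev k S (s * t' + t * s') / ev k S (t * t') ∈ lrx 𝒜 x := by
    rw [← hadd]
    exact Subalgebra.add_mem _ hy hy'
  have h3 := unit_iff 𝒜 x (Submodule.add_mem _ (SetLike.mul_mem_graded hs ht')
    (SetLike.mul_mem_graded ht hs')) (SetLike.mul_mem_graded ht ht')
    (mul_notMem 𝒜 x htx htx') hmem
  have h4 : (⟨_, hy⟩ + ⟨_, hy'⟩ : lrx 𝒜 x) = ⟨_, hmem⟩ := Subtype.ext hadd
  rw [h4, h3, not_not]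
  exact Ideal.add_mem _ (Ideal.mul_mem_right _ _ h1) (Ideal.mul_mem_left _ _ h2)

lemma inv_mem_iff {n : ℕ} {s t : S} (hs : s ∈ 𝒜 n) (ht : t ∈ 𝒜 n)
    (htx : t ∉ x.asHomogeneousIdeal) (h0 : s ≠ 0) :
    (ev k S s / ev k S t)⁻¹ ∈ lrx 𝒜 x ↔ s ∉ x.asHomogeneousIdeal := by
  have ht0 := ev_ne (k := k) (ne_zero_of_notMem 𝒜 x htx)
  have hs0 := ev_ne (k := k) h0
  have hmem : ev k S s / ev k S t ∈ lrx 𝒜 x := ⟨n, s, hs, t, ht, htx, rfl⟩
  rw [← unit_iff 𝒜 x hs ht htx hmem]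
  constructor
  · intro h
    exact IsUnit.of_mul_eq_one ⟨_, h⟩ (Subtype.ext (mul_inv_cancel₀ (div_ne_zero hs0 ht0)))
  · intro h
    obtain ⟨y, hy⟩ := h.exists_right_inv
    have h1 : ev k S s / ev k S t * (y : FractionRing S) = 1 := congrArg Subtype.val hy
    rw [inv_eq_of_mul_eq_one_right h1]
    exact y.2

lemma ch_le_lrx {D : ℕ} (z : S) (hz : z ∈ 𝒜 D) (z0 : z ≠ 0) (hzx : z ∉ x.asHomogeneousIdeal) :
    ch 𝒜 z D hz z0 ≤ lrx 𝒜 x := by
  rintro _ ⟨i, s, hs, rfl⟩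
  refine ⟨i * D, s, hs, z ^ i, SetLike.pow_mem_graded i hz, pow_notMem 𝒜 x hzx i, ?_⟩
  rw [map_pow]

end ring

/-- Localizations of charts. -/
lemma locAt_ch {D : ℕ} (z : S) (hz : z ∈ 𝒜 D) (z0 : z ≠ 0) (i : ℕ) (s : S) (hs : s ∈ 𝒜 (i * D))
    (s0 : s ≠ 0) (hg : ev k S s / ev k S z ^ i ∈ ch 𝒜 z D hz z0) (hz' : z * s ∈ 𝒜 (D + i * D)) :
    locAt (ch 𝒜 z D hz z0) (ev k S s / ev k S z ^ i) hg =
      ch 𝒜 (z * s) (D + i * D) hz' (mul_ne_zero z0 s0) := by
  have hz1 := ev_ne (k := k) z0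
  have hs1 := ev_ne (k := k) s0
  ext y
  constructor
  · rintro ⟨n, j, t, ht, hy⟩
    refine ⟨j + n, t * z ^ (i * n) * z ^ n * s ^ j, ?_, ?_⟩
    · have h1 := SetLike.mul_mem_graded (SetLike.mul_mem_graded (SetLike.mul_mem_graded ht
        (SetLike.pow_mem_graded (i * n) hz)) (SetLike.pow_mem_graded n hz))
        (SetLike.pow_mem_graded j hs)
      have h2 : j * D + (i * n) • D + n • D + j • (i * D) = (j + n) * (D + i * D) := by
        simp only [smul_eq_mul]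
        ring
      rwa [h2] at h1
    · have h1 : y = (ev k S t / ev k S z ^ j) / (ev k S s / ev k S z ^ i) ^ n := by
        rw [← hy]
        field_simp
      rw [h1, map_mul, map_mul, map_mul, map_pow, map_pow, map_pow, map_mul]
      rw [div_pow, ← pow_mul, mul_pow, pow_add, pow_add]
      field_simp
  · rintro ⟨j, t, ht, rfl⟩
    refine ⟨j, j + i * j, t, ?_, ?_⟩
    · rwa [show (j + i * j) * D = j * (D + i * D) by ring]
    · rw [map_mul, div_pow, ← pow_mul, mul_pow, pow_add]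
      field_simp

end Pool.Agent.U197.SF
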